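import Pool.Agent.Q192.PK.ManD
import Pool.Agent.Q130.AN.Main2

/-!
# Project PK: equivalences
-/

set_option autoImplicit false
set_option linter.unusedSectionVars false

open scoped Manifold ContDiff Topology Bundle
open Set Filter Bundle

namespace Pool.Agent.Q192.PK

open Pool.Agent.H721R2 Pool.Agent.H779R2.An Pool.Agent.Y321.PD Pool.Agent.H789R2.AN
  Pool.Agent.Q192.PI.B Pool.Agent.Q192.PI Pool.Agent.Q192.PG Pool.Agent.TH289.K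
  Pool.Agent.Y330.J
open Pool.Agent.W740.TU (anosov_symm)

universe u v w

section manifold

variable {E : Type w} [NormedAddCommGroup E] [NormedSpace ℝ E] [FiniteDimensional ℝ E]
  {M : Type u} [TopologicalSpace M] [T2Space M] [CompactSpace M] [ConnectedSpace M]
  [ChartedSpace E M] [IsManifold 𝓘(ℝ, E) ∞ M]

/-- Subexponential distortion gives one modulus at the periodic points. -/
theorem one_of_sub (f : Diffeomorph 𝓘(ℝ, E) 𝓘(ℝ, E) M M 1)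
    (N : TangentBundle 𝓘(ℝ, E) M → ℝ) (hN : IsTangentNorm N)
    (V : M → Submodule ℝ E)
    (hV : ∀ (n : ℕ) (x : M), ∀ v ∈ V x, dg E (f^[n]) x v ∈ V (f^[n] x))
    (hP : SubexpDistortion f N V) :
    OneModulus (E := E) f V := by
  obtain ⟨m, ee, hee, hemb, hinje⟩ :=
    exists_embedding_euclidean_of_compact (I := 𝓘(ℝ, E)) (M := M)
  let _ : MetricSpace M := hemb.isEmbedding.comapMetricSpace ee
  have he1 : ContMDiff 𝓘(ℝ, E) (𝓡 m) 1 ee := hee.of_le (by simp)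
  refine one_of_perDis f.contMDiff V hV ?_
  intro k p hk hp κ hκ
  obtain ⟨C, hC⟩ := hP κ hκ
  obtain ⟨R, hR, hcmp⟩ := tnm_compare hN ee he1 hinje
  obtain ⟨R', hR', c1, c2⟩ := dm_cmp (e := ee) hinje p
  have hR0 : 0 < R := by linarith
  have d1 : ∀ v : E, tnm N p v ≤ (R * R') * ‖v‖ := fun v => by
    calc tnm N p v ≤ R * ‖dm E ee p v‖ := (hcmp p v).2
      _ ≤ R * (R' * ‖v‖) := mul_le_mul_of_nonneg_left (c1 v) hR0.le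
      _ = _ := by ring
  have d2 : ∀ v : E, ‖v‖ ≤ (R * R') * tnm N p v := fun v => by
    calc ‖v‖ ≤ R' * ‖dm E ee p v‖ := c2 v
      _ ≤ R' * (R * tnm N p v) := mul_le_mul_of_nonneg_left (hcmp p v).1 hR'.le
      _ = _ := by ring
  set B := R * R' with hB
  have hB0 : 0 < B := by positivity
  refine ⟨|C| * B ^ 4, fun q v hv w hw => ?_⟩
  have h0 : f^[k * q] p = p := iter_per hp q
  have h1 : tnm N (f^[k * q] p) (dg E (f^[k * q]) p v) * tnm N p w ≤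
      C * κ ^ (k * q) * (tnm N (f^[k * q] p) (dg E (f^[k * q]) p w) * tnm N p v) :=
    hC (k * q) p v hv w hw
  rw [h0] at h1
  set v' := dg E (f^[k * q]) p v
  set w' := dg E (f^[k * q]) p w
  have n1 : 0 ≤ tnm N p v := tnm_nonneg hN _ _
  have n2 : 0 ≤ tnm N p w := tnm_nonneg hN _ _
  have n3 : 0 ≤ tnm N p v' := tnm_nonneg hN _ _
  have n4 : 0 ≤ tnm N p w' := tnm_nonneg hN _ _
  have hκn : 0 < κ ^ (k * q) := by positivity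
  calc ‖v'‖ * ‖w‖ ≤ (B * tnm N p v') * (B * tnm N p w) :=
        mul_le_mul (d2 v') (d2 w) (norm_nonneg _) (by positivity)
    _ = B ^ 2 * (tnm N p v' * tnm N p w) := by ring
    _ ≤ B ^ 2 * (|C| * κ ^ (k * q) * (tnm N p w' * tnm N p v)) := by
        apply mul_le_mul_of_nonneg_left _ (by positivity)
        refine h1.trans (mul_le_mul_of_nonneg_right ?_ (by positivity))
        exact mul_le_mul_of_nonneg_right (le_abs_self _) hκn.le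
    _ ≤ B ^ 2 * (|C| * κ ^ (k * q) * ((B * ‖w'‖) * (B * ‖v‖))) := by
        apply mul_le_mul_of_nonneg_left _ (by positivity)
        apply mul_le_mul_of_nonneg_left _ (by positivity)
        exact mul_le_mul (d1 w') (d1 v) n1 (by positivity)
    _ = _ := by ring

/-- Distortion of the inverse. -/
theorem sub_inv (f : Diffeomorph 𝓘(ℝ, E) 𝓘(ℝ, E) M M 1)
    (N : TangentBundle 𝓘(ℝ, E) M → ℝ) (V : M → Submodule ℝ E)
    (hV : ∀ (n : ℕ) (x : M), ∀ v ∈ V x, dg E (f^[n]) x v ∈ V (f^[n] x))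
    (hP : SubexpDistortion f.symm N V) : SubexpDistortion f N V := by
  obtain ⟨m, ee, hee, hemb, hinje⟩ :=
    exists_embedding_euclidean_of_compact (I := 𝓘(ℝ, E)) (M := M)
  let _ : MetricSpace M := hemb.isEmbedding.comapMetricSpace ee
  intro κ hκ
  obtain ⟨C, hC⟩ := hP κ hκ
  suffices H : ∀ (n : ℕ) (x : M) (v : E), v ∈ V x → ∀ w : E, w ∈ V x →
      tnm N (f^[n] x) (dg E (f^[n]) x v) * tnm N x w ≤
        C * κ ^ n * (tnm N (f^[n] x) (dg E (f^[n]) x w) * tnm N x v) from ⟨C, H⟩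
  intro n x v hv w hw
  have h1 : tnm N (f.symm^[n] (f^[n] x)) (dg E (f.symm^[n]) (f^[n] x) (dg E (f^[n]) x w)) *
      tnm N (f^[n] x) (dg E (f^[n]) x v) ≤ C * κ ^ n *
      (tnm N (f.symm^[n] (f^[n] x)) (dg E (f.symm^[n]) (f^[n] x) (dg E (f^[n]) x v)) *
        tnm N (f^[n] x) (dg E (f^[n]) x w)) :=
    hC n (f^[n] x) _ (hV n x w hw) _ (hV n x v hv)
  have h2 : f.symm^[n] (f^[n] x) = x := (Function.LeftInverse.iterate f.symm_apply_apply n) x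
  have h3 : ∀ v : E, dg E (f.symm^[n]) (f^[n] x) (dg E (f^[n]) x v) = v := fun v =>
    dg_inv (f^[n]) (f.symm^[n]) (iter_smooth f f.contMDiff n)
      (iter_smooth f.symm f.symm.contMDiff n)
      (fun z => (Function.LeftInverse.iterate f.symm_apply_apply n) z) x v
  rw [h3, h3, h2] at h1
  linarith

theorem sub_inv' (f : Diffeomorph 𝓘(ℝ, E) 𝓘(ℝ, E) M M 1)
    (N : TangentBundle 𝓘(ℝ, E) M → ℝ) (V : M → Submodule ℝ E)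
    (hV : ∀ (n : ℕ) (x : M), ∀ v ∈ V x, dg E (f.symm^[n]) x v ∈ V (f.symm^[n] x))
    (hP : SubexpDistortion f N V) : SubexpDistortion f.symm N V := by
  refine sub_inv f.symm N V hV ?_
  exact hP

/-- **Theorem PK, all conditions.** -/
theorem man_all (f : Diffeomorph 𝓘(ℝ, E) 𝓘(ℝ, E) M M 1)
    (Es Eu : ∀ x : M, Submodule ℝ (TangentSpace 𝓘(ℝ, E) x)) (hA : IsAnosov f Es Eu)
    (N : TangentBundle 𝓘(ℝ, E) M → ℝ) (hN : IsTangentNorm N)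
    (h : ((∀ x, 2 ≤ Module.finrank ℝ (Eu x)) ∧ (SubexpDistortion f N Eu ∨
        (ContMDiff 𝓘(ℝ, E) 𝓘(ℝ, E) 2 f ∧ ContMDiff 𝓘(ℝ, E) 𝓘(ℝ, E) 2 f.symm ∧
          OneModulus f Eu))) ∨
      ((∀ x, 2 ≤ Module.finrank ℝ (Es x)) ∧ (SubexpDistortion f N Es ∨
        (ContMDiff 𝓘(ℝ, E) 𝓘(ℝ, E) 2 f ∧ ContMDiff 𝓘(ℝ, E) 𝓘(ℝ, E) 2 f.symm ∧
          OneModulus f Es))) ∨
      (ContMDiff 𝓘(ℝ, E) 𝓘(ℝ, E) 2 f ∧ ContMDiff 𝓘(ℝ, E) 𝓘(ℝ, E) 2 f.symm ∧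
        ∃ μ₁ μ₂ l₁ l₂ : ℝ, 0 < μ₁ ∧ μ₁ ≤ μ₂ ∧ μ₂ < 1 ∧ 1 < l₁ ∧ l₁ ≤ l₂ ∧
          PeriodicRates f Es μ₁ μ₂ ∧ PeriodicRates f Eu l₁ l₂ ∧
          1 < Real.log l₁ / Real.log l₂ + Real.log μ₂ / Real.log μ₁) ∨
      (∃ C μ₁ μ₂ l₁ l₂ : ℝ, 0 < C ∧ 0 < μ₁ ∧ μ₁ ≤ μ₂ ∧ μ₂ < 1 ∧ 1 < l₁ ∧ l₁ ≤ l₂ ∧
        RatesOn f N Es C μ₁ μ₂ ∧ RatesOn f N Eu C l₁ l₂ ∧
        1 < Real.log l₁ / Real.log l₂ + Real.log μ₂ / Real.log μ₁) ∨
      ∃ (C μ₁ μ₂ l₁ l₂ C₁ κ : ℝ) (D : ℕ), 0 < C ∧ 0 < μ₁ ∧ μ₁ ≤ μ₂ ∧ μ₂ < 1 ∧ 1 < l₁ ∧ l₁ ≤ l₂ ∧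
        RatesOn f N Es C μ₁ μ₂ ∧ RatesOn f N Eu C l₁ l₂ ∧ 2 ≤ D ∧
        (∀ x, Module.finrank ℝ (Eu x) = D) ∧ 1 ≤ κ ∧ DistortionOn f N Eu C₁ κ ∧
        2 * D * Real.log κ * (Real.log μ₂ - Real.log μ₁) < -Real.log μ₂ * Real.log l₁) :
    TopTransitive f ∧ GPS f.toHomeomorph ∧
      (∃ P : E → M, IsCoveringMap P ∧ Function.Surjective P) ∧ PG M := by
  obtain ⟨m, ee, hee, hemb, hinje⟩ :=
    exists_embedding_euclidean_of_compact (I := 𝓘(ℝ, E)) (M := M)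
  have hinv : ∀ (n : ℕ) (x : M), ∀ v ∈ (Es x : Submodule ℝ E),
      dg E (f.symm^[n]) x v ∈ (Es (f.symm^[n] x) : Submodule ℝ E) := by
    let _ : MetricSpace M := hemb.isEmbedding.comapMetricSpace ee
    have he1 : ContMDiff 𝓘(ℝ, E) (𝓡 m) 1 ee := hee.of_le (by simp)
    obtain ⟨C, a, b, Ls, Lu, hE⟩ := eanosov_of_isAnosov ee he1 hinje f Es Eu hA
    exact hE.mapS'
  have hsub : ∀ h1 : ((∀ x, 2 ≤ Module.finrank ℝ (Eu x)) ∧ SubexpDistortion f N Eu) ∨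
      ((∀ x, 2 ≤ Module.finrank ℝ (Es x)) ∧ SubexpDistortion f.symm N Es),
      TopTransitive f ∧ GPS f.toHomeomorph ∧
      (∃ P : E → M, IsCoveringMap P ∧ Function.Surjective P) ∧ PG M := by
    intro h1
    obtain ⟨k1, k2, k3⟩ := man_sub2 f Es Eu hA N hN h1
    exact ⟨k1, k2, k3, fin_sub f Es Eu hA N hN h1⟩
  rcases h with ⟨h1, h2 | ⟨h2, h3, h4⟩⟩ | ⟨h1, h2 | ⟨h2, h3, h4⟩⟩ | ⟨h2, h3, h4⟩ |
    ⟨C, μ₁, μ₂, l₁, l₂, hC, h₁, h₂, h₃, h₄, h₅, hs, hu, hp⟩ |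
    ⟨C, μ₁, μ₂, l₁, l₂, C₁, κ, D, hC, h₁, h₂, h₃, h₄, h₅, hs, hu, hD, hrk, hκ, hd, hp⟩
  · exact hsub (Or.inl ⟨h1, h2⟩)
  · exact hsub (Or.inl ⟨h1, sub_of_one_u f h2 h3 Es Eu hA N hN h4⟩)
  · exact hsub (Or.inr ⟨h1, sub_inv' f N Es hinv h2⟩)
  · exact hsub (Or.inr ⟨h1, sub_of_one_s f h2 h3 Es Eu hA N hN h4⟩)
  · exact man_per f h2 h3 Es Eu hA N hN (Or.inr (Or.inr h4))
  · obtain ⟨k1, k2, k3⟩ := man_pinch f Es Eu hA N hN C μ₁ μ₂ l₁ l₂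
      ⟨hC, h₁, h₂, h₃, h₄, h₅, hA.isCompl, hA.map_s, hA.map_u, hs, hu⟩ hp
    exact ⟨k1, k2, k3, fin_pinch f Es Eu N hN C μ₁ μ₂ l₁ l₂
      ⟨hC, h₁, h₂, h₃, h₄, h₅, hA.isCompl, hA.map_s, hA.map_u, hs, hu⟩ hp⟩
  · obtain ⟨k1, k2, k3⟩ := man_quant2 f Es Eu hA N hN C μ₁ μ₂ l₁ l₂ C₁ κ
      ⟨hC, h₁, h₂, h₃, h₄, h₅, hA.isCompl, hA.map_s, hA.map_u, hs, hu⟩ D hD hrk hκ hd hp
    exact ⟨k1, k2, k3, fin_quant f Es Eu N hN C μ₁ μ₂ l₁ l₂ C₁ κ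
      ⟨hC, h₁, h₂, h₃, h₄, h₅, hA.isCompl, hA.map_s, hA.map_u, hs, hu⟩ D hD hrk hκ hd hp⟩

/-- **Theorem PK, converse**: for `C²` Anosov diffeomorphisms, one modulus at each periodic point is
equivalent to subexponential distortion. -/
theorem man_one_iff (f : Diffeomorph 𝓘(ℝ, E) 𝓘(ℝ, E) M M 1)
    (hf2 : ContMDiff 𝓘(ℝ, E) 𝓘(ℝ, E) 2 f) (hf2' : ContMDiff 𝓘(ℝ, E) 𝓘(ℝ, E) 2 f.symm)
    (Es Eu : ∀ x : M, Submodule ℝ (TangentSpace 𝓘(ℝ, E) x)) (hA : IsAnosov f Es Eu)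
    (N : TangentBundle 𝓘(ℝ, E) M → ℝ) (hN : IsTangentNorm N) :
    (OneModulus f Eu ↔ SubexpDistortion f N Eu) ∧
      (OneModulus f Es ↔ SubexpDistortion f N Es) := by
  obtain ⟨m, ee, hee, hemb, hinje⟩ :=
    exists_embedding_euclidean_of_compact (I := 𝓘(ℝ, E)) (M := M)
  let _ : MetricSpace M := hemb.isEmbedding.comapMetricSpace ee
  have he1 : ContMDiff 𝓘(ℝ, E) (𝓡 m) 1 ee := hee.of_le (by simp)
  obtain ⟨C, a, b, Ls, Lu, hE⟩ := eanosov_of_isAnosov ee he1 hinje f Es Eu hA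
  let Eu' : M → Submodule ℝ E := Eu
  let Es' : M → Submodule ℝ E := Es
  refine ⟨⟨sub_of_one_u f hf2 hf2' Es Eu hA N hN,
    one_of_sub f N hN Eu' hE.mapU⟩, ⟨fun h => ?_,
    one_of_sub f N hN Es' hE.mapS⟩⟩
  exact sub_inv f N Es' hE.mapS (sub_of_one_s f hf2 hf2' Es Eu hA N hN h)

end manifold

end Pool.Agent.Q192.PK
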