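import Pool.Agent.Q192.PK.Stm2

/-!
# Project PK, lemma K10: closing with comparison maps (helper151)
-/

set_option autoImplicit false
set_option linter.unusedSectionVars false

open Filter Topology Set Metric

namespace Pool.Agent.Q192.PK

open Pool.Agent.H721R2 Pool.Agent.H779R2.An Pool.Agent.Y321.PD Pool.Agent.H779R2.An.TauAux

universe u v

theorem sK10 : SK10.{u, v} := by
  intro X _ _ E _ _ _ S Q r hQ
  obtain ⟨Pu, h⟩ := exists_PD S
  obtain ⟨c₀, hc₀, hLP⟩ := exists_LP_small S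
  have hK := S.one_le_K
  have hLu := S.one_le_Lu
  have hQ0 := hQ.Q_pos
  have hr0 := hQ.r_pos
  refine ⟨2 * ((S.Lu + 1) * S.K * Q), 1, by positivity, one_pos, ?_⟩
  intro c hc _
  obtain ⟨r₁, hr₁, hnear⟩ := h.near c hc
  obtain ⟨c', hc', hc'0, hc'c, hc'r₁, hc'r⟩ : ∃ c' > 0, c' ≤ c₀ ∧ c' ≤ c ∧ 4 * c' ≤ r₁ ∧
      4 * c' ≤ r := by
    refine ⟨min (min c₀ c) (min (r₁ / 4) (r / 4)), ?_, ?_, ?_, ?_, ?_⟩
    · exact lt_min (lt_min hc₀ hc) (lt_min (by positivity) (by positivity))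
    · exact (min_le_left _ _).trans (min_le_left _ _)
    · exact (min_le_left _ _).trans (min_le_right _ _)
    · have : min (min c₀ c) (min (r₁ / 4) (r / 4)) ≤ r₁ / 4 :=
        (min_le_right _ _).trans (min_le_left _ _)
      linarith
    · have : min (min c₀ c) (min (r₁ / 4) (r / 4)) ≤ r / 4 :=
        (min_le_right _ _).trans (min_le_right _ _)
      linarith
  obtain ⟨ε₁, hε₁, hcl⟩ := Pool.Agent.Q130.AN.closing_core S (hLP c' hc' hc'0)
  refine ⟨min ε₁ c', lt_min hε₁ hc', ?_⟩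
  intro x n hn hx
  obtain ⟨m, rfl⟩ : ∃ m, n = m + 1 := ⟨n - 1, by omega⟩
  obtain ⟨p, hp, hd⟩ := hcl x (S.g^[m] x) m 1 le_rfl (by rw [dist_self]; exact hε₁.le) (by
    rw [Function.iterate_one, ← Function.iterate_succ_apply' S.g]
    exact hx.trans (min_le_left _ _))
  have hpow : ∀ i : ℕ, ((1 : ℝ) / 2) ^ i ≤ 1 := fun i =>
    pow_le_one₀ (by norm_num) (by norm_num)
  have hd2 : ∀ i ≤ m, dist (S.g^[i] x) (S.g^[i] p) ≤ 2 * c' := by
    intro i hi
    have h1 := hd i hi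
    have h2 : c' * (1 / 2) ^ i ≤ c' * 1 := mul_le_mul_of_nonneg_left (hpow i) hc'.le
    have h3 : c' * (1 / 2) ^ (m - i) ≤ c' * 1 := mul_le_mul_of_nonneg_left (hpow _) hc'.le
    linarith
  have hd3 : ∀ i ≤ m + 1, dist (S.g^[i] p) (S.g^[i] x) < r₁ := by
    intro i hi
    rw [dist_comm]
    rcases Nat.lt_or_ge m i with h1 | h1
    · have h2 : i = m + 1 := by omega
      rw [h2, hp]
      have h3 := dist_triangle (S.g^[m + 1] x) x p
      have h4 : dist x p ≤ 2 * c' := hd2 0 (Nat.zero_le _)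
      have h5 := hx.trans (min_le_right _ _)
      linarith
    · have := hd2 i h1
      linarith
  refine ⟨p, hp, fun k => Pu (S.g^[k] x), ?_, ?_⟩
  · intro k hk w hw
    exact ⟨h.mem _ _, hnear _ _ (hd3 k hk) w hw⟩
  · intro k hk w hw
    have hkm : k ≤ m := by omega
    have hdk : dist (S.g^[k] p) (S.g^[k] x) ≤ 2 * c' * ((1 / 2) ^ k + (1 / 2) ^ (m + 1 - k)) := by
      rw [dist_comm]
      refine (hd k hkm).trans ?_
      have e1 : m + 1 - k = (m - k) + 1 := by omega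
      rw [e1, pow_succ]
      have h1 : 0 ≤ c' * ((1 : ℝ) / 2) ^ k := by positivity
      linarith
    have h1 := h.step hQ (S.g^[k] p) (S.g^[k] x) (by
      have := hd2 k hkm
      rw [dist_comm]
      linarith) w hw
    have e1 : S.g^[k + 1] x = S.g (S.g^[k] x) := Function.iterate_succ_apply' S.g k x
    rw [norm_sub_rev]
    show ‖S.D (S.g^[k] x) (Pu (S.g^[k] x) w) - Pu (S.g^[k + 1] x) (S.D (S.g^[k] p) w)‖ ≤ _
    rw [e1]
    refine h1.trans ?_
    have h2 : (S.Lu + 1) * S.K * Q * dist (S.g^[k] p) (S.g^[k] x) ≤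
        (S.Lu + 1) * S.K * Q * (2 * c * ((1 / 2) ^ k + (1 / 2) ^ (m + 1 - k))) := by
      refine mul_le_mul_of_nonneg_left (hdk.trans ?_) (by positivity)
      exact mul_le_mul_of_nonneg_right (by linarith) (by positivity)
    calc (S.Lu + 1) * S.K * Q * dist (S.g^[k] p) (S.g^[k] x) * ‖w‖
        ≤ (S.Lu + 1) * S.K * Q * (2 * c * ((1 / 2) ^ k + (1 / 2) ^ (m + 1 - k))) * ‖w‖ :=
          mul_le_mul_of_nonneg_right h2 (norm_nonneg _)
      _ = _ := by ring

end Pool.Agent.Q192.PK
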