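import Pool.Agent.Q192.PK.Stm

/-!
# Project PK: basic facts on cocycles
-/

set_option autoImplicit false
set_option linter.unusedSectionVars false

open Filter Topology Set Metric
open scoped Pointwise

namespace Pool.Agent.Q192.PK

universe u v

section basic

variable {X : Type u} {E : Type v} [NormedAddCommGroup E] [InnerProductSpace ℝ E] (C : Coc X E)

theorem it_zero (x : X) : C.it 0 x = LinearMap.id := rfl

theorem it_succ (n : ℕ) (x : X) : C.it (n + 1) x = C.D (C.g^[n] x) ∘ₗ C.it n x := rfl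

theorem it_add (m n : ℕ) (x : X) : C.it (m + n) x = C.it m (C.g^[n] x) ∘ₗ C.it n x := by
  induction m with
  | zero => rw [Nat.zero_add, it_zero, LinearMap.id_comp]
  | succ m ih =>
    have e : m + 1 + n = (m + n) + 1 := by omega
    rw [e, it_succ, it_succ, ih, ← LinearMap.comp_assoc, ← Function.iterate_add_apply]

theorem bs_zero (x : X) : C.bs 0 x = 0 := by simp [Coc.bs]

theorem bs_add (m n : ℕ) (x : X) : C.bs (m + n) x = C.bs m (C.g^[n] x) + C.bs n x := by
  unfold Coc.bs
  rw [Nat.add_comm m n, Finset.sum_range_add, add_comm]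
  congr 1
  refine Finset.sum_congr rfl fun i _ => ?_
  rw [← Function.iterate_add_apply, Nat.add_comm]

theorem bs_abs (n : ℕ) (x : X) : |C.bs n x| ≤ n * C.B := by
  refine (Finset.abs_sum_le_sum_abs _ _).trans ?_
  refine (Finset.sum_le_card_nsmul _ _ C.B fun i _ => C.hφ _).trans ?_
  simp

theorem it_mem (n : ℕ) (x : X) {v : E} (hv : v ∈ C.V x) : C.it n x v ∈ C.V (C.g^[n] x) := by
  induction n with
  | zero => exact hv
  | succ n ih =>
    rw [it_succ, LinearMap.comp_apply, Function.iterate_succ_apply']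
    exact C.map _ _ ih

theorem it_lo (n : ℕ) (x : X) {v : E} (hv : v ∈ C.V x) : ‖v‖ ≤ C.L ^ n * ‖C.it n x v‖ := by
  have hL := C.one_le_L
  induction n with
  | zero => simp [it_zero]
  | succ n ih =>
    rw [it_succ, LinearMap.comp_apply, pow_succ, mul_assoc]
    refine ih.trans (mul_le_mul_of_nonneg_left ?_ (by positivity))
    exact C.lo _ _ (it_mem C n x hv)

theorem it_ne (n : ℕ) (x : X) {v : E} (hv : v ∈ C.V x) (h0 : v ≠ 0) : C.it n x v ≠ 0 := by
  intro h
  have := it_lo C n x hv
  rw [h, norm_zero, mul_zero] at this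
  exact h0 (norm_le_zero_iff.1 this)

theorem map_le (n : ℕ) (x : X) {U : Submodule ℝ E} (hU : U ≤ C.V x) :
    U.map (C.it n x) ≤ C.V (C.g^[n] x) := by
  rintro _ ⟨v, hv, rfl⟩
  exact it_mem C n x (hU hv)

theorem map_add (m n : ℕ) (x : X) (U : Submodule ℝ E) :
    U.map (C.it (m + n) x) = (U.map (C.it n x)).map (C.it m (C.g^[n] x)) := by
  rw [it_add, Submodule.map_comp]

theorem map_finrank (n : ℕ) (x : X) {U : Submodule ℝ E} (hU : U ≤ C.V x) :
    Module.finrank ℝ (U.map (C.it n x)) = Module.finrank ℝ U := by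
  have hinj : Function.Injective ((C.it n x).domRestrict U) := by
    rw [← LinearMap.ker_eq_bot, LinearMap.ker_eq_bot']
    rintro ⟨v, hv⟩ h
    by_contra h0
    exact it_ne C n x (hU hv) (fun h' => h0 (Subtype.ext h')) h
  have e : U.map (C.it n x) = LinearMap.range ((C.it n x).domRestrict U) := by
    rw [LinearMap.range_domRestrict]
  rw [e]
  exact LinearMap.finrank_range_of_inj hinj

variable [FiniteDimensional ℝ E]

theorem jac_nonneg (T : E →ₗ[ℝ] E) (U : Submodule ℝ E) : 0 ≤ jac T U := LinearMap.normDet_nonneg _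

theorem jac_it_ge (h1 : SK1.{v}) (n : ℕ) (x : X) {U : Submodule ℝ E} (hU : U ≤ C.V x) :
    (C.L ^ n)⁻¹ ^ Module.finrank ℝ U ≤ jac (C.it n x) U := by
  have hL := C.one_le_L
  refine (h1 E).2.2.1 _ _ _ (by positivity) fun v hv => ?_
  have := it_lo C n x (hU hv)
  rw [inv_mul_le_iff₀ (by positivity)]
  exact this

theorem jac_it_pos (h1 : SK1.{v}) (n : ℕ) (x : X) {U : Submodule ℝ E} (hU : U ≤ C.V x) :
    0 < jac (C.it n x) U := by
  have hL := C.one_le_L
  exact lt_of_lt_of_le (by positivity) (jac_it_ge C h1 n x hU)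

theorem jac_it_add (h1 : SK1.{v}) (m n : ℕ) (x : X) (U : Submodule ℝ E) :
    jac (C.it (m + n) x) U =
      jac (C.it m (C.g^[n] x)) (U.map (C.it n x)) * jac (C.it n x) U := by
  rw [it_add, (h1 E).1]

/-- Distances to subspaces and scaling. -/
theorem infDist_smul_sub (W : Submodule ℝ E) (y : E) {a : ℝ} (ha : 0 < a) :
    infDist (a • y) (W : Set E) = a * infDist y (W : Set E) := by
  have e : (W : Set E) = a • (W : Set E) := by
    ext z
    rw [Set.mem_smul_set]
    constructor
    · intro hz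
      exact ⟨a⁻¹ • z, W.smul_mem _ hz, by rw [smul_smul, mul_inv_cancel₀ ha.ne', one_smul]⟩
    · rintro ⟨t, ht, rfl⟩
      exact W.smul_mem _ ht
  conv_lhs => rw [e]
  rw [infDist_smul₀ ha.ne', Real.norm_of_nonneg ha.le]

end basic

section blocks

variable {X : Type u} {E : Type v} [NormedAddCommGroup E] [InnerProductSpace ℝ E]
  [FiniteDimensional ℝ E] (C : Coc X E)

/-- The defect of the `k`-th block. -/
noncomputable def bet (N d : ℕ) (s : ℝ) (x : X) (U : Submodule ℝ E) (k : ℕ) : ℝ :=
  d * (s * N + C.bs N (C.g^[N * k] x)) -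
    Real.log (jac (C.it N (C.g^[N * k] x)) (U.map (C.it (N * k) x)))

theorem bet_shift (N d : ℕ) (s : ℝ) (x : X) (U : Submodule ℝ E) (i k : ℕ) :
    bet C N d s x U (i + k) =
      bet C N d s (C.g^[N * i] x) (U.map (C.it (N * i) x)) k := by
  unfold bet
  have e : N * (i + k) = N * k + N * i := by ring
  rw [e, Function.iterate_add_apply, map_add]

theorem bet_sum (h1 : SK1.{v}) (N d : ℕ) (s : ℝ) (x : X) {U : Submodule ℝ E} (hU : U ≤ C.V x)
    (q : ℕ) : ∑ k ∈ Finset.range q, bet C N d s x U k =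
      d * (s * (N * q) + C.bs (N * q) x) - Real.log (jac (C.it (N * q) x) U) := by
  induction q with
  | zero =>
    have h := (h1 E).2.1 LinearMap.id U 1 zero_le_one (fun v _ => by simp)
    have h' := (h1 E).2.2.1 LinearMap.id U 1 zero_le_one (fun v _ => by simp)
    rw [one_pow] at h h'
    have e : jac (LinearMap.id : E →ₗ[ℝ] E) U = 1 := le_antisymm h h'
    simp [it_zero, bs_zero, e]
  | succ q ih =>
    rw [Finset.sum_range_succ, ih]
    have e : N * (q + 1) = N + N * q := by ring
    unfold bet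
    rw [e, bs_add, jac_it_add C h1, Real.log_mul
      (jac_it_pos C h1 N _ (map_le C (N * q) x hU)).ne' (jac_it_pos C h1 (N * q) x hU).ne']
    push_cast
    ring

end blocks

end Pool.Agent.Q192.PK
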