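import Pool.Agent.Q192.PK.Stm2
import Pool.Agent.Q192.PK.K9a

/-!
# Project PK, K12: one exponent at each periodic point implies subexponential distortion
-/

set_option autoImplicit false
set_option linter.unusedSectionVars false

open Filter Topology Set Metric

namespace Pool.Agent.Q192.PK

open Pool.Agent.H721R2 Pool.Agent.H779R2.An Pool.Agent.Y321.PD

universe u v

section coc

variable {X : Type u} {E : Type v} [MetricSpace X] [NormedAddCommGroup E] [InnerProductSpace ℝ E]

theorem hyp_lo (S : HypSys X E) (x : X) {v : E} (hv : v ∈ S.Vu x) : ‖v‖ ≤ 1 / 16 * ‖S.D x v‖ := by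
  have hb : S.b ≤ 1 / 16 := by
    have h1 := S.Kb
    have h2 := S.one_le_K
    have h3 := S.b_nonneg
    nlinarith
  have h1 := S.contrU (S.g x) _ (S.mapU x v hv)
  rw [S.invU x v hv] at h1
  exact h1.trans (mul_le_mul_of_nonneg_right hb (norm_nonneg _))

variable [FiniteDimensional ℝ E]

theorem phi_bdd (h1 : SK1.{v}) (S : HypSys X E) (D : ℕ) (hD : 1 ≤ D)
    (hfin : ∀ x, Module.finrank ℝ (S.Vu x) = D) (x : X) : |phi S D x| ≤ Real.log S.Lu := by
  have hL := S.one_le_Lu
  have hD0 : (0 : ℝ) < D := by exact_mod_cast hD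
  have e1 := (h1 E).2.1 (S.D x) (S.Vu x) S.Lu (by linarith) (S.boundU x)
  have e2 := (h1 E).2.2.1 (S.D x) (S.Vu x) 1 zero_le_one (fun v hv => by
    have := hyp_lo S x hv
    have := norm_nonneg (S.D x v)
    linarith)
  rw [hfin] at e1 e2
  rw [one_pow] at e2
  have h2 : 0 ≤ Real.log (jac (S.D x) (S.Vu x)) := Real.log_nonneg e2
  have h3 : Real.log (jac (S.D x) (S.Vu x)) ≤ D * Real.log S.Lu := by
    have := Real.log_le_log (by linarith) e1
    rwa [Real.log_pow] at this
  unfold phi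
  rw [abs_of_nonneg (by positivity), one_div, inv_mul_le_iff₀ hD0]
  exact h3

/-- The cocycle of a hyperbolic system on the unstable spaces. -/
noncomputable def hcoc (h1 : SK1.{v}) (S : HypSys X E) (D : ℕ) (hD : 1 ≤ D)
    (hfin : ∀ x, Module.finrank ℝ (S.Vu x) = D) : Coc X E where
  g := S.g
  V := S.Vu
  D := S.D
  φ := phi S D
  L := S.Lu
  B := Real.log S.Lu
  one_le_L := S.one_le_Lu
  map := S.mapU
  up := S.boundU
  lo := by
    intro x v hv
    have h := hyp_lo S x hv
    have h2 := S.one_le_Lu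
    have h3 := norm_nonneg (S.D x v)
    nlinarith
  hφ := phi_bdd h1 S D hD hfin

variable (h1 : SK1.{v}) (S : HypSys X E) (D : ℕ) (hD : 1 ≤ D)
    (hfin : ∀ x, Module.finrank ℝ (S.Vu x) = D)

theorem hcoc_it (n : ℕ) (x : X) : (hcoc h1 S D hD hfin).it n x = Dn S n x := by
  induction n with
  | zero => rfl
  | succ n ih =>
    show (hcoc h1 S D hD hfin).D _ ∘ₗ (hcoc h1 S D hD hfin).it n x = _ ∘ₗ _
    rw [ih]
    rfl

include h1 hD hfin in
theorem jac_Dn_pos (n : ℕ) (x : X) : 0 < jac (Dn S n x) (S.Vu x) := by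
  rw [← hcoc_it h1 S D hD hfin]
  exact jac_it_pos (hcoc h1 S D hD hfin) h1 n x le_rfl

include h1 hD hfin in
theorem Vu_map (n : ℕ) (x : X) : (S.Vu x).map (Dn S n x) = S.Vu (S.g^[n] x) := by
  rw [← hcoc_it h1 S D hD hfin]
  refine Submodule.eq_of_le_of_finrank_eq ?_ ?_
  · exact map_le (hcoc h1 S D hD hfin) n x le_rfl
  · have := map_finrank (hcoc h1 S D hD hfin) n x (U := S.Vu x) le_rfl
    rw [this, hfin, hfin]

/-- The Birkhoff sums of the potential are the logarithms of the volume factors. -/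
theorem hcoc_bs (n : ℕ) (x : X) :
    D * (hcoc h1 S D hD hfin).bs n x = Real.log (jac (Dn S n x) (S.Vu x)) := by
  have hD0 : (D : ℝ) ≠ 0 := by
    have : (0 : ℝ) < D := by exact_mod_cast hD
    exact this.ne'
  induction n with
  | zero =>
    have h := (h1 E).2.1 LinearMap.id (S.Vu x) 1 zero_le_one (fun v _ => by simp)
    have h' := (h1 E).2.2.1 LinearMap.id (S.Vu x) 1 zero_le_one (fun v _ => by simp)
    rw [one_pow] at h h'
    have e : jac (LinearMap.id : E →ₗ[ℝ] E) (S.Vu x) = 1 := le_antisymm h h'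
    have e2 : Dn S 0 x = LinearMap.id := rfl
    rw [bs_zero, e2, e]
    simp
  | succ n ih =>
    have e : n + 1 = 1 + n := by omega
    have e1 : (hcoc h1 S D hD hfin).bs (n + 1) x =
        phi S D (S.g^[n] x) + (hcoc h1 S D hD hfin).bs n x := by
      rw [e, bs_add]
      congr 1
      simp [Coc.bs]
      rfl
    have e2 : Dn S (n + 1) x = S.D (S.g^[n] x) ∘ₗ Dn S n x := rfl
    have p1 : 0 < jac (S.D (S.g^[n] x)) (S.Vu (S.g^[n] x)) := by
      have := jac_Dn_pos h1 S D hD hfin 1 (S.g^[n] x)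
      have e3 : Dn S 1 (S.g^[n] x) = S.D (S.g^[n] x) := by
        show S.D _ ∘ₗ LinearMap.id = _
        rw [LinearMap.comp_id]
        rfl
      rwa [e3] at this
    have p2 := jac_Dn_pos h1 S D hD hfin n x
    rw [e1, e2, (h1 E).1, Vu_map h1 S D hD hfin, Real.log_mul p1.ne' p2.ne', mul_add, ih]
    unfold phi
    rw [one_div, mul_inv_cancel_left₀ hD0]

end coc

/-- K12. -/
theorem sK12 (h1 : SK1.{v}) (h2 : SK2.{v}) (h9 : SK9.{u, v}) (h10 : SK10.{u, v})
    (h11 : SK11.{u, v}) : SK12.{u, v} := by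
  intro X _ _ E _ _ _ S Q r D hQ hfin hper κ hκ
  rcases isEmpty_or_nonempty X with hX | hX
  · exact ⟨0, fun n x => (hX.false x).elim⟩
  rcases Nat.eq_zero_or_pos D with hD | hD
  · refine ⟨0, fun n x v hv w hw => ?_⟩
    have h1 : S.Vu x = ⊥ := by
      have := hfin x
      rw [hD] at this
      exact Submodule.finrank_eq_zero.mp this
    rw [h1, Submodule.mem_bot] at hv
    rw [hv, map_zero, norm_zero]
    simp
  obtain ⟨C₀, c₁, hC₀, hc₁, hcl⟩ := h10 X E S Q r hQ
  obtain ⟨C₂, hC₂⟩ := h11 X E S C₀ D hC₀ hD hfin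
  let C : Coc X E := hcoc h1 S D hD hfin
  have hD0 : (0 : ℝ) < D := by exact_mod_cast hD
  have hit : ∀ n x, C.it n x = Dn S n x := hcoc_it h1 S D hD hfin
  have hbs : ∀ (n : ℕ) (x : X), Real.exp (C.bs n x) ^ D = jac (Dn S n x) (S.Vu x) := by
    intro n x
    rw [← Real.exp_nat_mul, hcoc_bs h1 S D hD hfin, Real.exp_log (jac_Dn_pos h1 S D hD hfin n x)]
  have hclo : Clos C C₀ C₂ (min c₁ (1 / 4)) := by
    intro c hc hcc
    obtain ⟨ε, hε, h⟩ := hcl c hc (hcc.trans (min_le_left _ _))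
    refine ⟨ε, hε, fun x n hn hx => ?_⟩
    obtain ⟨p, hp, J, hJ⟩ := h x n hn hx
    exact ⟨p, hp, hC₂ c n x p J hc (hcc.trans (min_le_right _ _)) hJ, J, hJ⟩
  obtain ⟨lam, hup, hlow⟩ := h9 X E C D C₀ C₂ (min c₁ (1 / 4)) hD hfin hC₀
    (lt_min hc₁ (by norm_num)) hclo
  -- the rate is at most 0
  have hlam : lam ≤ 0 := by
    by_contra hcon
    push Not at hcon
    obtain ⟨p, n, hn, hp, w, hw, hw0, a, ha, h3⟩ := hlow (lam / 2) (by linarith)
    obtain ⟨A, hA⟩ := hper p n hn hp (Real.exp (lam / 4)) (Real.one_lt_exp_iff.2 (by linarith))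
    have hwn : 0 < ‖w‖ := norm_pos_iff.mpr hw0
    -- the upper bound at the periodic point
    have h4 : ∀ q : ℕ, ‖Dn S (n * q) p w‖ ≤
        |A| * Real.exp (lam / 4) ^ (n * q) * Real.exp (C.bs (n * q) p) * ‖w‖ := by
      intro q
      set T := Dn S (n * q) p with hT
      set K := |A| * Real.exp (lam / 4) ^ (n * q) with hK
      have hKA : QA S (n * q) p K := (hA q).mono
        (mul_le_mul_of_nonneg_right (le_abs_self _) (by positivity))
      have hTw : 0 < ‖T w‖ := Dn_pos (n * q) hw hw0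
      have hK0 : 0 < K := by
        have := hKA w hw w hw
        have h5 : 0 < ‖T w‖ * ‖w‖ := by positivity
        by_contra hneg
        push Not at hneg
        nlinarith
      have h5 : ∀ v ∈ S.Vu p, ‖T w‖ / (K * ‖w‖) * ‖v‖ ≤ ‖T v‖ := by
        intro v hv
        have := hKA w hw v hv
        rw [div_mul_eq_mul_div, div_le_iff₀ (by positivity)]
        calc ‖T w‖ * ‖v‖ ≤ K * (‖T v‖ * ‖w‖) := this
          _ = _ := by ring
      have h6 := (h1 E).2.2.1 T (S.Vu p) (‖T w‖ / (K * ‖w‖)) (by positivity) h5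
      rw [hfin, ← hbs] at h6
      have h7 : ‖T w‖ / (K * ‖w‖) ≤ Real.exp (C.bs (n * q) p) :=
        le_of_pow_le_pow_left₀ (by omega) (Real.exp_pos _).le h6
      rw [div_le_iff₀ (by positivity)] at h7
      calc ‖T w‖ ≤ Real.exp (C.bs (n * q) p) * (K * ‖w‖) := h7
        _ = _ := by ring
    have h5 : ∀ q : ℕ, a * (lam / 4 * q) ≤ |A| := by
      intro q
      have h6 := h3 q
      rw [hit] at h6
      replace h6 := h6.trans (h4 q)
      have e1 : Real.exp (lam / 2 * (n * q) + C.bs (n * q) p) =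
          Real.exp (lam / 4 * (n * q)) * (Real.exp (lam / 4) ^ (n * q) *
            Real.exp (C.bs (n * q) p)) := by
        rw [← Real.exp_nat_mul, ← Real.exp_add, ← Real.exp_add]
        congr 1
        push_cast
        ring
      rw [e1] at h6
      set Z := Real.exp (lam / 4) ^ (n * q) * Real.exp (C.bs (n * q) p) * ‖w‖ with hZ
      have hZ0 : 0 < Z := by positivity
      have h7 : a * Real.exp (lam / 4 * (n * q)) * Z ≤ |A| * Z := by
        rw [hZ]
        calc _ = a * (Real.exp (lam / 4 * (n * q)) * (Real.exp (lam / 4) ^ (n * q) *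
            Real.exp (C.bs (n * q) p))) * ‖w‖ := by ring
          _ ≤ |A| * Real.exp (lam / 4) ^ (n * q) * Real.exp (C.bs (n * q) p) * ‖w‖ := h6
          _ = _ := by ring
      have h8 : a * Real.exp (lam / 4 * (n * q)) ≤ |A| := le_of_mul_le_mul_right h7 hZ0
      refine le_trans (mul_le_mul_of_nonneg_left ?_ ha.le) h8
      have h9' : lam / 4 * (n * q) + 1 ≤ Real.exp (lam / 4 * (n * q)) := Real.add_one_le_exp _
      have h10' : (q : ℝ) ≤ n * q := by
        have : (1 : ℝ) ≤ n := by exact_mod_cast hn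
        have h0 : (0 : ℝ) ≤ q := Nat.cast_nonneg q
        nlinarith
      have h11' : lam / 4 * q ≤ lam / 4 * (n * q) :=
        mul_le_mul_of_nonneg_left h10' (by linarith)
      linarith
    obtain ⟨q, hq⟩ := exists_nat_gt (|A| / (a * (lam / 4)))
    have h6 := h5 q
    rw [div_lt_iff₀ (by positivity)] at hq
    nlinarith
  -- the distortion
  have hκ0 : 0 < Real.log κ := Real.log_pos hκ
  obtain ⟨A, hA⟩ := hup (Real.log κ / D - lam) (by
    have : 0 < Real.log κ / D := by positivity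
    linarith)
  refine ⟨max A 1 ^ D, fun n x v hv w hw => ?_⟩
  set A' := max A 1 with hA'
  have hA'1 : 1 ≤ A' := le_max_right _ _
  set e := Real.exp (Real.log κ / D * n) with he
  have he0 : 0 < e := Real.exp_pos _
  set z := Real.exp (C.bs n x) with hz
  have hz0 : 0 < z := Real.exp_pos _
  have heD : e ^ D = κ ^ n := by
    rw [he, ← Real.exp_nat_mul]
    have : (D : ℝ) * (Real.log κ / D * n) = n * Real.log κ := by
      field_simp
    rw [this, Real.exp_nat_mul, Real.exp_log (by linarith)]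
  have hb : ∀ v ∈ S.Vu x, ‖Dn S n x v‖ ≤ (A' * e * z) * ‖v‖ := by
    intro v hv
    have h3 := hA n x v hv
    rw [hit] at h3
    refine h3.trans (mul_le_mul_of_nonneg_right ?_ (norm_nonneg _))
    have e1 : (lam + (Real.log κ / D - lam)) * n + C.bs n x =
        Real.log κ / D * n + C.bs n x := by ring
    rw [e1, Real.exp_add, ← he, ← hz, mul_assoc]
    exact mul_le_mul_of_nonneg_right (le_max_left _ _) (by positivity)
  have h3 := (h2 E).2 (Dn S n x) (S.Vu x) (A' * e * z) (by positivity) hb w hw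
  rw [hfin, ← hbs, ← hz] at h3
  have h4 := hb v hv
  obtain ⟨m, rfl⟩ : ∃ m, D = m + 1 := ⟨D - 1, by omega⟩
  rw [Nat.add_sub_cancel] at h3
  -- combine
  have h5 : z ^ (m + 1) * (‖Dn S n x v‖ * ‖w‖) ≤
      z ^ (m + 1) * (A' ^ (m + 1) * κ ^ n * (‖Dn S n x w‖ * ‖v‖)) := by
    calc z ^ (m + 1) * (‖Dn S n x v‖ * ‖w‖) = ‖Dn S n x v‖ * (z ^ (m + 1) * ‖w‖) := by ring
      _ ≤ (A' * e * z * ‖v‖) * ((A' * e * z) ^ m * ‖Dn S n x w‖) :=
        mul_le_mul h4 h3 (by positivity) (by positivity)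
      _ = z ^ (m + 1) * (A' ^ (m + 1) * e ^ (m + 1) * (‖Dn S n x w‖ * ‖v‖)) := by ring
      _ = _ := by rw [heD]
  exact le_of_mul_le_mul_left h5 (by positivity)

end Pool.Agent.Q192.PK
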