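import Pool.Agent.Q192.PK.Stm2

/-!
# Project PK, lemma K13: the upper rate from the periodic points (helper151)
-/

set_option autoImplicit false
set_option linter.unusedSectionVars false

open Filter Topology Set Metric

namespace Pool.Agent.Q192.PK

open Pool.Agent.H721R2 Pool.Agent.H779R2.An Pool.Agent.Y321.PD

universe u v

namespace K13

/-- the conclusion from the rate of K9 -/
theorem core {X : Type u} [MetricSpace X] [CompactSpace X] [Nonempty X] {E : Type v}
    [NormedAddCommGroup E] [InnerProductSpace ℝ E] [FiniteDimensional ℝ E] (h9 : SK9.{u, v})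
    (C : Coc X E) (hφ : ∀ x, C.φ x = 0) (r : ℕ) (C₀ c₁ : ℝ) (hr : 1 ≤ r)
    (hfin : ∀ x, Module.finrank ℝ (C.V x) = r) (hC₀ : 0 ≤ C₀) (hc₁ : 0 < c₁)
    (hclo : Clos C C₀ 0 c₁) (l : ℝ) (hl : 0 < l)
    (hper : ∀ (p : X) (n : ℕ), 1 ≤ n → C.g^[n] p = p → ∀ w ∈ C.V p, ∃ A : ℝ, ∀ q : ℕ,
      ‖C.it (n * q) p w‖ ≤ A * l ^ (n * q)) (l' : ℝ) (hll' : l < l') :
    ∃ A : ℝ, ∀ (n : ℕ) (x : X), ∀ v ∈ C.V x, ‖C.it n x v‖ ≤ A * l' ^ n * ‖v‖ := by
  have hbs : ∀ (n : ℕ) (x : X), C.bs n x = 0 := by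
    intro n x
    unfold Coc.bs
    exact Finset.sum_eq_zero fun i _ => hφ _
  obtain ⟨lam, h1, h2⟩ := h9 X E C r C₀ 0 c₁ hr hfin hC₀ hc₁ hclo
  have hlam : lam ≤ Real.log l := by
    by_contra hcon
    push Not at hcon
    obtain ⟨p, n, hn, hp, w, hw, hw0, a, ha, h3⟩ := h2 ((lam + Real.log l) / 2) (by linarith)
    obtain ⟨A, hA⟩ := hper p n hn hp w hw
    obtain ⟨δ, hδ⟩ : ∃ δ, δ = (lam - Real.log l) / 2 := ⟨_, rfl⟩
    have hδ0 : 0 < δ := by rw [hδ]; linarith
    have hwn : 0 < ‖w‖ := norm_pos_iff.mpr hw0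
    have h4 : ∀ q : ℕ, a * ‖w‖ * (δ * q) ≤ A := by
      intro q
      have h5 := (h3 q).trans (hA q)
      rw [hbs, add_zero] at h5
      have e1 : l ^ (n * q) = Real.exp (Real.log l * (n * q)) := by
        rw [mul_comm (Real.log l), ← Real.log_rpow hl, Real.exp_log (Real.rpow_pos_of_pos hl _)]
        rw [← Real.rpow_natCast]
        push_cast
        rfl
      rw [e1] at h5
      have e2 : Real.exp ((lam + Real.log l) / 2 * (n * q)) =
          Real.exp (δ * (n * q)) * Real.exp (Real.log l * (n * q)) := by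
        rw [← Real.exp_add]
        congr 1
        rw [hδ]
        ring
      rw [e2] at h5
      have h6 : 0 < Real.exp (Real.log l * (n * q)) := Real.exp_pos _
      have h7 : a * ‖w‖ * Real.exp (δ * (n * q)) ≤ A := by
        have h8 : (a * ‖w‖ * Real.exp (δ * (n * q))) * Real.exp (Real.log l * (n * q)) ≤
            A * Real.exp (Real.log l * (n * q)) := by
          calc _ = a * (Real.exp (δ * (n * q)) * Real.exp (Real.log l * (n * q))) * ‖w‖ := by ring
            _ ≤ _ := h5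
        exact le_of_mul_le_mul_right h8 h6
      refine le_trans ?_ h7
      refine mul_le_mul_of_nonneg_left ?_ (by positivity)
      have h9' : δ * (n * q) + 1 ≤ Real.exp (δ * (n * q)) := Real.add_one_le_exp _
      have h10 : (q : ℝ) ≤ n * q := by
        have : (1 : ℝ) ≤ n := by exact_mod_cast hn
        have h0 : (0 : ℝ) ≤ q := Nat.cast_nonneg q
        nlinarith
      have h11 : δ * q ≤ δ * (n * q) := mul_le_mul_of_nonneg_left h10 hδ0.le
      linarith
    obtain ⟨q, hq⟩ := exists_nat_gt (A / (a * ‖w‖ * δ))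
    have h5 := h4 q
    rw [div_lt_iff₀ (by positivity)] at hq
    nlinarith
  have hl' : 0 < l' := hl.trans hll'
  have hlog : Real.log l < Real.log l' := Real.log_lt_log hl hll'
  obtain ⟨A, hA⟩ := h1 (Real.log l' - lam) (by linarith)
  refine ⟨A, fun n x v hv => ?_⟩
  have h3 := hA n x v hv
  rw [hbs, add_zero, add_sub_cancel] at h3
  have e1 : l' ^ n = Real.exp (Real.log l' * n) := by
    rw [mul_comm, Real.exp_nat_mul, Real.exp_log hl']
  rw [e1]
  exact h3

end K13

theorem sK13 (h9 : SK9.{u, v}) (h10 : SK10.{u, v}) : SK13.{u, v} := by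
  intro X _ _ E _ _ _ S Q r D hQ hfin l hl hper l' hll'
  rcases isEmpty_or_nonempty X with hX | hX
  · exact ⟨0, fun n x => (hX.false x).elim⟩
  rcases Nat.eq_zero_or_pos D with hD | hD
  · refine ⟨0, fun n x v hv => ?_⟩
    have h1 : S.Vu x = ⊥ := by
      have := hfin x
      rw [hD] at this
      exact Submodule.finrank_eq_zero.mp this
    rw [h1, Submodule.mem_bot] at hv
    rw [hv, map_zero, norm_zero]
    simp
  have hb : S.b ≤ 1 := by
    have h1 := S.Kb
    have h2 := S.one_le_K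
    have h3 := S.b_nonneg
    nlinarith
  let C : Coc X E :=
    { g := S.g
      V := S.Vu
      D := S.D
      φ := fun _ => 0
      L := S.Lu
      B := 0
      one_le_L := S.one_le_Lu
      map := S.mapU
      up := S.boundU
      lo := by
        intro x v hv
        have h1 := S.contrU (S.g x) _ (S.mapU x v hv)
        rw [S.invU x v hv] at h1
        refine h1.trans (mul_le_mul_of_nonneg_right ?_ (norm_nonneg _))
        exact hb.trans S.one_le_Lu
      hφ := by
        intro x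
        simp }
  have hit : ∀ (n : ℕ) (x : X), C.it n x = Dn S n x := by
    intro n x
    induction n with
    | zero => rfl
    | succ n ih =>
      show C.D (C.g^[n] x) ∘ₗ C.it n x = (S.D (S.g^[n] x)).comp (Dn S n x)
      rw [ih]
  obtain ⟨C₀, c₁, hC₀, hc₁, hcl⟩ := h10 X E S Q r hQ
  have hclo : Clos C C₀ 0 c₁ := by
    intro c hc hcc
    obtain ⟨ε, hε, h1⟩ := hcl c hc hcc
    refine ⟨ε, hε, fun x n hn hx => ?_⟩
    obtain ⟨p, hp, J, hJ⟩ := h1 x n hn hx
    refine ⟨p, hp, ?_, J, hJ⟩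
    have : ∀ y, C.bs n y = 0 := fun y => Finset.sum_eq_zero fun i _ => rfl
    rw [this, this, add_zero]
  obtain ⟨A, hA⟩ := K13.core h9 C (fun _ => rfl) D C₀ c₁ hD hfin hC₀ hc₁ hclo l hl (by
    intro p n hn hp w hw
    obtain ⟨A, hA⟩ := hper p n hn hp w hw
    exact ⟨A, fun q => by rw [hit]; exact hA q⟩) l' hll'
  exact ⟨A, fun n x v hv => by rw [← hit]; exact hA n x v hv⟩

end Pool.Agent.Q192.PK
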