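import Pool.Agent.Q192.PK.K13

/-!
# Project PK, lemma K14: the lower rate from the periodic points (helper151)
-/

set_option autoImplicit false
set_option linter.unusedSectionVars false

open Filter Topology Set Metric

namespace Pool.Agent.Q192.PK

open Pool.Agent.H721R2 Pool.Agent.H779R2.An Pool.Agent.Y321.PD

universe u v

theorem sK14 (h9 : SK9.{u, v}) (h10 : SK10.{u, v}) : SK14.{u, v} := by
  intro X _ _ E _ _ _ S Q r D hQ hfin l hl hper l' hll'
  rcases isEmpty_or_nonempty X with hX | hX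
  · exact ⟨0, fun n x => (hX.false x).elim⟩
  rcases Nat.eq_zero_or_pos D with hD | hD
  · refine ⟨0, fun n x v hv => ?_⟩
    have h1 : S.Vu x = ⊥ := by
      have := hfin x
      rw [hD] at this
      exact Submodule.finrank_eq_zero.mp this
    rw [h1, Submodule.mem_bot] at hv
    rw [hv, map_zero, norm_zero]
    simp
  have hb0 := S.b_nonneg
  have hb : S.b ≤ 1 / 16 := by
    have h1 := S.Kb
    have h2 := S.one_le_K
    nlinarith
  have hLu := S.one_le_Lu
  let C : Coc X E :=
    { g := S.g.symm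
      V := S.Vu
      D := S.D'
      φ := fun _ => 0
      L := S.Lu
      B := 0
      one_le_L := S.one_le_Lu
      map := S.mapU'
      up := by
        intro x v hv
        refine (S.contrU x v hv).trans (mul_le_mul_of_nonneg_right ?_ (norm_nonneg _))
        linarith
      lo := by
        intro x v hv
        have h1 := S.boundU (S.g.symm x) _ (S.mapU' x v hv)
        rwa [S.invU' x v hv] at h1
      hφ := by
        intro x
        simp }
  have hit : ∀ (n : ℕ) (x : X), C.it n x = Dn S.symm n x := by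
    intro n x
    induction n with
    | zero => rfl
    | succ n ih =>
      show C.D (C.g^[n] x) ∘ₗ C.it n x = (S.symm.D (S.symm.g^[n] x)).comp (Dn S.symm n x)
      rw [ih]
      rfl
  obtain ⟨C₀, c₁, hC₀, hc₁, hcl⟩ := h10 X E S Q r hQ
  have hback : ∀ (y : X) (n k : ℕ), k ≤ n → S.g.symm^[k] y = S.g^[n - k] (S.g.symm^[n] y) := by
    intro y n k hk
    obtain ⟨j, rfl⟩ : ∃ j, n = k + j := ⟨n - k, by omega⟩
    have e1 : k + j - k = j := by omega
    rw [e1, Nat.add_comm k j, Function.iterate_add_apply]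
    have h1 : ∀ z : X, S.g^[j] (S.g.symm^[j] z) = z := by
      intro z
      exact (Function.LeftInverse.iterate (fun w => S.g.apply_symm_apply w) j) z
    rw [h1]
  have hclo : Clos C C₀ 0 c₁ := by
    intro c hc hcc
    obtain ⟨ε, hε, h1⟩ := hcl c hc hcc
    refine ⟨ε, hε, fun x n hn hx => ?_⟩
    have hx' : dist (S.g.symm^[n] x) x ≤ ε := hx
    have hgn : S.g^[n] (S.g.symm^[n] x) = x := by
      have := hback x n 0 (Nat.zero_le _)
      rw [Nat.sub_zero] at this
      exact this.symm
    obtain ⟨p, hp, J', hJ1, hJ2⟩ := h1 (S.g.symm^[n] x) n hn (by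
      rw [hgn, dist_comm]
      exact hx')
    have hp' : S.g.symm^[n] p = p := by
      have h2 : S.g.symm^[n] (S.g^[n] p) = p :=
        (Function.LeftInverse.iterate (fun w => S.g.symm_apply_apply w) n) p
      rwa [hp] at h2
    have hpk : ∀ k ≤ n, S.g.symm^[k] p = S.g^[n - k] p := by
      intro k hk
      have := hback p n k hk
      rwa [hp'] at this
    refine ⟨p, hp', ?_, fun k => J' (n - k), ?_, ?_⟩
    · have : ∀ y, C.bs n y = 0 := fun y => Finset.sum_eq_zero fun i _ => rfl
      rw [this, this, add_zero]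
    · intro k hk w hw
      have hw' : w ∈ S.Vu (S.g.symm^[k] p) := hw
      rw [hpk k hk] at hw'
      have h2 := hJ1 (n - k) (by omega) w hw'
      refine ⟨?_, h2.2⟩
      show J' (n - k) w ∈ S.Vu (S.g.symm^[k] x)
      rw [hback x n k hk]
      exact h2.1
    · intro k hk w hw
      have hw' : w ∈ S.Vu (S.g.symm^[k] p) := hw
      obtain ⟨j, hj⟩ : ∃ j, j = n - (k + 1) := ⟨_, rfl⟩
      have hjk : n - k = j + 1 := by omega
      rw [hpk k hk.le, hjk, Function.iterate_succ_apply'] at hw'
      -- `w' = D' w`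
      obtain ⟨w', hw'def⟩ : ∃ w', w' = S.D' (S.g (S.g^[j] p)) w := ⟨_, rfl⟩
      have hw'm : w' ∈ S.Vu (S.g^[j] p) := by
        have := S.mapU' _ w hw'
        rw [S.g.symm_apply_apply] at this
        rw [hw'def]
        exact this
      have hDw' : S.D (S.g^[j] p) w' = w := by
        have := S.invU' _ w hw'
        rw [S.g.symm_apply_apply] at this
        rw [hw'def]
        exact this
      have hw'n : ‖w'‖ ≤ 1 / 16 * ‖w‖ := by
        rw [hw'def]
        exact (S.contrU _ w hw').trans (mul_le_mul_of_nonneg_right hb (norm_nonneg _))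
      obtain ⟨y, hy⟩ : ∃ y, y = S.g^[j] (S.g.symm^[n] x) := ⟨_, rfl⟩
      have h2 := hJ2 j (by omega) w' hw'm
      rw [hDw', ← hy] at h2
      have h3 : J' j w' ∈ S.Vu y := by
        rw [hy]
        exact (hJ1 j (by omega) w' hw'm).1
      have h4 : J' (j + 1) w ∈ S.Vu (S.g y) := by
        have h5 : w ∈ S.Vu (S.g^[j + 1] p) := by
          rw [Function.iterate_succ_apply']
          exact hw'
        have h6 := (hJ1 (j + 1) (by omega) w h5).1
        rw [Function.iterate_succ_apply'] at h6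
        rw [hy]
        exact h6
      have h5 : S.D y (J' j w') ∈ S.Vu (S.g y) := S.mapU y _ h3
      have h6 := S.contrU (S.g y) _ (Submodule.sub_mem _ h4 h5)
      rw [map_sub, S.invU y _ h3] at h6
      have e1 : C.g^[k] x = S.g y := by
        show S.g.symm^[k] x = S.g y
        rw [hback x n k hk.le, hjk, Function.iterate_succ_apply', ← hy]
      have e2 : C.g^[k] p = S.g (S.g^[j] p) := by
        show S.g.symm^[k] p = _
        rw [hpk k hk.le, hjk, Function.iterate_succ_apply']
      show ‖J' (n - (k + 1)) (S.D' (C.g^[k] p) w) - S.D' (C.g^[k] x) (J' (n - k) w)‖ ≤ _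
      rw [e1, e2, ← hj, hjk, ← hw'def, norm_sub_rev]
      refine h6.trans ?_
      have hnj : n - j = k + 1 := by omega
      rw [hnj] at h2
      have h7 : S.b * ‖J' (j + 1) w - S.D y (J' j w')‖ ≤
          1 / 16 * (C₀ * c * ((1 / 2) ^ j + (1 / 2) ^ (k + 1)) * (1 / 16 * ‖w‖)) := by
        refine mul_le_mul hb (h2.trans ?_) (norm_nonneg _) (by norm_num)
        exact mul_le_mul_of_nonneg_left hw'n (by positivity)
      refine h7.trans ?_
      have h8 : ((1 : ℝ) / 2) ^ j = 2 * (1 / 2) ^ (j + 1) := by rw [pow_succ]; ring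
      have h9' : ((1 : ℝ) / 2) ^ (k + 1) ≤ (1 / 2) ^ k :=
        pow_le_pow_of_le_one (by norm_num) (by norm_num) (by omega)
      have h10' : (0 : ℝ) ≤ (1 / 2) ^ (j + 1) := by positivity
      have h11 : (0 : ℝ) ≤ (1 / 2) ^ k := by positivity
      rw [h8]
      have h12 : 1 / 16 * (2 * ((1 : ℝ) / 2) ^ (j + 1) + (1 / 2) ^ (k + 1)) * (1 / 16) ≤
          (1 / 2) ^ k + (1 / 2) ^ (j + 1) := by nlinarith
      have h13 : 0 ≤ C₀ * c * ‖w‖ := by positivity
      calc 1 / 16 * (C₀ * c * (2 * (1 / 2) ^ (j + 1) + (1 / 2) ^ (k + 1)) * (1 / 16 * ‖w‖))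
          = (1 / 16 * (2 * ((1 : ℝ) / 2) ^ (j + 1) + (1 / 2) ^ (k + 1)) * (1 / 16)) *
            (C₀ * c * ‖w‖) := by ring
        _ ≤ ((1 / 2) ^ k + (1 / 2) ^ (j + 1)) * (C₀ * c * ‖w‖) :=
            mul_le_mul_of_nonneg_right h12 h13
        _ = _ := by ring
  obtain ⟨A, hA⟩ := K13.core h9 C (fun _ => rfl) D C₀ c₁ hD hfin hC₀ hc₁ hclo l hl (by
    intro p n hn hp w hw
    have hp' : S.g^[n] p = p := by
      have h2 : S.g^[n] (S.g.symm^[n] p) = p :=
        (Function.LeftInverse.iterate (fun w => S.g.apply_symm_apply w) n) p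
      have h3 : S.g.symm^[n] p = p := hp
      rwa [h3] at h2
    obtain ⟨A, hA⟩ := hper p n hn hp' w hw
    exact ⟨A, fun q => by rw [hit]; exact hA q⟩) l' hll'
  exact ⟨A, fun n x v hv => by rw [← hit]; exact hA n x v hv⟩

end Pool.Agent.Q192.PK
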