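import Pool.Agent.Q192.PK.K1

/-!
Project PK: volume factors, adding one vector, and the conorm (K2).
-/

set_option autoImplicit false

namespace Pool.Agent.Q192.PK

universe u v

open Metric
open scoped RealInnerProductSpace

section gram

variable {E : Type v} [NormedAddCommGroup E] [InnerProductSpace ℝ E]

/-- Gram determinants and linear maps. -/
theorem gram_map {ι : Type} [Fintype ι] [DecidableEq ι] {U : Type*} [NormedAddCommGroup U]
    [InnerProductSpace ℝ U] [FiniteDimensional ℝ U] (f : U →ₗ[ℝ] E) (x : ι → U)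
    (h : Module.finrank ℝ U = Fintype.card ι) :
    (Matrix.gram ℝ (fun i => f (x i))).det = f.normDet ^ 2 * (Matrix.gram ℝ x).det := by
  let b : OrthonormalBasis ι ℝ (EuclideanSpace ℝ ι) := EuclideanSpace.basisFun ι ℝ
  let g : EuclideanSpace ℝ ι →ₗ[ℝ] U := b.toBasis.constr ℝ x
  have hg : ∀ i, g (b i) = x i := by
    intro i
    have := b.toBasis.constr_basis ℝ x i
    rwa [OrthonormalBasis.coe_toBasis] at this
  have h1 := g.normDet_sq_eq_det_gram b
  have h2 := (f ∘ₗ g).normDet_sq_eq_det_gram b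
  have h3 := LinearMap.normDet_comp_of_finrank_eq g f (by rw [h]; simp)
  have e1 : (fun i => g (b i)) = x := funext hg
  have e2 : (fun i => (f ∘ₗ g) (b i)) = fun i => f (x i) := by
    funext i
    rw [LinearMap.comp_apply, hg]
  rw [e1] at h1
  rw [e2] at h2
  have h1' : g.normDet ^ 2 = (Matrix.gram ℝ x).det := by exact_mod_cast h1
  have h2' : (f ∘ₗ g).normDet ^ 2 = (Matrix.gram ℝ (fun i => f (x i))).det := by
    exact_mod_cast h2
  rw [← h2', ← h1', h3, mul_pow]

/-- Gram determinants and distances. -/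
theorem gram_snoc {ι : Type} [Fintype ι] [DecidableEq ι] (x : ι → E) (w z : E) (a : ι → ℝ)
    (hw : w = ∑ i, a i • x i + z) (hz : ∀ i, ⟪x i, z⟫ = 0) :
    (Matrix.gram ℝ (Sum.elim x (fun _ : Unit => w))).det =
      (Matrix.gram ℝ x).det * ‖z‖ ^ 2 := by
  have hxw : ∀ i, ⟪x i, w⟫ = ∑ j, ⟪x i, x j⟫ * a j := by
    intro i
    rw [hw, inner_add_right, hz i, add_zero, inner_sum]
    refine Finset.sum_congr rfl fun j _ => ?_
    rw [real_inner_smul_right, mul_comm]
  have hz' : ⟪∑ i, a i • x i, z⟫ = 0 := by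
    rw [sum_inner]
    refine Finset.sum_eq_zero fun i _ => ?_
    rw [real_inner_smul_left, hz i, mul_zero]
  have hww : ⟪w, w⟫ = (∑ i, ∑ j, a i * ⟪x i, x j⟫ * a j) + ‖z‖ ^ 2 := by
    have h1 : ⟪w, w⟫ = ⟪∑ i, a i • x i, w⟫ + ⟪z, w⟫ := by
      conv_lhs => rw [show (⟪w, w⟫ : ℝ) = ⟪∑ i, a i • x i + z, w⟫ by rw [← hw]]
      rw [inner_add_left]
    have h2 : ⟪z, w⟫ = ‖z‖ ^ 2 := by
      rw [hw, inner_add_right, real_inner_comm, hz', zero_add, real_inner_self_eq_norm_sq]
    rw [h1, h2, sum_inner]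
    congr 1
    refine Finset.sum_congr rfl fun i _ => ?_
    rw [real_inner_smul_left, hxw, Finset.mul_sum]
    refine Finset.sum_congr rfl fun j _ => ?_
    ring
  let A : Matrix ι Unit ℝ := Matrix.of fun i _ => a i
  let L : Matrix (ι ⊕ Unit) (ι ⊕ Unit) ℝ := Matrix.fromBlocks 1 A 0 1
  let D : Matrix (ι ⊕ Unit) (ι ⊕ Unit) ℝ :=
    Matrix.fromBlocks (Matrix.gram ℝ x) 0 0 (Matrix.of fun _ _ => ‖z‖ ^ 2)
  have hprod : Matrix.gram ℝ (Sum.elim x (fun _ : Unit => w)) = L.transpose * D * L := by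
    have e1 : L.transpose * D * L = Matrix.fromBlocks (Matrix.gram ℝ x) (Matrix.gram ℝ x * A)
        (A.transpose * Matrix.gram ℝ x)
        (A.transpose * Matrix.gram ℝ x * A + Matrix.of fun _ _ => ‖z‖ ^ 2) := by
      simp only [L, D, Matrix.fromBlocks_transpose, Matrix.fromBlocks_multiply,
        Matrix.transpose_one, Matrix.transpose_zero, Matrix.one_mul, Matrix.zero_mul,
        Matrix.mul_one, Matrix.mul_zero, add_zero, zero_add]
    rw [e1]
    ext i j
    rcases i with i | i <;> rcases j with j | j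
    · simp [Matrix.gram_apply]
    · rw [Matrix.fromBlocks_apply₁₂, Matrix.gram_apply, Sum.elim_inl, Sum.elim_inr, hxw,
        Matrix.mul_apply]
      rfl
    · rw [Matrix.fromBlocks_apply₂₁, Matrix.gram_apply, Sum.elim_inl, Sum.elim_inr,
        real_inner_comm, hxw, Matrix.mul_apply]
      refine Finset.sum_congr rfl fun k _ => ?_
      rw [Matrix.transpose_apply, Matrix.gram_apply, real_inner_comm, mul_comm]
      rfl
    · rw [Matrix.fromBlocks_apply₂₂, Matrix.gram_apply, Sum.elim_inr, hww,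
        Matrix.add_apply, Matrix.mul_apply]
      congr 1
      rw [Finset.sum_comm]
      refine Finset.sum_congr rfl fun k _ => ?_
      rw [Matrix.mul_apply, Finset.sum_mul]
      rfl
  rw [hprod, Matrix.det_mul, Matrix.det_mul, Matrix.det_transpose]
  have hL : L.det = 1 := by
    simp only [L]
    rw [Matrix.det_fromBlocks_zero₂₁, Matrix.det_one, Matrix.det_one, mul_one]
  have hD : D.det = (Matrix.gram ℝ x).det * ‖z‖ ^ 2 := by
    simp only [D]
    rw [Matrix.det_fromBlocks_zero₂₁]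
    congr 1
    exact Matrix.det_unique _
  rw [hL, hD]
  ring

end gram

section

variable {E : Type v} [NormedAddCommGroup E] [InnerProductSpace ℝ E] [FiniteDimensional ℝ E]

theorem infDist_eq (U : Submodule ℝ E) (w p : E) (hp : p ∈ U) (h : ∀ u ∈ U, ⟪u, w - p⟫ = 0) :
    infDist w (U : Set E) = ‖w - p‖ := by
  apply le_antisymm
  · have := infDist_le_dist_of_mem (x := w) (show p ∈ (U : Set E) from hp)
    rwa [dist_eq_norm] at this
  · rw [le_infDist ⟨0, U.zero_mem⟩]
    intro y hy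
    rw [dist_eq_norm]
    have h1 : w - y = (w - p) + (p - y) := by abel
    have h2 : ⟪w - p, p - y⟫ = 0 := by
      rw [real_inner_comm]
      exact h _ (U.sub_mem hp hy)
    have h3 : ‖w - y‖ ^ 2 = ‖w - p‖ ^ 2 + ‖p - y‖ ^ 2 := by
      rw [h1, @norm_add_sq_real, h2]
      ring
    have h4 : ‖w - p‖ ^ 2 ≤ ‖w - y‖ ^ 2 := by
      rw [h3]
      nlinarith [sq_nonneg ‖p - y‖]
    exact (pow_le_pow_iff_left₀ (norm_nonneg _) (norm_nonneg _) two_ne_zero).1 h4

/-- Gram determinant of a basis of a subspace and one more vector. -/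
theorem gram_dist {ι : Type} [Fintype ι] [DecidableEq ι] (x : ι → E) (U : Submodule ℝ E)
    (hU : Submodule.span ℝ (Set.range x) = U) (w : E) :
    (Matrix.gram ℝ (Sum.elim x (fun _ : Unit => w))).det =
      (Matrix.gram ℝ x).det * infDist w (U : Set E) ^ 2 := by
  obtain ⟨p, hp⟩ : ∃ p : E, p = U.starProjection w := ⟨_, rfl⟩
  have hpU : p ∈ U := by
    rw [hp]
    exact U.starProjection_apply_mem w
  have horth : ∀ u ∈ U, ⟪u, w - p⟫ = 0 := by
    intro u hu
    rw [hp]
    exact (Submodule.mem_orthogonal U _).1 (U.sub_starProjection_mem_orthogonal w) u hu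
  rw [infDist_eq U w p hpU horth]
  have hps : p ∈ Submodule.span ℝ (Set.range x) := by rw [hU]; exact hpU
  rw [Submodule.mem_span_range_iff_exists_fun] at hps
  obtain ⟨a, ha⟩ := hps
  refine gram_snoc x w (w - p) a (by rw [ha]; abel) fun i => horth _ ?_
  rw [← hU]
  exact Submodule.subset_span ⟨i, rfl⟩

/-- Adding one vector. -/
theorem jac_sup (T : E →ₗ[ℝ] E) (U : Submodule ℝ E) (w : E) (hw : w ∉ U) :
    jac T (U ⊔ Submodule.span ℝ {w}) * infDist w (U : Set E) =
      jac T U * infDist (T w) (U.map T : Set E) := by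
  classical
  let b := stdOrthonormalBasis ℝ U
  let x : Fin (Module.finrank ℝ U) → E := fun i => (b i : E)
  have hx : Submodule.span ℝ (Set.range x) = U := by
    have h1 : Set.range x = U.subtype '' Set.range b := by
      rw [← Set.range_comp]
      rfl
    rw [h1, ← Submodule.map_span]
    have h2 : Submodule.span ℝ (Set.range b) = ⊤ := by
      have := b.toBasis.span_eq
      rwa [OrthonormalBasis.coe_toBasis] at this
    rw [h2, Submodule.map_top, Submodule.range_subtype]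
  have hTx : Submodule.span ℝ (Set.range fun i => T (x i)) = U.map T := by
    have h1 : (Set.range fun i => T (x i)) = T '' Set.range x := by
      rw [← Set.range_comp]
      rfl
    rw [h1, ← Submodule.map_span, hx]
  have hgx : (Matrix.gram ℝ x).det = 1 := by
    have h1 : Matrix.gram ℝ x = 1 := by
      ext i j
      rw [Matrix.gram_apply, Matrix.one_apply]
      have h2 : (⟪x i, x j⟫ : ℝ) = ⟪b i, b j⟫ := rfl
      rw [h2, OrthonormalBasis.inner_eq_ite]
    rw [h1, Matrix.det_one]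
  have hU0 : infDist w (U : Set E) ≠ 0 := by
    intro h0
    apply hw
    have hcl : IsClosed (U : Set E) := Submodule.closed_of_finiteDimensional U
    have h1 : w ∈ closure (U : Set E) :=
      (mem_closure_iff_infDist_zero (s := (U : Set E)) ⟨0, U.zero_mem⟩).2 h0
    rw [hcl.closure_eq] at h1
    exact h1
  -- the large space
  obtain ⟨U', hU'⟩ : ∃ U', U' = U ⊔ Submodule.span ℝ {w} := ⟨_, rfl⟩
  have hUU' : U ≤ U' := by rw [hU']; exact le_sup_left
  have hwU' : w ∈ U' := by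
    rw [hU']
    exact (le_sup_right : _ ≤ U ⊔ _) (Submodule.mem_span_singleton_self w)
  let y : Fin (Module.finrank ℝ U) ⊕ Unit → U' :=
    Sum.elim (fun i => ⟨x i, hUU' (b i).2⟩) (fun _ => ⟨w, hwU'⟩)
  have hfr : Module.finrank ℝ U' = Fintype.card (Fin (Module.finrank ℝ U) ⊕ Unit) := by
    rw [Fintype.card_sum, Fintype.card_fin, Fintype.card_unit, hU']
    have h1 := Submodule.finrank_sup_add_finrank_inf_eq U (Submodule.span ℝ {w})
    have hw0 : w ≠ 0 := fun h => hw (h ▸ U.zero_mem)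
    have h2 : U ⊓ Submodule.span ℝ {w} = ⊥ := by
      rw [Submodule.eq_bot_iff]
      intro v hv
      obtain ⟨h3, h4⟩ := hv
      obtain ⟨c, rfl⟩ := Submodule.mem_span_singleton.1 h4
      by_contra hc
      apply hw
      have hc0 : c ≠ 0 := fun h => hc (by rw [h, zero_smul])
      have := U.smul_mem c⁻¹ h3
      rwa [smul_smul, inv_mul_cancel₀ hc0, one_smul] at this
    rw [h2, finrank_bot, finrank_span_singleton hw0] at h1
    omega
  have h1 := gram_map (T.domRestrict U') y hfr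
  have hy1 : (fun i => (T.domRestrict U') (y i)) =
      Sum.elim (fun i => T (x i)) (fun _ : Unit => T w) := by
    funext i
    rcases i with i | i <;> rfl
  have hy2 : Matrix.gram ℝ y = Matrix.gram ℝ (Sum.elim x (fun _ : Unit => w)) := by
    ext i j
    rcases i with i | i <;> rcases j with j | j <;> rfl
  rw [hy1, hy2, gram_dist _ (U.map T) hTx, gram_dist x U hx, hgx, one_mul] at h1
  have h2 := gram_map (T.domRestrict U) (fun i => b i) (by rw [Fintype.card_fin])
  have hb1 : (fun i => (T.domRestrict U) (b i)) = fun i => T (x i) := rfl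
  have hb2 : Matrix.gram ℝ (fun i => b i) = Matrix.gram ℝ x := rfl
  rw [hb1, hb2, hgx, mul_one] at h2
  rw [h2] at h1
  have h3 : (jac T U * infDist (T w) (U.map T : Set E)) ^ 2 =
      (jac T U' * infDist w (U : Set E)) ^ 2 := by
    unfold jac
    rw [mul_pow, mul_pow]
    exact h1
  rw [← hU']
  exact ((pow_left_inj₀ (mul_nonneg (jac_nonneg _ _) infDist_nonneg)
    (mul_nonneg (jac_nonneg _ _) infDist_nonneg) two_ne_zero).1 h3).symm

/-- The conorm. -/
theorem jac_conorm (T : E →ₗ[ℝ] E) (U : Submodule ℝ E) (b : ℝ) (hb : 0 ≤ b)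
    (h : ∀ v ∈ U, ‖T v‖ ≤ b * ‖v‖) (v : E) (hv : v ∈ U) :
    jac T U * ‖v‖ ≤ b ^ (Module.finrank ℝ U - 1) * ‖T v‖ := by
  classical
  obtain ⟨e, he, hsum⟩ := exists_onb (T.domRestrict U)
  obtain ⟨s, hs⟩ : ∃ s : Fin (Module.finrank ℝ U) → ℝ, s = fun i => ‖T.domRestrict U (e i)‖ :=
    ⟨_, rfl⟩
  have hs' : ∀ i, ‖T.domRestrict U (e i)‖ = s i := fun i => by rw [hs]
  simp only [hs'] at he hsum
  have hs0 : ∀ i, 0 ≤ s i := fun i => by rw [hs]; exact norm_nonneg _
  have hsb : ∀ i, s i ≤ b := by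
    intro i
    rw [hs]
    have h1 := h (e i) (e i).2
    have h2 : ‖((e i : U) : E)‖ = 1 := e.norm_eq_one i
    rw [h2, mul_one] at h1
    exact h1
  have h1 := hsum ⟨v, hv⟩
  have h2 : ‖(⟨v, hv⟩ : U)‖ ^ 2 = ∑ i, (⟪e i, (⟨v, hv⟩ : U)⟫ : ℝ) ^ 2 := by
    rw [← e.sum_sq_norm_inner_right]
    simp
  have h3 : (jac T U * ‖v‖) ^ 2 ≤ (b ^ (Module.finrank ℝ U - 1) * ‖T v‖) ^ 2 := by
    have e1 : jac T U = ∏ i, s i := he
    have e2 : ‖v‖ ^ 2 = ∑ i, (⟪e i, (⟨v, hv⟩ : U)⟫ : ℝ) ^ 2 := h2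
    have e3 : ‖T v‖ ^ 2 = ∑ i, s i ^ 2 * (⟪e i, (⟨v, hv⟩ : U)⟫ : ℝ) ^ 2 := h1
    rw [mul_pow, mul_pow, e1, e2, e3, Finset.mul_sum, Finset.mul_sum]
    refine Finset.sum_le_sum fun i _ => ?_
    have h4 : ∏ j, s j = s i * ∏ j ∈ Finset.univ.erase i, s j :=
      (Finset.mul_prod_erase _ _ (Finset.mem_univ i)).symm
    have h5 : ∏ j ∈ Finset.univ.erase i, s j ≤ b ^ (Module.finrank ℝ U - 1) := by
      refine (Finset.prod_le_prod (fun j _ => hs0 j) (g := fun _ => b) fun j _ => hsb j).trans ?_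
      rw [Finset.prod_const, Finset.card_erase_of_mem (Finset.mem_univ i), Finset.card_univ,
        Fintype.card_fin]
    have h6 : 0 ≤ ∏ j ∈ Finset.univ.erase i, s j := Finset.prod_nonneg fun j _ => hs0 j
    have h7 : (∏ j ∈ Finset.univ.erase i, s j) ^ 2 ≤ (b ^ (Module.finrank ℝ U - 1)) ^ 2 :=
      pow_le_pow_left₀ h6 h5 2
    have h8 : 0 ≤ s i ^ 2 * (⟪e i, (⟨v, hv⟩ : U)⟫ : ℝ) ^ 2 := by positivity
    rw [h4, mul_pow]
    nlinarith [mul_le_mul_of_nonneg_right h7 h8]
  exact (pow_le_pow_iff_left₀ (mul_nonneg (jac_nonneg _ _) (norm_nonneg _))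
    (mul_nonneg (pow_nonneg hb _) (norm_nonneg _)) two_ne_zero).1 h3

end

/-- K2. -/
theorem sK2 : SK2.{v} := by
  intro E _ _ _
  exact ⟨jac_sup, fun T U b hb h v hv => jac_conorm T U b hb h v hv⟩

end Pool.Agent.Q192.PK
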