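import Pool.Agent.Q192.PK.Stm

/-!
# Project PK, lemma K8: comparison along blocks
-/

set_option autoImplicit false
set_option linter.unusedSectionVars false

open Filter Topology Set Metric

namespace Pool.Agent.Q192.PK

universe u v

namespace K8

variable {X : Type u} {E : Type v} [NormedAddCommGroup E] [InnerProductSpace ℝ E] (C : Coc X E)

lemma it_mem (n : ℕ) (x : X) (v : E) (hv : v ∈ C.V x) : C.it n x v ∈ C.V (C.g^[n] x) := by
  induction n with
  | zero => exact hv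
  | succ n ih =>
    rw [Function.iterate_succ_apply']
    exact C.map _ _ ih

lemma it_le (n : ℕ) (x : X) (v : E) (hv : v ∈ C.V x) : ‖C.it n x v‖ ≤ C.L ^ n * ‖v‖ := by
  induction n with
  | zero => simp [Coc.it]
  | succ n ih =>
    have h1 : ‖C.it (n + 1) x v‖ ≤ C.L * ‖C.it n x v‖ := C.up _ _ (it_mem C n x v hv)
    have hL : 0 ≤ C.L := zero_le_one.trans C.one_le_L
    calc ‖C.it (n + 1) x v‖ ≤ C.L * ‖C.it n x v‖ := h1
      _ ≤ C.L * (C.L ^ n * ‖v‖) := mul_le_mul_of_nonneg_left ih hL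
      _ = C.L ^ (n + 1) * ‖v‖ := by ring

end K8

theorem sK8 : SK8.{u, v} := by
  intro X E _ _ C N C₀ hN hC₀
  have hL1 := C.one_le_L
  have hL : 0 ≤ C.L := zero_le_one.trans hL1
  refine ⟨2 * (N * C.L ^ N * (C₀ * 2 ^ N * C.L ^ N)), by positivity, ?_⟩
  intro c m x p J hc hc2 hJ k hk w hw
  set ρ : ℝ := (1 / 2) ^ N with hρ
  set s := N * k with hs
  have hsm : s + N ≤ N * m := by
    rw [hs, ← Nat.mul_succ]
    exact Nat.mul_le_mul_left _ hk
  set e : ℝ := C₀ * c * (2 ^ N * (ρ ^ k + ρ ^ (m - k))) * (C.L ^ N * ‖w‖) with he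
  have he0 : 0 ≤ e := by rw [he]; positivity
  have hitp : ∀ i, C.g^[i] (C.g^[s] p) = C.g^[s + i] p := fun i => by
    rw [← Function.iterate_add_apply, add_comm]
  have hitx : ∀ i, C.g^[i] (C.g^[s] x) = C.g^[s + i] x := fun i => by
    rw [← Function.iterate_add_apply, add_comm]
  have hWm : ∀ i, C.it i (C.g^[s] p) w ∈ C.V (C.g^[s + i] p) := fun i => by
    rw [← hitp]
    exact K8.it_mem C i _ w hw
  have hz0 : J s w ∈ C.V (C.g^[s] x) := (hJ.1 s (by omega) w hw).1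
  -- the error in one step
  have hstep : ∀ i < N, ‖J (s + i + 1) (C.it (i + 1) (C.g^[s] p) w) -
      C.D (C.g^[s + i] x) (J (s + i) (C.it i (C.g^[s] p) w))‖ ≤ e := by
    intro i hi
    have h1 := hJ.2 (s + i) (by omega) _ (hWm i)
    have h2 : C.it (i + 1) (C.g^[s] p) w = C.D (C.g^[s + i] p) (C.it i (C.g^[s] p) w) := by
      show C.D (C.g^[i] (C.g^[s] p)) (C.it i (C.g^[s] p) w) = _
      rw [hitp]
    rw [h2]
    refine h1.trans ?_
    rw [he]
    have hb1 : ((1 / 2 : ℝ)) ^ (s + i) ≤ 2 ^ N * ρ ^ k := by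
      have e1 : ρ ^ k = (1 / 2 : ℝ) ^ s := by rw [hρ, hs, pow_mul]
      rw [e1]
      have e2 : ((1 / 2 : ℝ)) ^ (s + i) ≤ (1 / 2 : ℝ) ^ s :=
        pow_le_pow_of_le_one (by norm_num) (by norm_num) (by omega)
      have e3 : (1 : ℝ) ≤ 2 ^ N := one_le_pow₀ (by norm_num)
      have e4 : 0 ≤ (1 / 2 : ℝ) ^ s := by positivity
      nlinarith
    have hb2 : ((1 / 2 : ℝ)) ^ (N * m - (s + i)) ≤ 2 ^ N * ρ ^ (m - k) := by
      have e1 : ρ ^ (m - k) = (1 / 2 : ℝ) ^ (N * (m - k)) := by rw [hρ, pow_mul]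
      rw [e1]
      have e5 : N * (m - k) = N * m - s := by rw [Nat.mul_sub, hs]
      have e2 : ((1 / 2 : ℝ)) ^ ((N * m - (s + i)) + N) ≤ (1 / 2 : ℝ) ^ (N * (m - k)) :=
        pow_le_pow_of_le_one (by norm_num) (by norm_num) (by omega)
      calc ((1 / 2 : ℝ)) ^ (N * m - (s + i)) =
          2 ^ N * ((1 / 2 : ℝ)) ^ ((N * m - (s + i)) + N) := by
            have e6 : (2 : ℝ) ^ N * (1 / 2 : ℝ) ^ N = 1 := by rw [← mul_pow]; norm_num
            rw [pow_add]
            calc ((1 / 2 : ℝ)) ^ (N * m - (s + i)) =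
                ((1 / 2 : ℝ)) ^ (N * m - (s + i)) * ((2 : ℝ) ^ N * (1 / 2 : ℝ) ^ N) := by
                  rw [e6, mul_one]
              _ = _ := by ring
        _ ≤ _ := mul_le_mul_of_nonneg_left e2 (by positivity)
    have hb3 : ‖C.it i (C.g^[s] p) w‖ ≤ C.L ^ N * ‖w‖ := by
      refine (K8.it_le C i _ w hw).trans (mul_le_mul_of_nonneg_right ?_ (norm_nonneg _))
      exact pow_le_pow_right₀ hL1 hi.le
    refine mul_le_mul ?_ hb3 (norm_nonneg _) (by positivity)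
    refine mul_le_mul_of_nonneg_left ?_ (by positivity)
    linarith
  -- telescoping
  have key : ∀ i ≤ N, ‖J (s + i) (C.it i (C.g^[s] p) w) - C.it i (C.g^[s] x) (J s w)‖ ≤
      i * C.L ^ i * e := by
    intro i hi
    induction i with
    | zero => simp [Coc.it]
    | succ i ih =>
      have h1 := ih (by omega)
      have h2 := hstep i (by omega)
      have h3 : C.it (i + 1) (C.g^[s] x) (J s w) =
          C.D (C.g^[s + i] x) (C.it i (C.g^[s] x) (J s w)) := by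
        show C.D (C.g^[i] (C.g^[s] x)) (C.it i (C.g^[s] x) (J s w)) = _
        rw [hitx]
      have h4 : J (s + i) (C.it i (C.g^[s] p) w) - C.it i (C.g^[s] x) (J s w) ∈
          C.V (C.g^[s + i] x) := by
        refine Submodule.sub_mem _ (hJ.1 (s + i) (by omega) _ (hWm i)).1 ?_
        rw [← hitx]
        exact K8.it_mem C i _ _ hz0
      have h5 := C.up _ _ h4
      rw [map_sub] at h5
      have h6 : J (s + (i + 1)) (C.it (i + 1) (C.g^[s] p) w) -
          C.it (i + 1) (C.g^[s] x) (J s w) =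
          (J (s + i + 1) (C.it (i + 1) (C.g^[s] p) w) -
            C.D (C.g^[s + i] x) (J (s + i) (C.it i (C.g^[s] p) w))) +
          (C.D (C.g^[s + i] x) (J (s + i) (C.it i (C.g^[s] p) w)) -
            C.D (C.g^[s + i] x) (C.it i (C.g^[s] x) (J s w))) := by
        rw [h3, ← add_assoc s i 1]
        abel
      rw [h6]
      refine (norm_add_le _ _).trans ?_
      have h7 : (1 : ℝ) ≤ C.L ^ (i + 1) := one_le_pow₀ hL1
      have h8 : C.L * ‖J (s + i) (C.it i (C.g^[s] p) w) - C.it i (C.g^[s] x) (J s w)‖ ≤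
          C.L * (i * C.L ^ i * e) := mul_le_mul_of_nonneg_left h1 hL
      push_cast
      calc _ ≤ e + C.L * (i * C.L ^ i * e) := add_le_add h2 (h5.trans h8)
        _ ≤ C.L ^ (i + 1) * e + C.L * (i * C.L ^ i * e) := by nlinarith
        _ = (i + 1) * C.L ^ (i + 1) * e := by ring
  have h1 := key N le_rfl
  have h2 : N * (k + 1) = s + N := by rw [hs]; ring
  rw [h2]
  refine h1.trans ?_
  -- the size of `w`
  have hw2 : ‖w‖ ≤ 2 * ‖J s w‖ := by
    have h3 := (hJ.1 s (by omega) w hw).2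
    have h4 : ‖w‖ ≤ ‖J s w‖ + ‖J s w - w‖ := by
      have := norm_sub_le (J s w) (J s w - w)
      rwa [sub_sub_cancel] at this
    have h5 : c * ‖w‖ ≤ 1 / 2 * ‖w‖ := mul_le_mul_of_nonneg_right hc2 (norm_nonneg _)
    linarith
  rw [he]
  have h0 : 0 ≤ N * C.L ^ N * (C₀ * c * (2 ^ N * (ρ ^ k + ρ ^ (m - k))) * C.L ^ N) := by
    positivity
  calc N * C.L ^ N * (C₀ * c * (2 ^ N * (ρ ^ k + ρ ^ (m - k))) * (C.L ^ N * ‖w‖))
      = N * C.L ^ N * (C₀ * c * (2 ^ N * (ρ ^ k + ρ ^ (m - k))) * C.L ^ N) * ‖w‖ := by ring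
    _ ≤ N * C.L ^ N * (C₀ * c * (2 ^ N * (ρ ^ k + ρ ^ (m - k))) * C.L ^ N) *
        (2 * ‖J s w‖) := mul_le_mul_of_nonneg_left hw2 h0
    _ = _ := by ring

end Pool.Agent.Q192.PK
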