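import Pool.Agent.Q192.PK.Stm
import Pool.Agent.Q192.PK.K8

/-!
# Project PK, lemma K3: the growth rate, its multiplicity, and the gap
-/

set_option autoImplicit false
set_option linter.unusedSectionVars false

open Filter Topology Set Metric

namespace Pool.Agent.Q192.PK

universe u v

namespace K3

variable {X : Type u} {E : Type v} [NormedAddCommGroup E] [InnerProductSpace ℝ E]
  (C : Coc X E)

lemma it_lo (n : ℕ) (x : X) (v : E) (hv : v ∈ C.V x) : ‖v‖ ≤ C.L ^ n * ‖C.it n x v‖ := by
  induction n with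
  | zero => simp [Coc.it]
  | succ n ih =>
    have h1 : ‖C.it n x v‖ ≤ C.L * ‖C.it (n + 1) x v‖ := C.lo _ _ (K8.it_mem C n x v hv)
    have hL : 0 ≤ C.L := zero_le_one.trans C.one_le_L
    calc ‖v‖ ≤ C.L ^ n * ‖C.it n x v‖ := ih
      _ ≤ C.L ^ n * (C.L * ‖C.it (n + 1) x v‖) :=
        mul_le_mul_of_nonneg_left h1 (pow_nonneg hL n)
      _ = C.L ^ (n + 1) * ‖C.it (n + 1) x v‖ := by ring

lemma it_add (m n : ℕ) (x : X) : C.it (m + n) x = C.it m (C.g^[n] x) ∘ₗ C.it n x := by
  induction m with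
  | zero => simp only [Nat.zero_add]; rfl
  | succ m ih =>
    have e : m + 1 + n = (m + n) + 1 := by ring
    rw [e]
    show C.D (C.g^[m + n] x) ∘ₗ C.it (m + n) x =
      (C.D (C.g^[m] (C.g^[n] x)) ∘ₗ C.it m (C.g^[n] x)) ∘ₗ C.it n x
    rw [ih, Function.iterate_add_apply]
    rfl

lemma bs_add (m n : ℕ) (x : X) : C.bs (m + n) x = C.bs n x + C.bs m (C.g^[n] x) := by
  unfold Coc.bs
  rw [add_comm m n, Finset.sum_range_add]
  congr 1
  apply Finset.sum_congr rfl
  intro i _
  rw [← Function.iterate_add_apply, add_comm]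

lemma bs_abs (n : ℕ) (x : X) : |C.bs n x| ≤ n * C.B := by
  unfold Coc.bs
  calc |∑ i ∈ Finset.range n, C.φ (C.g^[i] x)| ≤ ∑ i ∈ Finset.range n, |C.φ (C.g^[i] x)| :=
        Finset.abs_sum_le_sum_abs _ _
    _ ≤ ∑ _i ∈ Finset.range n, C.B := Finset.sum_le_sum fun i _ => C.hφ _
    _ = n * C.B := by simp

/-- pairs (point, subspace) -/
def Pr (j : ℕ) : Type (max u v) :=
  {p : X × Submodule ℝ E // p.2 ≤ C.V p.1 ∧ Module.finrank ℝ p.2 = j}

variable [FiniteDimensional ℝ E]

lemma finrank_map (T : E →ₗ[ℝ] E) (U : Submodule ℝ E) (h : ∀ v ∈ U, T v = 0 → v = 0) :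
    Module.finrank ℝ (U.map T) = Module.finrank ℝ U := by
  have hi : Function.Injective (T.domRestrict U) := by
    rw [injective_iff_map_eq_zero]
    intro w hw
    have := h w.1 w.2 hw
    exact Subtype.ext this
  have h1 := LinearMap.finrank_range_of_inj hi
  rwa [LinearMap.range_domRestrict] at h1

lemma exists_sub (V : Submodule ℝ E) (j : ℕ) (hj : j ≤ Module.finrank ℝ V) :
    ∃ U : Submodule ℝ E, U ≤ V ∧ Module.finrank ℝ U = j := by
  let b := Module.finBasis ℝ V
  let f : Fin j → E := fun i => (b (Fin.castLE hj i) : E)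
  have hf : LinearIndependent ℝ f := by
    have h1 : LinearIndependent ℝ (fun i => (b i : E)) :=
      b.linearIndependent.map' V.subtype (Submodule.ker_subtype V)
    exact h1.comp _ (Fin.castLE_injective hj)
  refine ⟨Submodule.span ℝ (Set.range f), ?_, ?_⟩
  · rw [Submodule.span_le]
    rintro _ ⟨i, rfl⟩
    exact (b _).2
  · have := finrank_span_eq_card hf
    simpa using this

/-- the value at a pair -/
noncomputable def val (j n : ℕ) (p : Pr C j) : ℝ :=
  Real.log (jac (C.it n p.1.1) p.1.2) - j * C.bs n p.1.1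

/-- the supremum -/
noncomputable def a (j n : ℕ) : ℝ := ⨆ p : Pr C j, val C j n p

section

variable (h1 : SK1.{v}) (j : ℕ)
include h1

lemma jac_pos (n : ℕ) (p : Pr C j) : 0 < jac (C.it n p.1.1) p.1.2 := by
  have hL : 0 < C.L := zero_lt_one.trans_le C.one_le_L
  have h := (h1 E).2.2.1 (C.it n p.1.1) p.1.2 ((C.L ^ n)⁻¹) (by positivity) (by
    intro w hw
    rw [inv_mul_le_iff₀ (by positivity)]
    exact it_lo C n _ w (p.2.1 hw))
  exact lt_of_lt_of_le (by positivity) h

lemma val_abs (n : ℕ) (p : Pr C j) : |val C j n p| ≤ (j * (Real.log C.L + C.B)) * n := by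
  have hL : 0 < C.L := zero_lt_one.trans_le C.one_le_L
  have hlog : 0 ≤ Real.log C.L := Real.log_nonneg C.one_le_L
  have hlo := (h1 E).2.2.1 (C.it n p.1.1) p.1.2 ((C.L ^ n)⁻¹) (by positivity) (by
    intro w hw
    rw [inv_mul_le_iff₀ (by positivity)]
    exact it_lo C n _ w (p.2.1 hw))
  have hup := (h1 E).2.1 (C.it n p.1.1) p.1.2 (C.L ^ n) (by positivity) (by
    intro w hw
    exact K8.it_le C n _ w (p.2.1 hw))
  rw [p.2.2] at hlo hup
  have hpos := jac_pos C h1 j n p
  have e1 : Real.log (jac (C.it n p.1.1) p.1.2) ≤ j * (n * Real.log C.L) := by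
    have := Real.log_le_log hpos hup
    rwa [Real.log_pow, Real.log_pow] at this
  have e2 : -(j * (n * Real.log C.L)) ≤ Real.log (jac (C.it n p.1.1) p.1.2) := by
    have := Real.log_le_log (by positivity) hlo
    rw [Real.log_pow, Real.log_inv, Real.log_pow] at this
    linarith
  have e3 := abs_le.1 (bs_abs C n p.1.1)
  have hj : (0 : ℝ) ≤ j := Nat.cast_nonneg j
  unfold val
  rw [abs_le]
  constructor
  · nlinarith [mul_le_mul_of_nonneg_left e3.2 hj]
  · nlinarith [mul_le_mul_of_nonneg_left e3.1 hj]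

lemma bdd (n : ℕ) : BddAbove (Set.range (val C j n)) := by
  refine ⟨(j * (Real.log C.L + C.B)) * n, ?_⟩
  rintro _ ⟨p, rfl⟩
  exact (abs_le.1 (val_abs C h1 j n p)).2

lemma val_le (n : ℕ) (p : Pr C j) : val C j n p ≤ a C j n := le_ciSup (bdd C h1 j n) p

lemma jac_le (n : ℕ) (x : X) (U : Submodule ℝ E) (hU : U ≤ C.V x)
    (hd : Module.finrank ℝ U = j) :
    jac (C.it n x) U ≤ Real.exp (a C j n + j * C.bs n x) := by
  have h := val_le C h1 j n ⟨(x, U), hU, hd⟩
  have hp := jac_pos C h1 j n ⟨(x, U), hU, hd⟩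
  unfold val at h
  simp only at h hp
  rw [← Real.log_le_iff_le_exp hp]
  linarith

variable [Nonempty (Pr C j)]

lemma a_abs (n : ℕ) : |a C j n| ≤ (j * (Real.log C.L + C.B)) * n := by
  rw [abs_le]
  constructor
  · have p := Classical.arbitrary (Pr C j)
    exact ((abs_le.1 (val_abs C h1 j n p)).1).trans (val_le C h1 j n p)
  · exact ciSup_le fun p => (abs_le.1 (val_abs C h1 j n p)).2

lemma subadd : Subadditive (a C j) := by
  intro m n
  apply ciSup_le
  rintro ⟨⟨x, U⟩, hU, hd⟩
  have hL : 0 < C.L := zero_lt_one.trans_le C.one_le_L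
  have hmap : U.map (C.it n x) ≤ C.V (C.g^[n] x) := by
    rintro _ ⟨w, hw, rfl⟩
    exact K8.it_mem C n x w (hU hw)
  have hfr : Module.finrank ℝ (U.map (C.it n x)) = j := by
    rw [finrank_map _ _ _, hd]
    intro w hw h0
    have := it_lo C n x w (hU hw)
    rw [h0, norm_zero, mul_zero] at this
    exact norm_le_zero_iff.1 this
  have e1 := val_le C h1 j n ⟨(x, U), hU, hd⟩
  have e2 := val_le C h1 j m ⟨(C.g^[n] x, U.map (C.it n x)), hmap, hfr⟩
  have p1 := jac_pos C h1 j n ⟨(x, U), hU, hd⟩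
  have p2 := jac_pos C h1 j m ⟨(C.g^[n] x, U.map (C.it n x)), hmap, hfr⟩
  have hch := (h1 E).1 (C.it m (C.g^[n] x)) (C.it n x) U
  unfold val at e1 e2 ⊢
  simp only at e1 e2 p1 p2 ⊢
  rw [it_add, hch, Real.log_mul p2.ne' p1.ne', bs_add]
  linarith

lemma bddB : BddBelow (Set.range fun n => a C j n / n) := by
  refine ⟨-(j * (Real.log C.L + C.B)), ?_⟩
  rintro _ ⟨n, rfl⟩
  rcases Nat.eq_zero_or_pos n with rfl | hn
  · simp only [Nat.cast_zero, div_zero]
    have h := a_abs C h1 j 1
    have := (abs_nonneg _).trans h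
    simp at this
    linarith
  · have hn' : (0 : ℝ) < n := Nat.cast_pos.2 hn
    have h := (abs_le.1 (a_abs C h1 j n)).1
    show _ ≤ a C j n / n
    rw [le_div_iff₀ hn']
    linarith

end

end K3

open K3 in
theorem sK3 (h1 : SK1.{v}) (h2 : SK2.{v}) : SK3.{u, v} := by
  intro X _ E _ _ _ C r hr hV
  have hL1 := C.one_le_L
  have hL : 0 < C.L := zero_lt_one.trans_le hL1
  have hne : ∀ j, j ≤ r → Nonempty (Pr C j) := by
    intro j hj
    have x := Classical.arbitrary X
    obtain ⟨U, hU, hd⟩ := exists_sub (C.V x) j (by rw [hV]; exact hj)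
    exact ⟨⟨(x, U), hU, hd⟩⟩
  -- the limits
  have hsub : ∀ j, j ≤ r → Subadditive (a C j) := fun j hj => by
    haveI := hne j hj
    exact subadd C h1 j
  have hbd : ∀ j, j ≤ r → BddBelow (Set.range fun n => a C j n / n) := fun j hj => by
    haveI := hne j hj
    exact bddB C h1 j
  have hlim : ∀ j, j ≤ r → ∃ l : ℝ, Tendsto (fun n => a C j n / n) atTop (𝓝 l) ∧
      ∀ n : ℕ, l * n ≤ a C j n := by
    intro j hj
    refine ⟨(hsub j hj).lim, (hsub j hj).tendsto_lim (hbd j hj), ?_⟩
    intro n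
    rcases Nat.eq_zero_or_pos n with rfl | hn
    · have h := hsub j hj 0 0
      simp at h ⊢
      linarith
    · have hn' : (0 : ℝ) < n := Nat.cast_pos.2 hn
      have := (hsub j hj).lim_le_div (hbd j hj) hn.ne'
      rwa [le_div_iff₀ hn'] at this
  choose! Λ hΛ hΛle using hlim
  set lam := Λ 1 with hlam
  -- pointwise growth by `a 1`
  have hgr : ∀ (n : ℕ) (x : X), ∀ w ∈ C.V x,
      ‖C.it n x w‖ ≤ Real.exp (a C 1 n + C.bs n x) * ‖w‖ := by
    intro n x w hw
    rcases eq_or_ne w 0 with rfl | hw0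
    · simp
    · have hU : Submodule.span ℝ {w} ≤ C.V x := by
        rw [Submodule.span_le]
        simpa using hw
      have hd : Module.finrank ℝ (Submodule.span ℝ {w}) = 1 := finrank_span_singleton hw0
      have e1 := jac_le C h1 1 n x _ hU hd
      have hwp : 0 < ‖w‖ := norm_pos_iff.2 hw0
      have e2 := (h1 E).2.2.1 (C.it n x) (Submodule.span ℝ {w}) (‖C.it n x w‖ / ‖w‖)
        (by positivity) (by
          intro y hy
          obtain ⟨c, rfl⟩ := Submodule.mem_span_singleton.1 hy
          rw [map_smul, norm_smul, norm_smul]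
          apply le_of_eq
          field_simp)
      rw [hd, pow_one] at e2
      have e3 := e2.trans e1
      rw [div_le_iff₀ hwp] at e3
      simpa using e3
  -- eventual bound
  have hev : ∀ j, j ≤ r → ∀ L' : ℝ, Λ j < L' → ∀ᶠ n : ℕ in atTop, a C j n ≤ L' * n := by
    intro j hj L' hL'
    filter_upwards [(hΛ j hj).eventually (gt_mem_nhds hL'), eventually_gt_atTop 0] with n hn hn0
    have hn' : (0 : ℝ) < n := Nat.cast_pos.2 hn0
    rw [div_lt_iff₀ hn'] at hn
    exact hn.le
  -- `Λ j ≤ j lam`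
  have hajle : ∀ j, j ≤ r → ∀ n, a C j n ≤ j * a C 1 n := by
    intro j hj n
    haveI := hne j hj
    apply ciSup_le
    rintro ⟨⟨x, U⟩, hU, hd⟩
    have hp := jac_pos C h1 j n ⟨(x, U), hU, hd⟩
    have e1 := (h1 E).2.1 (C.it n x) U (Real.exp (a C 1 n + C.bs n x)) (Real.exp_pos _).le
      (fun w hw => hgr n x w (hU hw))
    rw [hd] at e1
    have e2 := Real.log_le_log hp e1
    rw [Real.log_pow, Real.log_exp] at e2
    unfold val
    simp only at e2 ⊢
    linarith
  have hΛj : ∀ j, j ≤ r → Λ j ≤ j * lam := by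
    intro j hj
    have t1 : Tendsto (fun n : ℕ => (j : ℝ) * (a C 1 n / n)) atTop (𝓝 (j * lam)) :=
      (hΛ 1 hr).const_mul _
    refine le_of_tendsto_of_tendsto' (hΛ j hj) t1 ?_
    intro n
    rw [← mul_div_assoc]
    exact div_le_div_of_nonneg_right (hajle j hj n) (Nat.cast_nonneg n)
  -- the multiplicity
  classical
  let P : ℕ → Prop := fun j => 1 ≤ j ∧ Λ j = j * lam
  let d := Nat.findGreatest P r
  have hP1 : P 1 := ⟨le_rfl, by simp [hlam]⟩
  have hPd : P d := Nat.findGreatest_spec hr hP1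
  have hdr : d ≤ r := Nat.findGreatest_le r
  have hmax : ∀ k, d < k → k ≤ r → ¬ P k := fun k hk hkr => Nat.findGreatest_is_greatest hk hkr
  clear_value d
  obtain ⟨hd1, hdΛ⟩ := hPd
  -- the gap
  have hgap : ∃ η : ℝ, 0 < η ∧ (d < r → Λ (d + 1) < (d + 1) * lam - η) := by
    by_cases hlt : d < r
    · have h := hΛj (d + 1) hlt
      have h' := hmax (d + 1) (Nat.lt_succ_self d) hlt
      have hne' : Λ (d + 1) ≠ ((d + 1 : ℕ) : ℝ) * lam := fun he => h' ⟨by omega, he⟩
      have hlt' := lt_of_le_of_ne h hne'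
      push_cast at hlt'
      refine ⟨(((d : ℝ) + 1) * lam - Λ (d + 1)) / 2, by linarith, fun _ => by linarith⟩
    · exact ⟨1, one_pos, fun h => absurd h hlt⟩
  obtain ⟨η, hη, hηgap⟩ := hgap
  refine ⟨lam, ?_, d, hd1, hdr, η, hη, ?_⟩
  · -- the first part
    intro ε hε
    have h := hev 1 hr (lam + ε) (by linarith)
    have hb : BddAbove (Set.range fun n : ℕ => a C 1 n - (lam + ε) * n) := by
      apply Filter.IsBoundedUnder.bddAbove_range
      refine ⟨0, ?_⟩
      rw [Filter.eventually_map]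
      filter_upwards [h] with n hn
      show a C 1 n - (lam + ε) * n ≤ 0
      linarith
    obtain ⟨M, hM⟩ := hb
    refine ⟨Real.exp M, ?_⟩
    intro n x w hw
    have hMn : a C 1 n - (lam + ε) * n ≤ M := hM ⟨n, rfl⟩
    calc ‖C.it n x w‖ ≤ Real.exp (a C 1 n + C.bs n x) * ‖w‖ := hgr n x w hw
      _ ≤ Real.exp (M + ((lam + ε) * n + C.bs n x)) * ‖w‖ := by
        apply mul_le_mul_of_nonneg_right _ (norm_nonneg _)
        apply Real.exp_le_exp.2
        linarith
      _ = Real.exp M * Real.exp ((lam + ε) * n + C.bs n x) * ‖w‖ := by rw [Real.exp_add]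
  · intro ε hε
    have hN1 := hev 1 hr (lam + ε) (by linarith)
    have hN2 : ∀ᶠ n : ℕ in atTop, d < r → a C (d + 1) n ≤ ((d + 1) * lam - η) * n := by
      by_cases hlt : d < r
      · filter_upwards [hev (d + 1) hlt _ (hηgap hlt)] with n hn _
        exact hn
      · exact Filter.Eventually.of_forall fun n h => absurd h hlt
    obtain ⟨N, hN1', hN2', hN3⟩ := (hN1.and (hN2.and (eventually_ge_atTop 1))).exists
    refine ⟨N, hN3, ?_, ?_, ?_⟩
    · intro x w hw
      refine (hgr N x w hw).trans ?_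
      apply mul_le_mul_of_nonneg_right _ (norm_nonneg _)
      apply Real.exp_le_exp.2
      linarith
    · intro x U hU hUd w hw
      by_cases hwU : w ∈ U
      · have e0 : infDist (C.it N x w) (U.map (C.it N x) : Set E) = 0 :=
          infDist_zero_of_mem (Submodule.mem_map_of_mem hwU)
        rw [e0, mul_zero]
        exact mul_nonneg (Real.exp_pos _).le infDist_nonneg
      · have hlt : d < r := by
          rcases lt_or_eq_of_le hdr with h | h
          · exact h
          · exfalso
            apply hwU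
            have : U = C.V x := Submodule.eq_of_le_of_finrank_eq hU (by rw [hUd, hV, h])
            rw [this]
            exact hw
        have e1 := (h2 E).1 (C.it N x) U w hwU
        rw [← e1]
        apply mul_le_mul_of_nonneg_right _ infDist_nonneg
        have hUw : U ⊔ Submodule.span ℝ {w} ≤ C.V x := by
          apply sup_le hU
          rw [Submodule.span_le]
          simpa using hw
        have hfr : Module.finrank ℝ (U ⊔ Submodule.span ℝ {w} : Submodule ℝ E) = d + 1 := by
          have hdis : U ⊓ Submodule.span ℝ {w} = ⊥ := by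
            rw [Submodule.eq_bot_iff]
            rintro y ⟨hy1, hy2⟩
            obtain ⟨c, rfl⟩ := Submodule.mem_span_singleton.1 hy2
            by_contra hne0
            have hc : c ≠ 0 := fun h => hne0 (by rw [h, zero_smul])
            exact hwU ((Submodule.smul_mem_iff _ hc).1 hy1)
          have hw0 : w ≠ 0 := fun h => hwU (h ▸ U.zero_mem)
          have := Submodule.finrank_sup_add_finrank_inf_eq U (Submodule.span ℝ {w})
          rw [hdis, finrank_bot, hUd, finrank_span_singleton hw0] at this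
          omega
        have e2 := jac_le C h1 (d + 1) N x _ hUw hfr
        refine e2.trans ?_
        apply Real.exp_le_exp.2
        have := hN2' hlt
        push_cast
        linarith
    · intro q
      haveI := hne d hdr
      have e1 := hΛle d hdr (N * q)
      have e2 : a C d (N * q) - 1 < a C d (N * q) := by linarith
      obtain ⟨⟨⟨x, U⟩, hU, hd⟩, hp⟩ := exists_lt_of_lt_ciSup e2
      refine ⟨x, U, hU, hd, ?_⟩
      have hpos := jac_pos C h1 d (N * q) ⟨(x, U), hU, hd⟩
      rw [← Real.le_log_iff_exp_le hpos]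
      unfold val at hp
      simp only at hp
      rw [hdΛ] at e1
      push_cast at e1
      simp only
      linarith

end Pool.Agent.Q192.PK
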