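import Pool.Agent.Q192.PK.Stm

/-!
Project PK: a recursion for real numbers (K4).
-/

set_option autoImplicit false

namespace Pool.Agent.Q192.PK

open Finset

/-- the exponential weights -/
noncomputable def wE (η : ℝ) (β : ℕ → ℝ) (l k : ℕ) : ℝ :=
  Real.exp (-η * (k - l : ℕ) + 2 * ∑ i ∈ Ico l k, β i)

theorem wE_self (η : ℝ) (β : ℕ → ℝ) (k : ℕ) : wE η β k k = 1 := by
  simp [wE]

theorem wE_succ (η : ℝ) (β : ℕ → ℝ) (l k : ℕ) (h : l ≤ k) :
    wE η β l (k + 1) = Real.exp (-η + 2 * β k) * wE η β l k := by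
  unfold wE
  rw [← Real.exp_add, Finset.sum_Ico_succ_top h, Nat.sub_add_comm h]
  congr 1
  push_cast
  ring

/-- the solution of the recursion -/
noncomputable def sg (C η θ : ℝ) (β dl : ℕ → ℝ) (k : ℕ) : ℝ :=
  wE η β 0 k * θ + C * Real.exp η * ∑ l ∈ range k, dl l * wE η β l k

theorem sg_zero (C η θ : ℝ) (β dl : ℕ → ℝ) : sg C η θ β dl 0 = θ := by
  simp [sg, wE_self]

theorem sg_succ (C η θ : ℝ) (β dl : ℕ → ℝ) (k : ℕ) :
    sg C η θ β dl (k + 1) = Real.exp (-η + 2 * β k) * sg C η θ β dl k +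
      C * Real.exp (2 * β k) * dl k := by
  unfold sg
  rw [wE_succ η β 0 k (Nat.zero_le _), Finset.sum_range_succ, wE_succ η β k k le_rfl, wE_self]
  have h1 : ∑ l ∈ range k, dl l * wE η β l (k + 1) =
      Real.exp (-η + 2 * β k) * ∑ l ∈ range k, dl l * wE η β l k := by
    rw [Finset.mul_sum]
    refine Finset.sum_congr rfl fun l hl => ?_
    rw [wE_succ η β l k (Finset.mem_range.1 hl).le]
    ring
  rw [h1]
  have h2 : Real.exp η * Real.exp (-η + 2 * β k) = Real.exp (2 * β k) := by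
    rw [← Real.exp_add]
    congr 1
    ring
  linear_combination (C * dl k) * h2

section bounds

variable {η α ρ τ : ℝ} {m : ℕ} {β : ℕ → ℝ}

theorem wE_le (hητ : 2 * τ + α ≤ η) (hβ : ∀ k, 0 ≤ β k)
    (hB : ∀ k ≤ m, ∑ i ∈ Finset.range k, β i ≤ τ * k) (k : ℕ) (hk : k ≤ m) :
    wE η β 0 k ≤ Real.exp (-α) ^ k := by
  unfold wE
  rw [← Real.exp_nat_mul, Real.exp_le_exp, ← Finset.range_eq_Ico, Nat.sub_zero]
  have h := hB k hk
  have hk0 : (0 : ℝ) ≤ k := Nat.cast_nonneg k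
  nlinarith

theorem wE_a (hρ : 0 < ρ) (hητ : 2 * τ + α ≤ η) (hρτ : ρ * Real.exp (2 * τ) ≤ Real.exp (-α))
    (hβ : ∀ k, 0 ≤ β k)
    (hB : ∀ k ≤ m, ∑ i ∈ Finset.range k, β i ≤ τ * k) (l k : ℕ) (hl : l ≤ k) (hk : k ≤ m) :
    ρ ^ l * wE η β l k ≤ Real.exp (-α) ^ k := by
  have h1 : ∑ i ∈ Ico l k, β i ≤ τ * k := by
    refine le_trans ?_ (hB k hk)
    refine Finset.sum_le_sum_of_subset_of_nonneg ?_ fun i _ _ => hβ i
    intro i hi
    exact Finset.mem_range.2 (Finset.mem_Ico.1 hi).2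
  obtain ⟨j, rfl⟩ := Nat.exists_eq_add_of_le hl
  have h2 : wE η β l (l + j) ≤ Real.exp (2 * τ) ^ l * Real.exp (-η + 2 * τ) ^ j := by
    unfold wE
    rw [← Real.exp_nat_mul, ← Real.exp_nat_mul, ← Real.exp_add, Real.exp_le_exp,
      Nat.add_sub_cancel_left]
    push_cast at h1 ⊢
    linarith
  have h3 : Real.exp (-η + 2 * τ) ≤ Real.exp (-α) := Real.exp_le_exp.2 (by linarith)
  calc ρ ^ l * wE η β l (l + j) ≤ ρ ^ l * (Real.exp (2 * τ) ^ l * Real.exp (-η + 2 * τ) ^ j) :=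
        mul_le_mul_of_nonneg_left h2 (by positivity)
    _ = (ρ * Real.exp (2 * τ)) ^ l * Real.exp (-η + 2 * τ) ^ j := by rw [mul_pow]; ring
    _ ≤ Real.exp (-α) ^ l * Real.exp (-α) ^ j := by
        gcongr
    _ = Real.exp (-α) ^ (l + j) := by rw [pow_add]

theorem wE_b (hρ : 0 < ρ) (hα : 0 < α) (hτ : 0 ≤ τ) (hητ : 2 * τ + α ≤ η)
    (hρτ : ρ * Real.exp (2 * τ) ≤ Real.exp (-α)) (hβ : ∀ k, 0 ≤ β k)
    (hB : ∀ k ≤ m, ∑ i ∈ Finset.Ico k m, β i ≤ τ * (m - k : ℕ)) (l k : ℕ) (hl : l ≤ k)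
    (hk : k ≤ m) :
    ρ ^ (m - l) * wE η β l k ≤ Real.exp (-α) ^ (m - k) * Real.exp (-α) ^ (k - l) := by
  have h1 : ∑ i ∈ Ico l k, β i ≤ τ * (m - l : ℕ) := by
    refine le_trans ?_ (hB l (hl.trans hk))
    refine Finset.sum_le_sum_of_subset_of_nonneg ?_ fun i _ _ => hβ i
    intro i hi
    rw [Finset.mem_Ico] at hi ⊢
    exact ⟨hi.1, lt_of_lt_of_le hi.2 hk⟩
  have h2 : wE η β l k ≤ Real.exp (2 * τ) ^ (m - l) * Real.exp (-α) ^ (k - l) := by
    unfold wE
    rw [← Real.exp_nat_mul, ← Real.exp_nat_mul, ← Real.exp_add, Real.exp_le_exp]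
    have h4 : (0 : ℝ) ≤ (k - l : ℕ) := Nat.cast_nonneg _
    nlinarith
  have hx1 : Real.exp (-α) ≤ 1 := Real.exp_le_one_iff.2 (by linarith)
  have hx0 : 0 < Real.exp (-α) := Real.exp_pos _
  calc ρ ^ (m - l) * wE η β l k ≤
        ρ ^ (m - l) * (Real.exp (2 * τ) ^ (m - l) * Real.exp (-α) ^ (k - l)) :=
        mul_le_mul_of_nonneg_left h2 (by positivity)
    _ = (ρ * Real.exp (2 * τ)) ^ (m - l) * Real.exp (-α) ^ (k - l) := by rw [mul_pow]; ring
    _ ≤ Real.exp (-α) ^ (m - l) * Real.exp (-α) ^ (k - l) := by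
        gcongr
    _ ≤ Real.exp (-α) ^ (m - k) * Real.exp (-α) ^ (k - l) := by
        refine mul_le_mul_of_nonneg_right ?_ (by positivity)
        exact pow_le_pow_of_le_one hx0.le hx1 (by omega)

/-- The bound for the solution of the recursion. -/
theorem sg_le {C θ c : ℝ} (hC : 1 ≤ C) (hθ : 0 < θ) (hc : 0 < c) (hρ : 0 < ρ) (hα : 0 < α)
    (hτ : 0 ≤ τ) (hητ : 2 * τ + α ≤ η)
    (hρτ : ρ * Real.exp (2 * τ) ≤ Real.exp (-α)) (hβ : ∀ k, 0 ≤ β k)
    (hB1 : ∀ k ≤ m, ∑ i ∈ Finset.range k, β i ≤ τ * k)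
    (hB : ∀ k ≤ m, ∑ i ∈ Finset.Ico k m, β i ≤ τ * (m - k : ℕ)) (k : ℕ) (hk : k ≤ m) :
    sg C η θ β (fun l => c * (ρ ^ l + ρ ^ (m - l))) k ≤
      Real.exp (-α) ^ k * θ + C * Real.exp η * c * (k * Real.exp (-α) ^ k +
        (1 - Real.exp (-α))⁻¹ * Real.exp (-α) ^ (m - k)) := by
  have hx1 : Real.exp (-α) < 1 := by
    rw [Real.exp_lt_one_iff]
    linarith
  have hx0 : 0 < Real.exp (-α) := Real.exp_pos _
  have h1 := wE_le hητ hβ hB1 k hk
  have h2 : ∑ l ∈ range k, (c * (ρ ^ l + ρ ^ (m - l))) * wE η β l k ≤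
      c * (k * Real.exp (-α) ^ k + (1 - Real.exp (-α))⁻¹ * Real.exp (-α) ^ (m - k)) := by
    have h3 : ∀ l ∈ range k, (c * (ρ ^ l + ρ ^ (m - l))) * wE η β l k ≤
        c * (Real.exp (-α) ^ k + Real.exp (-α) ^ (m - k) * Real.exp (-α) ^ (k - 1 - l)) := by
      intro l hl
      have hl' : l < k := Finset.mem_range.1 hl
      have a := wE_a hρ hητ hρτ hβ hB1 l k hl'.le hk
      have b := wE_b hρ hα hτ hητ hρτ hβ hB l k hl'.le hk
      have d : Real.exp (-α) ^ (k - l) ≤ Real.exp (-α) ^ (k - 1 - l) :=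
        pow_le_pow_of_le_one hx0.le hx1.le (by omega)
      have e : Real.exp (-α) ^ (m - k) * Real.exp (-α) ^ (k - l) ≤
          Real.exp (-α) ^ (m - k) * Real.exp (-α) ^ (k - 1 - l) :=
        mul_le_mul_of_nonneg_left d (by positivity)
      calc (c * (ρ ^ l + ρ ^ (m - l))) * wE η β l k =
          c * (ρ ^ l * wE η β l k + ρ ^ (m - l) * wE η β l k) := by ring
        _ ≤ _ := mul_le_mul_of_nonneg_left (by linarith) hc.le
    refine (Finset.sum_le_sum h3).trans ?_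
    rw [← Finset.mul_sum, Finset.sum_add_distrib, Finset.sum_const, Finset.card_range,
      nsmul_eq_mul, ← Finset.mul_sum]
    refine mul_le_mul_of_nonneg_left ?_ hc.le
    have h4 : ∑ l ∈ range k, Real.exp (-α) ^ (k - 1 - l) ≤ (1 - Real.exp (-α))⁻¹ := by
      rw [Finset.sum_range_reflect (fun j => Real.exp (-α) ^ j) k,
        ← tsum_geometric_of_lt_one hx0.le hx1]
      exact (summable_geometric_of_lt_one hx0.le hx1).sum_le_tsum _ fun i _ => by positivity
    have h5 := mul_le_mul_of_nonneg_left h4 (show 0 ≤ Real.exp (-α) ^ (m - k) by positivity)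
    linarith
  unfold sg
  have h6 : wE η β 0 k * θ ≤ Real.exp (-α) ^ k * θ := mul_le_mul_of_nonneg_right h1 hθ.le
  have h7 := mul_le_mul_of_nonneg_left h2 (show 0 ≤ C * Real.exp η by positivity)
  linarith

end bounds

/-- K4. -/
theorem sK4 : SK4 := by
  intro C η α ρ τ hC hα hρ hρ1 hτ hητ hρτ
  have hx1 : Real.exp (-α) < 1 := by
    rw [Real.exp_lt_one_iff]
    linarith
  have hx0 : 0 < Real.exp (-α) := Real.exp_pos _
  obtain ⟨x, hx⟩ : ∃ x, x = Real.exp (-α) := ⟨_, rfl⟩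
  obtain ⟨G, hG⟩ : ∃ G, G = (1 - x)⁻¹ := ⟨_, rfl⟩
  obtain ⟨R, hR⟩ : ∃ R, R = (1 - ρ)⁻¹ := ⟨_, rfl⟩
  obtain ⟨G2, hG2⟩ : ∃ G2, G2 = ∑' k : ℕ, (k : ℝ) * x ^ k := ⟨_, rfl⟩
  rw [← hx] at hx1 hx0
  have hG1 : 1 ≤ G := by
    rw [hG]
    exact (one_le_inv₀ (by linarith)).2 (by linarith)
  have hR1 : 1 ≤ R := by
    rw [hR]
    exact (one_le_inv₀ (by linarith)).2 (by linarith)
  have hsum2 : Summable fun k : ℕ => (k : ℝ) * x ^ k := by
    have := summable_pow_mul_geometric_of_norm_lt_one 1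
      (show ‖x‖ < 1 by rw [Real.norm_of_nonneg hx0.le]; exact hx1)
    simpa using this
  have hG20 : 0 ≤ G2 := by
    rw [hG2]
    exact tsum_nonneg fun k => by positivity
  have hgeo : ∀ s : Finset ℕ, ∑ k ∈ s, x ^ k ≤ G := by
    intro s
    rw [hG, ← tsum_geometric_of_lt_one hx0.le hx1]
    exact (summable_geometric_of_lt_one hx0.le hx1).sum_le_tsum _ fun i _ => by positivity
  have hgeoρ : ∀ s : Finset ℕ, ∑ k ∈ s, ρ ^ k ≤ R := by
    intro s
    rw [hR, ← tsum_geometric_of_lt_one hρ.le hρ1]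
    exact (summable_geometric_of_lt_one hρ.le hρ1).sum_le_tsum _ fun i _ => by positivity
  have hgeo2 : ∀ s : Finset ℕ, ∑ k ∈ s, (k : ℝ) * x ^ k ≤ G2 := by
    intro s
    rw [hG2]
    exact hsum2.sum_le_tsum _ fun i _ => by positivity
  have hkx : ∀ k : ℕ, (k : ℝ) * x ^ k ≤ G2 := by
    intro k
    have := hgeo2 {k}
    simpa using this
  -- constants
  obtain ⟨K1, hK1⟩ : ∃ K1, K1 = 2 * C * G := ⟨_, rfl⟩
  obtain ⟨K3, hK3⟩ : ∃ K3, K3 = C * Real.exp η * (G2 + G * G) := ⟨_, rfl⟩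
  obtain ⟨K2, hK2⟩ : ∃ K2, K2 = 2 * C * K3 + 2 * C * R := ⟨_, rfl⟩
  have hK10 : 0 < K1 := by rw [hK1]; positivity
  have hK30 : 0 < K3 := by rw [hK3]; positivity
  have hK20 : 0 < K2 := by rw [hK2]; positivity
  refine ⟨(8 * K1)⁻¹, by positivity, fun θ hθ hθ0 => ?_⟩
  obtain ⟨m₀, hm₀⟩ := exists_pow_lt_of_lt_one (show (0 : ℝ) < 1 / 16 by norm_num) hx1
  refine ⟨min (8 * K2)⁻¹ (θ / (16 * K3)), by positivity, m₀, ?_⟩
  intro c hc hcc m hm β t n hβ hB1 hB2 ht hn hn0 ht0 hst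
  have hc1 : c ≤ (8 * K2)⁻¹ := hcc.trans (min_le_left _ _)
  have hc2 : c ≤ θ / (16 * K3) := hcc.trans (min_le_right _ _)
  -- the bounds
  obtain ⟨dl, hdl⟩ : ∃ dl : ℕ → ℝ, dl = fun l => c * (ρ ^ l + ρ ^ (m - l)) := ⟨_, rfl⟩
  have hdl' : ∀ l, c * (ρ ^ l + ρ ^ (m - l)) = dl l := fun l => by rw [hdl]
  have hdl0 : ∀ l, 0 ≤ dl l := fun l => by rw [hdl]; positivity
  obtain ⟨T, hT⟩ : ∃ T : ℕ → ℝ, T = fun k => x ^ k * θ + C * Real.exp η * c *
    (k * x ^ k + G * x ^ (m - k)) := ⟨_, rfl⟩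
  have hT0 : ∀ k, 0 ≤ T k := fun k => by rw [hT]; positivity
  have hsgT : ∀ k ≤ m, sg C η θ β dl k ≤ T k := by
    intro k hk
    have := sg_le hC hθ hc hρ hα hτ hητ hρτ hβ hB1 hB2 k hk
    rw [← hx, ← hG] at this
    rw [hdl, hT]
    exact this
  obtain ⟨b, hb⟩ : ∃ b : ℕ → ℝ, b = fun k => C * (2 * T k + dl k) := ⟨_, rfl⟩
  have hb0 : ∀ k, 0 ≤ b k := fun k => by
    rw [hb]
    have := hT0 k
    have := hdl0 k
    positivity
  have hrefl : ∀ f : ℕ → ℝ, ∑ k ∈ range (m + 1), f (m - k) = ∑ k ∈ range (m + 1), f k := by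
    intro f
    have := Finset.sum_range_reflect f (m + 1)
    rw [← this]
    refine Finset.sum_congr rfl fun k _ => ?_
    congr 1
  have hbs : ∑ k ∈ range (m + 1), b k ≤ 1 / 4 := by
    have e1 : ∑ k ∈ range (m + 1), b k = C * (2 * ((∑ k ∈ range (m + 1), x ^ k) * θ +
        C * Real.exp η * c * (∑ k ∈ range (m + 1), (k : ℝ) * x ^ k +
          G * ∑ k ∈ range (m + 1), x ^ (m - k))) + c * (∑ k ∈ range (m + 1), ρ ^ k +
          ∑ k ∈ range (m + 1), ρ ^ (m - k))) := by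
      rw [hb, ← Finset.mul_sum, Finset.sum_add_distrib, ← Finset.mul_sum, hT, hdl]
      simp only [Finset.sum_add_distrib, ← Finset.mul_sum, ← Finset.sum_mul]
    rw [e1, hrefl (fun j => x ^ j), hrefl (fun j => ρ ^ j)]
    have f1 := hgeo (range (m + 1))
    have f2 := hgeo2 (range (m + 1))
    have f3 := hgeoρ (range (m + 1))
    have g1 : C * (2 * ((∑ k ∈ range (m + 1), x ^ k) * θ +
        C * Real.exp η * c * (∑ k ∈ range (m + 1), (k : ℝ) * x ^ k +
          G * ∑ k ∈ range (m + 1), x ^ k)) + c * (∑ k ∈ range (m + 1), ρ ^ k +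
          ∑ k ∈ range (m + 1), ρ ^ k)) ≤
        C * (2 * (G * θ + C * Real.exp η * c * (G2 + G * G)) + c * (R + R)) := by
      gcongr
    have g2 : C * (2 * (G * θ + C * Real.exp η * c * (G2 + G * G)) + c * (R + R)) =
        K1 * θ + K2 * c := by
      rw [hK1, hK2, hK3]
      ring
    have g3 : K1 * θ ≤ 1 / 8 := by
      calc K1 * θ ≤ K1 * (8 * K1)⁻¹ := by gcongr
        _ = 1 / 8 := by field_simp
    have g4 : K2 * c ≤ 1 / 8 := by
      calc K2 * c ≤ K2 * (8 * K2)⁻¹ := by gcongr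
        _ = 1 / 8 := by field_simp
    linarith
  have hbp : ∀ k ≤ m, ∑ l ∈ range (k + 1), b l ≤ 1 / 4 := by
    intro k hk
    refine le_trans ?_ hbs
    exact Finset.sum_le_sum_of_subset_of_nonneg (Finset.range_mono (by omega)) fun i _ _ => hb0 i
  -- the induction
  have main : ∀ k ≤ m, ∃ p : ℝ, 1 - ∑ l ∈ range k, b l ≤ p ∧ p ≤ 1 ∧
      Real.exp (-∑ i ∈ range k, β i) * p * n 0 ≤ n k ∧ t k * p ≤ sg C η θ β dl k := by
    intro k
    induction k with
    | zero =>
      intro _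
      refine ⟨1, by simp, le_rfl, by simp, ?_⟩
      rw [sg_zero, mul_one]
      exact ht0
    | succ k ih =>
      intro hk
      obtain ⟨p, hp1, hp2, hpn, hpt⟩ := ih (by omega)
      have hbk := hbp k (by omega)
      rw [Finset.sum_range_succ] at hbk
      have hbk0 := hb0 k
      have hp3 : 3 / 4 ≤ p := by linarith
      have htk := ht k (by omega)
      have htT : t k ≤ 2 * T k := by
        have h1 := hsgT k (by omega)
        nlinarith
      have hξ : C * (t k + dl k) ≤ b k := by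
        rw [hb]
        have : t k + dl k ≤ 2 * T k + dl k := by linarith
        exact mul_le_mul_of_nonneg_left this (by linarith)
      have hξ0 : 0 ≤ C * (t k + dl k) := by
        have := hdl0 k
        positivity
      have hbk4 : b k ≤ 1 / 4 := by
        have : 0 ≤ ∑ l ∈ range k, b l := Finset.sum_nonneg fun i _ => hb0 i
        linarith
      obtain ⟨s1, s2⟩ := hst k (by omega) (by rw [hdl']; linarith)
      rw [hdl'] at s1 s2
      obtain ⟨ξ, hξd⟩ : ∃ ξ, ξ = C * (t k + dl k) := ⟨_, rfl⟩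
      rw [← hξd] at s1 hξ hξ0
      have hnk : 0 < n k := by
        refine lt_of_lt_of_le ?_ hpn
        positivity
      refine ⟨p * (1 - ξ), ?_, ?_, ?_, ?_⟩
      · rw [Finset.sum_range_succ]
        nlinarith
      · nlinarith
      · refine le_trans ?_ s1
        rw [Finset.sum_range_succ, neg_add, Real.exp_add]
        have h1 : 0 ≤ Real.exp (-β k) * (1 - ξ) := mul_nonneg (Real.exp_pos _).le (by linarith)
        have h2 := mul_le_mul_of_nonneg_left hpn h1
        linarith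
      · rw [sg_succ]
        have htk1 := ht (k + 1) hk
        have h1 : t (k + 1) * (Real.exp (-β k) * (1 - ξ)) ≤
            Real.exp (-η + β k) * t k + C * dl k := by
          have h2 := (mul_le_mul_of_nonneg_left s1 htk1).trans s2
          have h3 : t (k + 1) * (Real.exp (-β k) * (1 - ξ)) * n k ≤
              (Real.exp (-η + β k) * t k + C * dl k) * n k := by linarith
          exact le_of_mul_le_mul_right h3 hnk
        have h4 : t (k + 1) * (1 - ξ) ≤ Real.exp (-η + 2 * β k) * t k +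
            C * Real.exp (2 * β k) * dl k := by
          have h5 := mul_le_mul_of_nonneg_left h1 (Real.exp_pos (β k)).le
          have h6 : Real.exp (β k) * Real.exp (-β k) = 1 := by
            rw [← Real.exp_add, add_neg_cancel, Real.exp_zero]
          have h7 : Real.exp (β k) * Real.exp (-η + β k) = Real.exp (-η + 2 * β k) := by
            rw [← Real.exp_add]
            congr 1
            ring
          have h8 : Real.exp (β k) ≤ Real.exp (2 * β k) := by
            rw [Real.exp_le_exp]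
            linarith [hβ k]
          have h9 : C * Real.exp (β k) * dl k ≤ C * Real.exp (2 * β k) * dl k := by
            have := hdl0 k
            gcongr
          have e1 : Real.exp (β k) * (t (k + 1) * (Real.exp (-β k) * (1 - ξ))) =
              t (k + 1) * (1 - ξ) := by
            linear_combination (t (k + 1) * (1 - ξ)) * h6
          have e2 : Real.exp (β k) * (Real.exp (-η + β k) * t k + C * dl k) =
              Real.exp (-η + 2 * β k) * t k + C * Real.exp (β k) * dl k := by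
            linear_combination (t k) * h7
          rw [e1, e2] at h5
          linarith
        have hp0 : 0 ≤ p := by linarith
        have h10 := mul_le_mul_of_nonneg_left h4 hp0
        have h11 := mul_le_mul_of_nonneg_left hpt (Real.exp_pos (-η + 2 * β k)).le
        have h12 : p * (C * Real.exp (2 * β k) * dl k) ≤ C * Real.exp (2 * β k) * dl k := by
          have : 0 ≤ C * Real.exp (2 * β k) * dl k := by
            have := hdl0 k
            positivity
          nlinarith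
        calc t (k + 1) * (p * (1 - ξ)) = p * (t (k + 1) * (1 - ξ)) := by ring
          _ ≤ p * (Real.exp (-η + 2 * β k) * t k + C * Real.exp (2 * β k) * dl k) := h10
          _ = Real.exp (-η + 2 * β k) * (t k * p) + p * (C * Real.exp (2 * β k) * dl k) := by
              ring
          _ ≤ _ := add_le_add h11 h12
  obtain ⟨p, hp1, hp2, hpn, hpt⟩ := main m le_rfl
  have hbm : ∑ l ∈ range m, b l ≤ 1 / 4 := by
    refine le_trans ?_ hbs
    exact Finset.sum_le_sum_of_subset_of_nonneg (Finset.range_mono (by omega)) fun i _ _ => hb0 i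
  have hp3 : 3 / 4 ≤ p := by linarith
  constructor
  · have htm := ht m le_rfl
    have h1 := hsgT m le_rfl
    have h2 : t m ≤ 2 * T m := by nlinarith [hT0 m]
    have h3 : x ^ m ≤ 1 / 16 := (pow_le_pow_of_le_one hx0.le hx1.le hm).trans hm₀.le
    have h4 : T m ≤ 1 / 16 * θ + K3 * c := by
      rw [hT, hK3]
      simp only [Nat.sub_self, pow_zero, mul_one]
      have h5 := hkx m
      have h6 : G ≤ G * G := by nlinarith
      have h7 : C * Real.exp η * c * (m * x ^ m + G) ≤ C * Real.exp η * c * (G2 + G * G) := by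
        gcongr
      have h8 : x ^ m * θ ≤ 1 / 16 * θ := mul_le_mul_of_nonneg_right h3 hθ.le
      linarith
    have h9 : K3 * c ≤ θ / 16 := by
      calc K3 * c ≤ K3 * (θ / (16 * K3)) := by gcongr
        _ = θ / 16 := by field_simp
    linarith
  · refine le_trans ?_ hpn
    have h1 := hB1 m le_rfl
    have h2 : Real.exp (-τ * m) ≤ Real.exp (-∑ i ∈ range m, β i) := by
      rw [Real.exp_le_exp]
      linarith
    have h3 : 1 / 2 * Real.exp (-τ * m) ≤ Real.exp (-∑ i ∈ range m, β i) * p := by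
      have := Real.exp_pos (-τ * m)
      nlinarith [Real.exp_pos (-∑ i ∈ range m, β i)]
    exact mul_le_mul_of_nonneg_right h3 hn0.le

end Pool.Agent.Q192.PK
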