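import Pool.Agent.Q192.PK.Stm

/-!
# Project PK, lemma K5: good times with the same label

Proof by helper299.
-/

set_option autoImplicit false

open Filter Topology Set Metric

namespace Pool.Agent.Q192.PK

section

open Classical in
/-- The number of forward bad times. -/
theorem K5_fwd (B : ℕ → ℝ) (hB : Monotone B) (τ : ℝ) (hτ : 0 < τ) (q : ℕ) :
    ∀ j a : ℕ, a + j = q →
      τ * (((Finset.Ico a q).filter
        (fun k : ℕ => ∃ k' : ℕ, k < k' ∧ k' ≤ q ∧ τ * ((k' : ℝ) - k) < B k' - B k)).card : ℝ) ≤
      B q - B a := by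
  intro j
  induction j using Nat.strong_induction_on with
  | _ j ih =>
    intro a haj
    rcases Nat.eq_zero_or_pos j with hj | hj
    · have : a = q := by omega
      subst this
      simp
    · by_cases hbad : ∃ k', a < k' ∧ k' ≤ q ∧ τ * ((k' : ℝ) - a) < B k' - B a
      · obtain ⟨k', h1, h2, h3⟩ := hbad
        have h4 := ih (q - k') (by omega) k' (by omega)
        have h5 : (((Finset.Ico a q).filter
            (fun k : ℕ => ∃ k' : ℕ, k < k' ∧ k' ≤ q ∧ τ * ((k' : ℝ) - k) < B k' - B k)).card : ℝ) ≤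
            ((k' : ℝ) - a) + (((Finset.Ico k' q).filter
            (fun k : ℕ => ∃ k' : ℕ, k < k' ∧ k' ≤ q ∧ τ * ((k' : ℝ) - k) < B k' - B k)).card : ℝ) := by
          have h6 : ((Finset.Ico a q).filter
            (fun k : ℕ => ∃ k' : ℕ, k < k' ∧ k' ≤ q ∧ τ * ((k' : ℝ) - k) < B k' - B k)).card ≤
            (k' - a) + ((Finset.Ico k' q).filter
            (fun k : ℕ => ∃ k' : ℕ, k < k' ∧ k' ≤ q ∧ τ * ((k' : ℝ) - k) < B k' - B k)).card := by
            calc _ ≤ ((Finset.Ico a k') ∪ ((Finset.Ico k' q).filter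
                (fun k : ℕ => ∃ k' : ℕ, k < k' ∧ k' ≤ q ∧ τ * ((k' : ℝ) - k) < B k' - B k))).card := by
                  refine Finset.card_le_card ?_
                  intro x hx
                  rw [Finset.mem_filter, Finset.mem_Ico] at hx
                  rw [Finset.mem_union]
                  by_cases hxk : x < k'
                  · left; rw [Finset.mem_Ico]; exact ⟨hx.1.1, hxk⟩
                  · right; rw [Finset.mem_filter, Finset.mem_Ico]
                    exact ⟨⟨by omega, hx.1.2⟩, hx.2⟩
              _ ≤ _ := by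
                  refine (Finset.card_union_le _ _).trans ?_
                  rw [Nat.card_Ico]
          have h7 : ((k' - a : ℕ) : ℝ) = (k' : ℝ) - a := by
            rw [Nat.cast_sub h1.le]
          rw [← h7]
          exact_mod_cast h6
        have h8 := mul_le_mul_of_nonneg_left h5 hτ.le
        rw [mul_add] at h8
        linarith
      · have h4 := ih (j - 1) (by omega) (a + 1) (by omega)
        have h5 : ((Finset.Ico a q).filter
            (fun k : ℕ => ∃ k' : ℕ, k < k' ∧ k' ≤ q ∧ τ * ((k' : ℝ) - k) < B k' - B k)) ⊆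
            ((Finset.Ico (a + 1) q).filter
            (fun k : ℕ => ∃ k' : ℕ, k < k' ∧ k' ≤ q ∧ τ * ((k' : ℝ) - k) < B k' - B k)) := by
          intro x hx
          rw [Finset.mem_filter, Finset.mem_Ico] at hx ⊢
          refine ⟨⟨?_, hx.1.2⟩, hx.2⟩
          rcases Nat.eq_or_lt_of_le hx.1.1 with h | h
          · exact absurd (h ▸ hx.2) hbad
          · exact h
        have h6 : (((Finset.Ico a q).filter
            (fun k : ℕ => ∃ k' : ℕ, k < k' ∧ k' ≤ q ∧ τ * ((k' : ℝ) - k) < B k' - B k)).card : ℝ) ≤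
            (((Finset.Ico (a + 1) q).filter
            (fun k : ℕ => ∃ k' : ℕ, k < k' ∧ k' ≤ q ∧ τ * ((k' : ℝ) - k) < B k' - B k)).card : ℝ) := by
          exact_mod_cast Finset.card_le_card h5
        have h7 := mul_le_mul_of_nonneg_left h6 hτ.le
        have h8 := hB (Nat.le_succ a)
        have h9 : B a ≤ B (a + 1) := h8
        linarith

open Classical in
/-- The number of backward bad times. -/
theorem K5_bwd (B : ℕ → ℝ) (hB : Monotone B) (τ : ℝ) (hτ : 0 < τ) :
    ∀ b : ℕ,
      τ * (((Finset.Ioc 0 b).filter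
        (fun k : ℕ => ∃ k' : ℕ, k' < k ∧ τ * ((k : ℝ) - k') < B k - B k')).card : ℝ) ≤
      B b - B 0 := by
  intro b
  induction b using Nat.strong_induction_on with
  | _ b ih =>
    rcases Nat.eq_zero_or_pos b with hb | hb
    · subst hb
      simp
    · by_cases hbad : ∃ k', k' < b ∧ τ * ((b : ℝ) - k') < B b - B k'
      · obtain ⟨k', h1, h3⟩ := hbad
        have h4 := ih k' h1
        have h5 : (((Finset.Ioc 0 b).filter
            (fun k : ℕ => ∃ k' : ℕ, k' < k ∧ τ * ((k : ℝ) - k') < B k - B k')).card : ℝ) ≤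
            ((b : ℝ) - k') + (((Finset.Ioc 0 k').filter
            (fun k : ℕ => ∃ k' : ℕ, k' < k ∧ τ * ((k : ℝ) - k') < B k - B k')).card : ℝ) := by
          have h6 : ((Finset.Ioc 0 b).filter
            (fun k : ℕ => ∃ k' : ℕ, k' < k ∧ τ * ((k : ℝ) - k') < B k - B k')).card ≤
            (b - k') + ((Finset.Ioc 0 k').filter
            (fun k : ℕ => ∃ k' : ℕ, k' < k ∧ τ * ((k : ℝ) - k') < B k - B k')).card := by
            calc _ ≤ ((Finset.Ioc k' b) ∪ ((Finset.Ioc 0 k').filter
                (fun k : ℕ => ∃ k' : ℕ, k' < k ∧ τ * ((k : ℝ) - k') < B k - B k'))).card := by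
                  refine Finset.card_le_card ?_
                  intro x hx
                  rw [Finset.mem_filter, Finset.mem_Ioc] at hx
                  rw [Finset.mem_union]
                  by_cases hxk : k' < x
                  · left; rw [Finset.mem_Ioc]; exact ⟨hxk, hx.1.2⟩
                  · right; rw [Finset.mem_filter, Finset.mem_Ioc]
                    exact ⟨⟨hx.1.1, by omega⟩, hx.2⟩
              _ ≤ _ := by
                  refine (Finset.card_union_le _ _).trans ?_
                  rw [Nat.card_Ioc]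
          have h7 : ((b - k' : ℕ) : ℝ) = (b : ℝ) - k' := by
            rw [Nat.cast_sub h1.le]
          rw [← h7]
          exact_mod_cast h6
        have h8 := mul_le_mul_of_nonneg_left h5 hτ.le
        rw [mul_add] at h8
        linarith
      · have h4 := ih (b - 1) (by omega)
        have h5 : ((Finset.Ioc 0 b).filter
            (fun k : ℕ => ∃ k' : ℕ, k' < k ∧ τ * ((k : ℝ) - k') < B k - B k')) ⊆
            ((Finset.Ioc 0 (b - 1)).filter
            (fun k : ℕ => ∃ k' : ℕ, k' < k ∧ τ * ((k : ℝ) - k') < B k - B k')) := by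
          intro x hx
          rw [Finset.mem_filter, Finset.mem_Ioc] at hx ⊢
          refine ⟨⟨hx.1.1, ?_⟩, hx.2⟩
          rcases Nat.eq_or_lt_of_le hx.1.2 with h | h
          · exact absurd (h ▸ hx.2) hbad
          · omega
        have h6 : (((Finset.Ioc 0 b).filter
            (fun k : ℕ => ∃ k' : ℕ, k' < k ∧ τ * ((k : ℝ) - k') < B k - B k')).card : ℝ) ≤
            (((Finset.Ioc 0 (b - 1)).filter
            (fun k : ℕ => ∃ k' : ℕ, k' < k ∧ τ * ((k : ℝ) - k') < B k - B k')).card : ℝ) := by
          exact_mod_cast Finset.card_le_card h5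
        have h7 := mul_le_mul_of_nonneg_left h6 hτ.le
        have h8 : B (b - 1) ≤ B b := hB (Nat.sub_le b 1)
        linarith

end

theorem sK5 : SK5 := by
  classical
  intro M m₀ τ hτ
  -- the size
  obtain ⟨q, hq⟩ : ∃ q : ℕ, 2 * ((M : ℝ) * (m₀ + 1) + 2 / τ + 2) ≤ q := exists_nat_ge _
  refine ⟨q, ?_⟩
  intro β hβ hsum lab
  set B : ℕ → ℝ := fun k => ∑ l ∈ Finset.range k, β l with hBdef
  have hB : Monotone B := by
    refine monotone_nat_of_le_succ (fun k => ?_)
    simp only [hBdef]
    rw [Finset.sum_range_succ]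
    linarith [hβ k]
  have hB0 : B 0 = 0 := by simp [hBdef]
  set F : Finset ℕ := (Finset.Ico 0 q).filter
        (fun k : ℕ => ∃ k' : ℕ, k < k' ∧ k' ≤ q ∧ τ * ((k' : ℝ) - k) < B k' - B k) with hF
  set G : Finset ℕ := (Finset.Ioc 0 q).filter
        (fun k : ℕ => ∃ k' : ℕ, k' < k ∧ τ * ((k : ℝ) - k') < B k - B k') with hG
  have hFc : τ * (F.card : ℝ) ≤ τ / 8 * q + 1 := by
    have h1 := K5_fwd B hB τ hτ q q 0 (by omega)
    rw [hB0, sub_zero] at h1
    exact h1.trans hsum
  have hGc : τ * (G.card : ℝ) ≤ τ / 8 * q + 1 := by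
    have h1 := K5_bwd B hB τ hτ q
    rw [hB0, sub_zero] at h1
    exact h1.trans hsum
  have hF2 : (F.card : ℝ) ≤ q / 8 + 1 / τ := by
    have : (F.card : ℝ) = τ * F.card / τ := by field_simp
    rw [this, div_le_iff₀ hτ]
    refine hFc.trans (le_of_eq ?_)
    field_simp
  have hG2 : (G.card : ℝ) ≤ q / 8 + 1 / τ := by
    have : (G.card : ℝ) = τ * G.card / τ := by field_simp
    rw [this, div_le_iff₀ hτ]
    refine hGc.trans (le_of_eq ?_)
    field_simp
  set S : Finset ℕ := Finset.range (q + 1) \ (F ∪ G) with hS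
  have hScard : (M : ℝ) * (m₀ + 1) < S.card := by
    have h1 : (Finset.range (q + 1)).card ≤ S.card + (F ∪ G).card := by
      have := Finset.card_le_card_sdiff_add_card (s := Finset.range (q + 1)) (t := F ∪ G)
      simpa [hS] using this
    have h2 : (F ∪ G).card ≤ F.card + G.card := Finset.card_union_le _ _
    rw [Finset.card_range] at h1
    have h3 : ((q : ℝ) + 1) ≤ S.card + (F.card + G.card) := by
      have : q + 1 ≤ S.card + (F.card + G.card) := by omega
      exact_mod_cast this
    have h4 : 2 / τ = 1 / τ + 1 / τ := by ring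
    have h5 : 0 ≤ (q : ℝ) := Nat.cast_nonneg q
    have h6 : 0 ≤ 2 / τ := by positivity
    nlinarith
  have hpig : ∃ y ∈ (Finset.univ : Finset (Fin M)),
      m₀ + 1 < (S.filter (fun k => lab k = y)).card := by
    refine Finset.exists_lt_card_fiber_of_mul_lt_card_of_maps_to (fun a _ => Finset.mem_univ _) ?_
    rw [Finset.card_univ, Fintype.card_fin]
    exact_mod_cast hScard
  obtain ⟨y, -, hy⟩ := hpig
  set T := S.filter (fun k => lab k = y) with hT
  have hTne : T.Nonempty := by
    rw [← Finset.card_pos]; omega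
  set i := T.min' hTne with hi
  set j := T.max' hTne with hj
  have hiT : i ∈ T := Finset.min'_mem _ _
  have hjT : j ∈ T := Finset.max'_mem _ _
  have hij : i + m₀ ≤ j := by
    by_contra hcon
    have hsub : T ⊆ Finset.Icc i j := by
      intro x hx
      rw [Finset.mem_Icc]
      exact ⟨Finset.min'_le _ _ hx, Finset.le_max' _ _ hx⟩
    have h1 := Finset.card_le_card hsub
    rw [Nat.card_Icc] at h1
    omega
  obtain ⟨m, hm⟩ := Nat.exists_eq_add_of_le (show i ≤ j by omega)
  rw [hT, Finset.mem_filter, hS, Finset.mem_sdiff, Finset.mem_range, Finset.mem_union,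
    not_or] at hiT hjT
  obtain ⟨⟨hiq, hiF, hiG⟩, hil⟩ := hiT
  obtain ⟨⟨hjq, hjF, hjG⟩, hjl⟩ := hjT
  refine ⟨i, m, by omega, by omega, by rw [← hm, hil, hjl], ?_, ?_⟩
  · intro k hk
    have h1 : ∑ l ∈ Finset.range k, β (i + l) = B (i + k) - B i := by
      simp only [hBdef]
      rw [Finset.sum_range_add]
      ring
    rw [h1]
    rcases Nat.eq_zero_or_pos k with h0 | h0
    · subst h0; simp
    · by_contra hcon
      push Not at hcon
      apply hiF
      rw [hF, Finset.mem_filter, Finset.mem_Ico]
      refine ⟨⟨by omega, by omega⟩, i + k, by omega, by omega, ?_⟩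
      push_cast
      have : (i : ℝ) + k - i = k := by ring
      rw [this]
      exact hcon
  · intro k hk
    have h1 : ∑ l ∈ Finset.Ico k m, β (i + l) = B (i + m) - B (i + k) := by
      rw [Finset.sum_Ico_eq_sub _ hk]
      simp only [hBdef]
      rw [Finset.sum_range_add, Finset.sum_range_add]
      ring
    rw [h1]
    rcases Nat.eq_or_lt_of_le hk with h0 | h0
    · subst h0; simp
    · by_contra hcon
      push Not at hcon
      apply hjG
      rw [hG, Finset.mem_filter, Finset.mem_Ioc]
      refine ⟨⟨by omega, by omega⟩, i + k, by omega, ?_⟩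
      rw [hm]
      rw [Nat.cast_sub hk] at hcon
      push_cast
      have : (i : ℝ) + m - (i + k) = m - k := by ring
      rw [this]
      exact hcon

end Pool.Agent.Q192.PK
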