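import Pool.Agent.Q192.PK.Stm

/-!
# Project PK, lemma K6: vectors near expanded subspaces stay near them

Proof by helper299.
-/

set_option autoImplicit false

open Filter Topology Set Metric

namespace Pool.Agent.Q192.PK

universe v

theorem sK6 (h : SK4) : SK6.{v} := by
  intro E _ _ _ C β₁ η α ρ τ hC hβ₁ hα hρ hρ1 hτ hη hρτ
  have hexp1 : 1 ≤ Real.exp β₁ := Real.one_le_exp hβ₁
  have hC' : 1 ≤ 2 * C * Real.exp β₁ := by nlinarith
  obtain ⟨θ₀, hθ₀, H⟩ := h (2 * C * Real.exp β₁) η α ρ τ hC' hα hρ hρ1 hτ hη hρτ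
  refine ⟨θ₀, hθ₀, fun θ hθ hθ' => ?_⟩
  obtain ⟨c₀, hc₀, m₀, H2⟩ := H θ hθ hθ'
  refine ⟨c₀, hc₀, m₀, ?_⟩
  intro c hc hcc m hm V U A y β hβ hβm hs1 hs2 hUV hUA hAV hA hlow hdist hyV hy hy0
  have hδ : ∀ k, 0 ≤ c * (ρ ^ k + ρ ^ (m - k)) := fun k => by positivity
  by_cases h0 : y 0 = 0
  · have hz : ∀ k ≤ m, y k = 0 := by
      intro k
      induction k with
      | zero => intro _; exact h0
      | succ k ih =>
        intro hk
        have h1 := ih (by omega)
        have h2 := hy k (by omega)
        rw [h1] at h2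
        simpa using h2
    rw [hz m le_rfl, h0]
    have : infDist (0 : E) (U m : Set E) = 0 := infDist_zero_of_mem (U m).zero_mem
    simp [this]
  · have hn0 : 0 < ‖y 0‖ := norm_pos_iff.2 h0
    have htn : ∀ k, infDist (y k) (U k : Set E) / ‖y k‖ * ‖y k‖ = infDist (y k) (U k : Set E) := by
      intro k
      by_cases hk : y k = 0
      · rw [hk]
        have : infDist (0 : E) (U k : Set E) = 0 := infDist_zero_of_mem (U k).zero_mem
        simp [this]
      · exact div_mul_cancel₀ _ (norm_ne_zero_iff.2 hk)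
    have ht0 : ∀ k, 0 ≤ infDist (y k) (U k : Set E) / ‖y k‖ := fun k =>
      div_nonneg infDist_nonneg (norm_nonneg _)
    have key := H2 c hc hcc m hm β (fun k => infDist (y k) (U k : Set E) / ‖y k‖)
      (fun k => ‖y k‖) hβ hs1 hs2 (fun k _ => ht0 k) (fun k _ => norm_nonneg _) hn0
      (by rw [div_le_iff₀ hn0]; exact hy0) ?_
    · obtain ⟨k1, k2⟩ := key
      refine ⟨?_, k2⟩
      have := mul_le_mul_of_nonneg_right k1 (norm_nonneg (y m))
      rwa [htn m] at this
    · intro k hk _
      set I := infDist (y k) (U k : Set E) with hI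
      have hne : ((U k : Submodule ℝ E) : Set E).Nonempty := ⟨0, (U k).zero_mem⟩
      have : ProperSpace E := FiniteDimensional.proper ℝ E
      obtain ⟨u, huU, hud⟩ := (Submodule.closed_of_finiteDimensional (U k)).exists_infDist_eq_dist
        hne (y k)
      rw [dist_eq_norm] at hud
      have hyk := hyV k hk.le
      have huV : u ∈ V k := hUV k hk.le huU
      have hdiff : y k - u ∈ V k := (V k).sub_mem hyk huV
      have e1 : ‖A k (y k - u)‖ ≤ I := by
        have := hA k hk _ hdiff
        rw [← hud] at this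
        exact this
      have e2 : Real.exp (-β k) * ‖u‖ ≤ ‖A k u‖ := hlow k hk u huU
      have e3 : ‖y k‖ - I ≤ ‖u‖ := by
        have := norm_sub_norm_le (y k) u
        rw [← hud] at this
        linarith
      have e4 : ‖A k u‖ - ‖A k (y k - u)‖ ≤ ‖A k (y k)‖ := by
        have h1 : A k u = A k (y k) - A k (y k - u) := by
          rw [← map_sub]; congr 1; abel
        have h2 := norm_sub_le (A k (y k)) (A k (y k - u))
        rw [← h1] at h2
        linarith
      have e5 : ‖A k (y k)‖ - C * c * (ρ ^ k + ρ ^ (m - k)) * ‖y k‖ ≤ ‖y (k + 1)‖ := by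
        have h1 := hy k hk
        have h2 := norm_sub_norm_le (A k (y k)) (y (k + 1))
        rw [norm_sub_rev] at h2
        linarith
      have hep : 0 < Real.exp (-β k) := Real.exp_pos _
      have heb : Real.exp (-β k) * Real.exp (β k) = 1 := by rw [← Real.exp_add]; simp
      have heb2 : Real.exp (β k) ≤ Real.exp β₁ := Real.exp_le_exp.2 (hβm k hk)
      have heb3 : 1 ≤ Real.exp (β k) := Real.one_le_exp (hβ k)
      have hy0' : 0 ≤ ‖y k‖ := norm_nonneg _
      have hI0 : 0 ≤ I := infDist_nonneg
      have hIt : I / ‖y k‖ * ‖y k‖ = I := htn k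
      set t := I / ‖y k‖ with ht
      have ht0' : 0 ≤ t := ht0 k
      set δ := c * (ρ ^ k + ρ ^ (m - k)) with hδd
      have hδ0 : 0 ≤ δ := hδ k
      have hCδ : C * c * (ρ ^ k + ρ ^ (m - k)) = C * δ := by rw [hδd]; ring
      rw [hCδ] at e5
      constructor
      · -- lower bound of the norm
        have f1 : Real.exp (-β k) * (‖y k‖ - I) ≤ ‖A k u‖ :=
          (mul_le_mul_of_nonneg_left e3 hep.le).trans e2
        have f2 : Real.exp (-β k) * (‖y k‖ - I) - I - C * δ * ‖y k‖ ≤ ‖y (k + 1)‖ := by linarith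
        refine le_trans ?_ f2
        have f3 : I = Real.exp (-β k) * (Real.exp (β k) * I) := by
          linear_combination (-I) * heb
        have f4 : C * δ * ‖y k‖ = Real.exp (-β k) * (Real.exp (β k) * (C * δ * ‖y k‖)) := by
          linear_combination (-(C * δ * ‖y k‖)) * heb
        have f5 : Real.exp (-β k) * (‖y k‖ - I) - I - C * δ * ‖y k‖ =
            Real.exp (-β k) * (‖y k‖ - I - Real.exp (β k) * I
              - Real.exp (β k) * (C * δ * ‖y k‖)) := by
          linear_combination -f3 - f4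
        rw [f5, mul_assoc]
        refine mul_le_mul_of_nonneg_left ?_ hep.le
        have f6 : I + Real.exp (β k) * I ≤ 2 * C * Real.exp β₁ * I := by
          have : 1 + Real.exp (β k) ≤ 2 * C * Real.exp β₁ := by nlinarith
          nlinarith
        have f7 : Real.exp (β k) * (C * δ * ‖y k‖) ≤ 2 * C * Real.exp β₁ * (δ * ‖y k‖) := by
          have g1 : 0 ≤ C * (δ * ‖y k‖) := by positivity
          have g2 : Real.exp (β k) ≤ 2 * Real.exp β₁ := by linarith
          have := mul_le_mul_of_nonneg_right g2 g1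
          calc Real.exp (β k) * (C * δ * ‖y k‖) = Real.exp (β k) * (C * (δ * ‖y k‖)) := by ring
            _ ≤ 2 * Real.exp β₁ * (C * (δ * ‖y k‖)) := this
            _ = _ := by ring
        have f8 : (1 - 2 * C * Real.exp β₁ * (t + δ)) * ‖y k‖ =
            ‖y k‖ - 2 * C * Real.exp β₁ * (t * ‖y k‖) - 2 * C * Real.exp β₁ * (δ * ‖y k‖) := by
          ring
        rw [f8, hIt]
        linarith
      · rw [htn (k + 1)]
        have f1 : infDist (y (k + 1)) (U (k + 1) : Set E) ≤
            infDist (A k (y k)) (U (k + 1) : Set E) + dist (y (k + 1)) (A k (y k)) :=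
          infDist_le_infDist_add_dist
        rw [dist_eq_norm] at f1
        have f2 := hdist k hk (y k) hyk
        have f3 := hy k hk
        rw [hCδ] at f3
        have f4 : (Real.exp (-η + β k) * t + 2 * C * Real.exp β₁ * δ) * ‖y k‖ =
            Real.exp (-η + β k) * (t * ‖y k‖) + 2 * C * Real.exp β₁ * (δ * ‖y k‖) := by ring
        rw [f4, hIt]
        have f5 : C * δ * ‖y k‖ ≤ 2 * C * Real.exp β₁ * (δ * ‖y k‖) := by
          have g1 : 0 ≤ C * (δ * ‖y k‖) := by positivity
          have g2 : (1 : ℝ) ≤ 2 * Real.exp β₁ := by linarith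
          have := mul_le_mul_of_nonneg_right g2 g1
          calc C * δ * ‖y k‖ = 1 * (C * (δ * ‖y k‖)) := by ring
            _ ≤ 2 * Real.exp β₁ * (C * (δ * ‖y k‖)) := this
            _ = _ := by ring
        linarith

end Pool.Agent.Q192.PK
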