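import Pool.Agent.Q192.PK.Stm

/-!
# Project PK, lemma K7: finitely many labels of pairs (point, subspace)

Proof by helper299.
-/

set_option autoImplicit false

open Filter Topology Set Metric

namespace Pool.Agent.Q192.PK

universe u v

theorem sK7 : SK7.{u, v} := by
  classical
  intro X _ _ E _ _ _ ω hω
  have : ProperSpace (E →L[ℝ] E) := FiniteDimensional.proper ℝ (E →L[ℝ] E)
  have hcpt : IsCompact ((univ : Set X) ×ˢ (closedBall (0 : E →L[ℝ] E) 1)) :=
    isCompact_univ.prod (isCompact_closedBall _ _)
  obtain ⟨t, htf, hts⟩ := Metric.totallyBounded_iff.1 hcpt.totallyBounded (ω / 2) (by positivity)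
  have hex : ∀ (x : X) (U : Submodule ℝ E), ∃ y : t,
      dist (x, U.starProjection) (y : X × (E →L[ℝ] E)) < ω / 2 := by
    intro x U
    have hmem : (x, U.starProjection) ∈
        ((univ : Set X) ×ˢ (closedBall (0 : E →L[ℝ] E) 1)) := by
      refine ⟨mem_univ _, ?_⟩
      rw [mem_closedBall_zero_iff]
      exact U.starProjection_norm_le
    have h2 := hts hmem
    simp only [mem_iUnion, mem_ball] at h2
    obtain ⟨y, hy, hd⟩ := h2
    exact ⟨⟨y, hy⟩, hd⟩
  have : Fintype t := htf.fintype
  choose lab hlab using hex
  let e := Fintype.equivFin t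
  refine ⟨Fintype.card t, fun x U => e (lab x U), ?_⟩
  intro x U x' U' h
  have h1 : lab x U = lab x' U' := e.injective h
  have h2 := hlab x U
  have h3 := hlab x' U'
  rw [h1] at h2
  have h4 : dist (x, U.starProjection) (x', U'.starProjection) < ω := by
    calc dist (x, U.starProjection) (x', U'.starProjection)
        ≤ dist (x, U.starProjection) (lab x' U' : X × (E →L[ℝ] E))
          + dist (x', U'.starProjection) (lab x' U' : X × (E →L[ℝ] E)) := dist_triangle_right _ _ _
      _ < ω / 2 + ω / 2 := add_lt_add h2 h3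
      _ = ω := by ring
  rw [Prod.dist_eq, max_lt_iff] at h4
  refine ⟨h4.1.le, ?_⟩
  intro w hw
  have h5 : infDist w (U' : Set E) ≤ dist w (U'.starProjection w) :=
    infDist_le_dist_of_mem (U'.starProjection_apply_mem w)
  have h6 : U.starProjection w = w := Submodule.starProjection_eq_self_iff.2 hw
  have h7 : dist w (U'.starProjection w) = ‖(U.starProjection - U'.starProjection) w‖ := by
    rw [_root_.sub_apply, h6, dist_eq_norm]
  have h8 : ‖(U.starProjection - U'.starProjection) w‖ ≤ ω * ‖w‖ := by
    refine (ContinuousLinearMap.le_opNorm _ _).trans ?_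
    refine mul_le_mul_of_nonneg_right ?_ (norm_nonneg _)
    have := h4.2
    rw [dist_eq_norm] at this
    exact this.le
  linarith

end Pool.Agent.Q192.PK
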