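import Pool.Agent.Q192.PK.K9b

/-!
# Project PK, K9: the growth rate is approximated at periodic points
-/

set_option autoImplicit false
set_option linter.unusedSectionVars false

open Filter Topology Set Metric
open scoped Pointwise

namespace Pool.Agent.Q192.PK

universe u v

/-- Real numbers in the choice of the period. -/
theorem period_num {lam l ε B₀ C₂ bx bp τ : ℝ} {N d m : ℕ} (hB : B₀ = lam - l) (hB0 : 0 < B₀)
    (hε : 0 < ε) (hN : 1 ≤ N) (hτ : τ = 8 * d * ε * N) (hε2 : 32 * d * ε ≤ B₀)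
    (hm : 2 * (C₂ + Real.log 4) / B₀ < m) (hb : bp ≤ bx + C₂) :
    Real.exp (l * (N * m) + bp) ≤
      1 / 4 * Real.exp (-τ * m + ((lam + ε) * (N * m) + bx)) := by
  have e : (1 : ℝ) / 4 = Real.exp (-Real.log 4) := by
    rw [Real.exp_neg, Real.exp_log (by norm_num), one_div]
  rw [e, ← Real.exp_add]
  apply Real.exp_le_exp.2
  rw [div_lt_iff₀ hB0] at hm
  have hN' : (1 : ℝ) ≤ N := by exact_mod_cast hN
  have hm0 : (0 : ℝ) ≤ m := Nat.cast_nonneg _
  have h1 : τ ≤ B₀ / 4 * N := by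
    rw [hτ]
    exact mul_le_mul_of_nonneg_right (by linarith) (by linarith)
  have h2 : τ * m ≤ B₀ / 4 * N * m := mul_le_mul_of_nonneg_right h1 hm0
  have h3 : B₀ * m ≤ B₀ * (N * m) := by
    apply mul_le_mul_of_nonneg_left _ hB0.le
    nlinarith
  have h4 : 0 ≤ ε * (N * m) := by positivity
  have h5 : (lam + ε) * (N * m) - l * (N * m) = B₀ * (N * m) + ε * (N * m) := by
    rw [hB]; ring
  nlinarith

set_option maxHeartbeats 1000000 in
theorem sK9 (h1 : SK1.{v}) (h2 : SK2.{v}) (h3 : SK3.{u, v}) (h5 : SK5) (h6 : SK6.{v})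
    (h7 : SK7.{u, v}) (h8 : SK8.{u, v}) : SK9.{u, v} := by
  intro X _ _ _ E _ _ _ C r C₀ C₂ c₁ hr hV hC₀ hc₁ hclo
  obtain ⟨lam, hup, d, hd1, hdr, η, hη, H⟩ := h3 X E C r hr hV
  refine ⟨lam, hup, fun l hl => ?_⟩
  obtain ⟨B₀, hB₀⟩ : ∃ B₀ : ℝ, B₀ = lam - l := ⟨_, rfl⟩
  have hB : 0 < B₀ := by linarith
  have hlog2 : 0 < Real.log 2 := Real.log_pos (by norm_num)
  have hd0 : (1 : ℝ) ≤ d := by exact_mod_cast hd1
  obtain ⟨ε, hεd⟩ : ∃ ε : ℝ, ε = min (min η (Real.log 2)) B₀ / (32 * d) := ⟨_, rfl⟩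
  have hmin : 0 < min (min η (Real.log 2)) B₀ := lt_min (lt_min hη hlog2) hB
  have hε : 0 < ε := by rw [hεd]; positivity
  have hε' : 32 * d * ε = min (min η (Real.log 2)) B₀ := by
    rw [hεd]
    field_simp
  have hε1 : 32 * d * ε ≤ min η (Real.log 2) := hε'.le.trans (min_le_left _ _)
  have hε2 : 32 * d * ε ≤ B₀ := hε'.le.trans (min_le_right _ _)
  obtain ⟨N, hN, ha, hb, hc⟩ := H ε hε
  obtain ⟨θ₀, hθ₀, H1⟩ := block_cone h1 h2 h6 h8 C N d hN hd1 lam η ε C₀ hC₀ hε hη hε1 ha hb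
  obtain ⟨θ, hθd⟩ : ∃ θ : ℝ, θ = min θ₀ 1 := ⟨_, rfl⟩
  have hθ : 0 < θ := by rw [hθd]; exact lt_min hθ₀ one_pos
  have hθ1 : θ ≤ 1 := by rw [hθd]; exact min_le_right _ _
  obtain ⟨c₀, hc₀, m₀, H2⟩ := H1 θ hθ (by rw [hθd]; exact min_le_left _ _)
  obtain ⟨c, hcd⟩ : ∃ c : ℝ, c = min (min c₀ c₁) (θ / 16) := ⟨_, rfl⟩
  have hc0 : 0 < c := by rw [hcd]; exact lt_min (lt_min hc₀ hc₁) (by positivity)
  have hcc₀ : c ≤ c₀ := by rw [hcd]; exact (min_le_left _ _).trans (min_le_left _ _)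
  have hcc₁ : c ≤ c₁ := by rw [hcd]; exact (min_le_left _ _).trans (min_le_right _ _)
  have hcθ : c ≤ θ / 16 := by rw [hcd]; exact min_le_right _ _
  obtain ⟨ε₂, hε₂, H3⟩ := hclo c hc0 hcc₁
  obtain ⟨ω, hωd⟩ : ∃ ω : ℝ, ω = min ε₂ (θ / 16) := ⟨_, rfl⟩
  have hω : 0 < ω := by rw [hωd]; exact lt_min hε₂ (by positivity)
  have hω1 : ω ≤ ε₂ := by rw [hωd]; exact min_le_left _ _
  have hω2 : ω ≤ θ / 16 := by rw [hωd]; exact min_le_right _ _
  obtain ⟨M, lab, hlab⟩ := h7 X E ω hω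
  obtain ⟨m₁, hm₁⟩ := exists_nat_gt (2 * (C₂ + Real.log 4) / B₀)
  have hN0 : (1 : ℝ) ≤ N := by exact_mod_cast hN
  obtain ⟨q, hq⟩ := h5 M (max (max m₀ m₁) 1) (8 * d * ε * N) (by positivity)
  obtain ⟨x₀, U₀, hU₀, hU₀d, hlow⟩ := hc q
  have hbet0 : ∀ k, 0 ≤ bet C N d (lam + ε) x₀ U₀ k := fun k =>
    (block_facts h1 h2 C N d hd1 lam η ε hε ha hb (C.g^[N * k] x₀) (U₀.map (C.it (N * k) x₀))
      (map_le C _ _ hU₀) (by rw [← hU₀d]; exact map_finrank C _ _ hU₀)).1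
  obtain ⟨i, m, hm, -, hl1, hg1, hg2⟩ := hq (fun k => bet C N d (lam + ε) x₀ U₀ k) hbet0 (by
    rw [bet_sum C h1 N d (lam + ε) x₀ hU₀ q]
    have h9 := Real.log_le_log (Real.exp_pos _) hlow
    rw [Real.log_exp] at h9
    have e : (d : ℝ) * ((lam + ε) * (N * q) + C.bs (N * q) x₀) =
        d * (lam * (N * q) + C.bs (N * q) x₀) + 8 * d * ε * N / 8 * q := by ring
    rw [e]
    linarith) (fun k => lab (C.g^[N * k] x₀) (U₀.map (C.it (N * k) x₀)))
  have hmm₀ : m₀ ≤ m := ((le_max_left _ _).trans (le_max_left _ _)).trans hm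
  have hmm₁ : m₁ ≤ m := ((le_max_right _ _).trans (le_max_left _ _)).trans hm
  have hm1 : 1 ≤ m := (le_max_right _ _).trans hm
  -- the orbit segment
  obtain ⟨x, hx⟩ : ∃ x : X, x = C.g^[N * i] x₀ := ⟨_, rfl⟩
  obtain ⟨U, hUdef⟩ : ∃ U : Submodule ℝ E, U = U₀.map (C.it (N * i) x₀) := ⟨_, rfl⟩
  have hU : U ≤ C.V x := by rw [hUdef, hx]; exact map_le C _ _ hU₀
  have hUd : Module.finrank ℝ U = d := by
    rw [hUdef, ← hU₀d]; exact map_finrank C _ _ hU₀
  have hshift : ∀ k, bet C N d (lam + ε) x₀ U₀ (i + k) = bet C N d (lam + ε) x U k := fun k => by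
    rw [bet_shift, ← hx, ← hUdef]
  simp only [hshift] at hg1 hg2
  have eX : C.g^[N * (i + m)] x₀ = C.g^[N * m] x := by
    rw [hx, ← Function.iterate_add_apply]; congr 2; ring
  have eU : U₀.map (C.it (N * (i + m)) x₀) = U.map (C.it (N * m) x) := by
    have : N * (i + m) = N * m + N * i := by ring
    rw [this, map_add, ← hx, ← hUdef]
  rw [eX, eU, ← hx, ← hUdef] at hl1
  obtain ⟨hdist, hang⟩ := hlab _ _ _ _ hl1.symm
  have hNm1 : 1 ≤ N * m := Nat.mul_pos hN hm1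
  obtain ⟨p, hp, hbs, J, hJ⟩ := H3 x (N * m) hNm1 (hdist.trans hω1)
  have hmain := H2 c hc0 hcc₀ (by linarith) m hmm₀ x p U J hU hUd hJ hg1 hg2
  -- the step
  have step : ∀ w ∈ C.V p, infDist (J 0 w) (U : Set E) ≤ θ * ‖J 0 w‖ →
      C.it (N * m) p w ∈ C.V p ∧
      infDist (J 0 (C.it (N * m) p w)) (U : Set E) ≤ θ * ‖J 0 (C.it (N * m) p w)‖ ∧
      Real.exp (l * (N * m) + C.bs (N * m) p) * ‖w‖ ≤ ‖C.it (N * m) p w‖ := by
    intro w hw hcone
    obtain ⟨r1, r2⟩ := hmain w hw hcone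
    have hw'' : C.it (N * m) p w ∈ C.V (C.g^[N * m] p) := it_mem C (N * m) p hw
    have hw' : C.it (N * m) p w ∈ C.V p := by rwa [hp] at hw''
    set w' := C.it (N * m) p w with hw'd
    have j0 := (hJ.1 0 (Nat.zero_le _) w' hw').2
    have jm := (hJ.1 (N * m) le_rfl w' hw'').2
    have jw := (hJ.1 0 (Nat.zero_le _) w hw).2
    set y := J (N * m) w' with hy
    set z := J 0 w' with hz
    have hn0 : 0 ≤ ‖w'‖ := norm_nonneg _
    have hc16 : c ≤ 1 / 16 := by linarith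
    have cw : c * ‖w'‖ ≤ 1 / 16 * ‖w'‖ := mul_le_mul_of_nonneg_right hc16 hn0
    have cθ : c * ‖w'‖ ≤ θ / 16 * ‖w'‖ := mul_le_mul_of_nonneg_right hcθ hn0
    have hy1 : ‖y‖ ≤ 17 / 16 * ‖w'‖ := by
      have := norm_add_le (y - w') w'
      rw [sub_add_cancel] at this
      linarith
    have hz1 : 15 / 16 * ‖w'‖ ≤ ‖z‖ := by
      have := norm_sub_norm_le w' z
      rw [norm_sub_rev w' z] at this
      linarith
    have hzy : ‖z - y‖ ≤ 2 * (c * ‖w'‖) := by
      have : z - y = (z - w') - (y - w') := by abel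
      rw [this]
      refine (norm_sub_le _ _).trans ?_
      linarith
    refine ⟨hw', ?_, ?_⟩
    · have : ProperSpace E := FiniteDimensional.proper_real E
      obtain ⟨t, ht, hdt⟩ := IsClosed.exists_infDist_eq_dist
        (Submodule.closed_of_finiteDimensional (U.map (C.it (N * m) x)))
        ⟨0, Submodule.zero_mem _⟩ y
      rw [hdt, dist_eq_norm] at r1
      have hy0 : 0 ≤ ‖y‖ := norm_nonneg _
      have hθy : θ / 4 * ‖y‖ ≤ ‖y‖ := by nlinarith
      have ht1 : ‖t‖ ≤ 2 * ‖y‖ := by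
        have := norm_sub_norm_le t y
        rw [norm_sub_rev t y] at this
        linarith
      have ht2 := hang t ht
      have h9 : infDist z (U : Set E) ≤ ‖z - t‖ + infDist t (U : Set E) := by
        rw [← dist_eq_norm]
        have := infDist_le_infDist_add_dist (s := (U : Set E)) (x := z) (y := t)
        linarith
      have h10 : ‖z - t‖ ≤ ‖z - y‖ + ‖y - t‖ := by
        have := norm_add_le (z - y) (y - t)
        rwa [sub_add_sub_cancel] at this
      have h11 : ω * ‖t‖ ≤ θ / 16 * (2 * ‖y‖) :=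
        mul_le_mul hω2 ht1 (norm_nonneg _) (by positivity)
      have h12 : θ * ‖y‖ ≤ θ * (17 / 16 * ‖w'‖) := mul_le_mul_of_nonneg_left hy1 hθ.le
      have h13 : θ * (15 / 16 * ‖w'‖) ≤ θ * ‖z‖ := mul_le_mul_of_nonneg_left hz1 hθ.le
      have h14 : 0 ≤ θ * ‖w'‖ := by positivity
      linarith
    · have hm' : 2 * (C₂ + Real.log 4) / B₀ < m :=
        hm₁.trans_le (by exact_mod_cast hmm₁)
      have hnum := period_num (bx := C.bs (N * m) x) (bp := C.bs (N * m) p) hB₀ hB hε hN rfl hε2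
        hm' hbs
      set Ex := Real.exp (-(8 * d * ε * N) * m + ((lam + ε) * (N * m) + C.bs (N * m) x)) with hEx
      have hEx0 : 0 < Ex := Real.exp_pos _
      have hw0 : 0 ≤ ‖w‖ := norm_nonneg _
      have hJw : 15 / 16 * ‖w‖ ≤ ‖J 0 w‖ := by
        have h9 := norm_sub_norm_le w (J 0 w)
        rw [norm_sub_rev w (J 0 w)] at h9
        have h10 : c * ‖w‖ ≤ 1 / 16 * ‖w‖ := mul_le_mul_of_nonneg_right hc16 hw0
        linarith
      have h11 : 1 / 2 * Ex * (15 / 16 * ‖w‖) ≤ ‖y‖ :=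
        (mul_le_mul_of_nonneg_left hJw (by positivity)).trans r2
      have h12 : Real.exp (l * (N * m) + C.bs (N * m) p) * ‖w‖ ≤ 1 / 4 * Ex * ‖w‖ :=
        mul_le_mul_of_nonneg_right hnum hw0
      have h13 : 0 ≤ Ex * ‖w‖ := by positivity
      linarith
  -- a vector in the cone
  obtain ⟨w₀, hw₀, hw₀0, hw₀c⟩ : ∃ w ∈ C.V p, w ≠ 0 ∧
      infDist (J 0 w) (U : Set E) ≤ θ * ‖J 0 w‖ := by
    let T : C.V p →ₗ[ℝ] C.V x := (J 0).restrict (fun w hw => (hJ.1 0 (Nat.zero_le _) w hw).1)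
    have hT : Function.Injective T := by
      rw [← LinearMap.ker_eq_bot, LinearMap.ker_eq_bot']
      rintro ⟨w, hw⟩ h9
      have h10 : J 0 w = 0 := congrArg Subtype.val h9
      have h11 := (hJ.1 0 (Nat.zero_le _) w hw).2
      rw [h10, zero_sub, norm_neg] at h11
      have h12 : ‖w‖ = 0 := by
        have := norm_nonneg w
        nlinarith
      exact Subtype.ext (norm_eq_zero.1 h12)
    have hTs : Function.Surjective T :=
      (LinearMap.injective_iff_surjective_of_finrank_eq_finrank (by rw [hV, hV])).1 hT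
    have hUne : U ≠ ⊥ := by
      intro h9
      rw [h9, finrank_bot] at hUd
      omega
    obtain ⟨u, hu, hu0⟩ := Submodule.exists_mem_ne_zero_of_ne_bot hUne
    obtain ⟨⟨w, hw⟩, hTw⟩ := hTs ⟨u, hU hu⟩
    have h10 : J 0 w = u := congrArg Subtype.val hTw
    refine ⟨w, hw, ?_, ?_⟩
    · rintro rfl
      rw [map_zero] at h10
      exact hu0 h10.symm
    · rw [h10, infDist_zero_of_mem hu]
      positivity
  refine ⟨p, N * m, hNm1, hp, w₀, hw₀, hw₀0, 1, one_pos, ?_⟩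
  have hper : ∀ q : ℕ, C.g^[N * m * q] p = p := fun q => by
    rw [Function.iterate_mul]
    exact Function.iterate_fixed hp q
  have hind : ∀ q : ℕ, C.it (N * m * q) p w₀ ∈ C.V p ∧
      infDist (J 0 (C.it (N * m * q) p w₀)) (U : Set E) ≤
        θ * ‖J 0 (C.it (N * m * q) p w₀)‖ ∧
      Real.exp (l * (N * m * q) + C.bs (N * m * q) p) * ‖w₀‖ ≤ ‖C.it (N * m * q) p w₀‖ := by
    intro q
    induction q with
    | zero =>
      rw [Nat.mul_zero, it_zero, bs_zero]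
      refine ⟨hw₀, hw₀c, ?_⟩
      simp
    | succ q ih =>
      obtain ⟨i1, i2, i3⟩ := ih
      obtain ⟨s1, s2, s3⟩ := step _ i1 i2
      have e : N * m * (q + 1) = N * m + N * m * q := by ring
      have e' : C.it (N * m * (q + 1)) p w₀ = C.it (N * m) p (C.it (N * m * q) p w₀) := by
        rw [e, it_add, hper]; rfl
      have e'' : C.bs (N * m * (q + 1)) p = C.bs (N * m) p + C.bs (N * m * q) p := by
        rw [e, bs_add, hper]
      rw [e', e'']
      refine ⟨s1, s2, ?_⟩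
      have e3 : l * (N * m * ((q + 1 : ℕ) : ℝ)) + (C.bs (N * m) p + C.bs (N * m * q) p) =
          (l * (N * m) + C.bs (N * m) p) + (l * (N * m * q) + C.bs (N * m * q) p) := by
        push_cast; ring
      rw [e3, Real.exp_add, mul_assoc]
      exact (mul_le_mul_of_nonneg_left i3 (Real.exp_pos _).le).trans s3
  intro q
  rw [one_mul]
  have := (hind q).2.2
  push_cast
  exact this

end Pool.Agent.Q192.PK
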