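import Pool.Agent.Q192.PK.K1
import Pool.Agent.Q192.PK.K2
import Pool.Agent.Q192.PK.K3
import Pool.Agent.Q192.PK.K4
import Pool.Agent.Q192.PK.K5
import Pool.Agent.Q192.PK.K6
import Pool.Agent.Q192.PK.K7
import Pool.Agent.Q192.PK.K8
import Pool.Agent.Q192.PK.K9
import Pool.Agent.Q192.PK.K10
import Pool.Agent.Q192.PK.K12
import Pool.Agent.Q192.PK.K13
import Pool.Agent.Q192.PK.K14
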