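import Pool.Agent.Q192.PK.K1
import Pool.Agent.Q192.PK.K2
import Pool.Agent.Q192.PK.K3
import Pool.Agent.Q192.PK.K4
import Pool.Agent.Q192.PK.K5
import Pool.Agent.Q192.PK.K6
import Pool.Agent.Q192.PK.K7
import Pool.Agent.Q192.PK.K8
import Pool.Agent.Q192.PK.K9
import Pool.Agent.Q192.PK.K10
import Pool.Agent.Q95.PK.K11
import Pool.Agent.Q192.PK.K12
import Pool.Agent.Q192.PK.K13
import Pool.Agent.Q192.PK.K14

/-!
# Project PK: the abstract theorems
-/

namespace Pool.Agent.Q192.PK

universe u v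

/-- The growth rate of a cocycle is approximated at periodic points. -/
theorem fK9 : SK9.{u, v} := sK9 sK1 sK2 (sK3 sK1 sK2) sK5 (sK6 sK4) sK7 sK8

/-- One exponent at each periodic point implies subexponential distortion. -/
theorem fK12 : SK12.{u, v} := sK12 sK1 sK2 fK9 sK10 (Pool.Agent.Q95.PK.sK11 sK1)

theorem fK13 : SK13.{u, v} := sK13 fK9 sK10

theorem fK14 : SK14.{u, v} := sK14 fK9 sK10

end Pool.Agent.Q192.PK
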