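import Pool.Agent.Q192.PK.Stm

/-!
Project PK: volume factors (K1).
-/

set_option autoImplicit false

namespace Pool.Agent.Q192.PK

universe u v

section

variable {U V : Type*} [NormedAddCommGroup U] [InnerProductSpace ℝ U] [FiniteDimensional ℝ U]
  [NormedAddCommGroup V] [InnerProductSpace ℝ V] [FiniteDimensional ℝ V]

open scoped RealInnerProductSpace

/-- An orthonormal basis which is mapped to orthogonal vectors. -/
theorem exists_onb (f : U →ₗ[ℝ] V) :
    ∃ e : OrthonormalBasis (Fin (Module.finrank ℝ U)) ℝ U,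
      (f.normDet = ∏ i, ‖f (e i)‖) ∧ ∀ v, ‖f v‖ ^ 2 = ∑ i, ‖f (e i)‖ ^ 2 * ⟪e i, v⟫ ^ 2 := by
  have hS : (f.adjoint ∘ₗ f).IsSymmetric := LinearMap.isSymmetric_adjoint_comp_self f
  obtain ⟨e, he⟩ : ∃ e, e = hS.eigenvectorBasis rfl := ⟨_, rfl⟩
  have hz : ∀ i j, i ≠ j → ⟪f (e i), f (e j)⟫ = 0 := by
    intro i j hij
    have h1 : ⟪f (e i), f (e j)⟫ = ⟪(f.adjoint ∘ₗ f) (e i), e j⟫ := by
      rw [LinearMap.comp_apply, LinearMap.adjoint_inner_left]
    have h2 : (f.adjoint ∘ₗ f) (e i) = hS.eigenvalues rfl i • e i := by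
      rw [he]
      exact hS.apply_eigenvectorBasis rfl i
    rw [h1, h2, real_inner_smul_left, e.orthonormal.2 hij, mul_zero]
  refine ⟨e, ?_, ?_⟩
  · have h1 := f.normDet_sq_eq_det_gram e
    have h2 : Matrix.gram ℝ (fun i => f (e i)) = Matrix.diagonal fun i => ‖f (e i)‖ ^ 2 := by
      ext i j
      rw [Matrix.gram_apply]
      by_cases hij : i = j
      · rw [hij, Matrix.diagonal_apply_eq, real_inner_self_eq_norm_sq]
      · rw [hz i j hij, Matrix.diagonal_apply_ne _ hij]
    rw [h2, Matrix.det_diagonal, Finset.prod_pow] at h1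
    have h3 : f.normDet ^ 2 = (∏ i, ‖f (e i)‖) ^ 2 := by
      exact_mod_cast h1
    exact (pow_left_inj₀ f.normDet_nonneg (Finset.prod_nonneg fun i _ => norm_nonneg _)
      two_ne_zero).1 h3
  · intro v
    have h1 : f v = ∑ i, ⟪e i, v⟫ • f (e i) := by
      conv_lhs => rw [← e.sum_repr' v]
      rw [map_sum]
      simp only [map_smul]
    rw [← real_inner_self_eq_norm_sq, h1, sum_inner]
    refine Finset.sum_congr rfl fun i _ => ?_
    rw [inner_sum, Finset.sum_eq_single i]
    · rw [real_inner_smul_left, real_inner_smul_right, real_inner_self_eq_norm_sq]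
      ring
    · intro j _ hj
      rw [real_inner_smul_left, real_inner_smul_right, hz i j hj.symm]
      ring
    · intro h
      exact absurd (Finset.mem_univ i) h

end

section

variable {E : Type v} [NormedAddCommGroup E] [InnerProductSpace ℝ E] [FiniteDimensional ℝ E]

theorem jac_nonneg (T : E →ₗ[ℝ] E) (U : Submodule ℝ E) : 0 ≤ jac T U :=
  LinearMap.normDet_nonneg _

theorem jac_comp (S T : E →ₗ[ℝ] E) (U : Submodule ℝ E) :
    jac (S ∘ₗ T) U = jac S (U.map T) * jac T U := by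
  have h1 : (S ∘ₗ T).domRestrict U = S ∘ₗ (T.domRestrict U) := rfl
  have h2 : jac (S ∘ₗ T) U = jac S (T.domRestrict U).range * jac T U := by
    unfold jac
    rw [h1, LinearMap.normDet_comp]
  rw [h2, LinearMap.range_domRestrict]

theorem jac_congr {S T : E →ₗ[ℝ] E} {U : Submodule ℝ E} (h : ∀ v ∈ U, S v = T v) :
    jac S U = jac T U := by
  unfold jac
  congr 1
  ext v
  exact h v v.2

theorem jac_le (T : E →ₗ[ℝ] E) (U : Submodule ℝ E) (b : ℝ) (hb : ∀ v ∈ U, ‖T v‖ ≤ b * ‖v‖) :
    jac T U ≤ b ^ Module.finrank ℝ U := by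
  obtain ⟨e, he, -⟩ := exists_onb (T.domRestrict U)
  unfold jac
  rw [he]
  refine (Finset.prod_le_prod (fun i _ => norm_nonneg _) (g := fun _ => b) fun i _ => ?_).trans
    (by rw [Finset.prod_const, Finset.card_univ, Fintype.card_fin])
  have h := hb (e i) (e i).2
  have h1 : ‖((e i : U) : E)‖ = 1 := e.norm_eq_one i
  rw [h1, mul_one] at h
  exact h

theorem le_jac (T : E →ₗ[ℝ] E) (U : Submodule ℝ E) (a : ℝ) (ha : 0 ≤ a)
    (h0 : ∀ v ∈ U, a * ‖v‖ ≤ ‖T v‖) : a ^ Module.finrank ℝ U ≤ jac T U := by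
  obtain ⟨e, he, -⟩ := exists_onb (T.domRestrict U)
  unfold jac
  rw [he]
  refine le_trans (by rw [Finset.prod_const, Finset.card_univ, Fintype.card_fin])
    (Finset.prod_le_prod (f := fun _ => a) (fun i _ => ha) fun i _ => ?_)
  have h := h0 (e i) (e i).2
  have h1 : ‖((e i : U) : E)‖ = 1 := e.norm_eq_one i
  rw [h1, mul_one] at h
  exact h

end

/-- K1. -/
theorem sK1 : SK1.{v} := by
  intro E _ _ _
  refine ⟨jac_comp, fun T U b _ h => jac_le T U b h, fun T U a ha h => le_jac T U a ha h, ?_⟩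
  intro T F U δ hδ hT hF
  have hinj : Function.Injective (T.domRestrict U) := by
    rw [← LinearMap.ker_eq_bot, LinearMap.ker_eq_bot']
    intro v hv
    have h1 := hT v v.2
    have h2 : T (v : E) = 0 := hv
    rw [h2, norm_zero] at h1
    have h3 : ‖(v : E)‖ = 0 := le_antisymm (by linarith) (norm_nonneg _)
    exact Subtype.ext (norm_eq_zero.1 h3)
  obtain ⟨G, hG⟩ := LinearMap.exists_extend
    ((F.domRestrict U) ∘ₗ (LinearEquiv.ofInjective _ hinj).symm.toLinearMap)
  have hGv : ∀ v ∈ U, G (T v) = F v := by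
    intro v hv
    have h1 := LinearMap.congr_fun hG (LinearEquiv.ofInjective _ hinj ⟨v, hv⟩)
    rw [LinearMap.comp_apply, LinearMap.comp_apply, LinearEquiv.coe_coe,
      LinearEquiv.symm_apply_apply] at h1
    exact h1
  have h1 : jac (T + F) U = jac ((LinearMap.id + G) ∘ₗ T) U := by
    apply jac_congr
    intro v hv
    rw [LinearMap.add_apply, LinearMap.comp_apply, LinearMap.add_apply, LinearMap.id_apply,
      hGv v hv]
  rw [h1, jac_comp]
  refine mul_le_mul_of_nonneg_right ?_ (jac_nonneg _ _)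
  have h2 : jac (LinearMap.id + G) (U.map T) ≤ (1 + 2 * δ) ^ Module.finrank ℝ (U.map T) := by
    apply jac_le
    rintro _ ⟨v, hv, rfl⟩
    rw [LinearMap.add_apply, LinearMap.id_apply, hGv v hv]
    have h3 := hT v hv
    have h4 := hF v hv
    have h5 := norm_add_le (T v) (F v)
    nlinarith
  refine h2.trans ?_
  exact pow_le_pow_right₀ (by linarith) (Submodule.finrank_map_le T U)

end Pool.Agent.Q192.PK
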