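import Pool.Agent.Q192.PK.Stm3

/-!
# Project PK: growth of the powers of a linear map from the roots of its characteristic polynomial
-/

set_option autoImplicit false

namespace Pool.Agent.Q192.PK

open Filter Topology

universe v

namespace K15

/-- growth of powers in a complete normed algebra -/
theorem gel {A : Type*} [NormedRing A] [NormedAlgebra ℂ A] [CompleteSpace A] (M : A) (ρ ρ' : ℝ)
    (h0 : 0 ≤ ρ) (h : ∀ z ∈ spectrum ℂ M, ‖z‖ ≤ ρ) (h1 : ρ < ρ') :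
    ∃ C : ℝ, 0 ≤ C ∧ ∀ q : ℕ, ‖M ^ q‖ ≤ C * ρ' ^ q := by
  have hp : 0 < ρ' := lt_of_le_of_lt h0 h1
  have T := spectrum.pow_norm_pow_one_div_tendsto_nhds_spectralRadius M
  have hr : spectralRadius ℂ M < ENNReal.ofReal ρ' := by
    refine lt_of_le_of_lt ?_ ((ENNReal.ofReal_lt_ofReal_iff hp).mpr h1)
    refine iSup₂_le fun z hz => ?_
    rw [← ENNReal.ofReal_coe_nnreal]
    exact ENNReal.ofReal_le_ofReal (h z hz)
  obtain ⟨Q, hQ⟩ := eventually_atTop.mp (T.eventually (gt_mem_nhds hr))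
  have big : ∀ q : ℕ, Q + 1 ≤ q → ‖M ^ q‖ ≤ ρ' ^ q := by
    intro q hq
    have h2 := (ENNReal.ofReal_lt_ofReal_iff hp).mp (hQ q (by omega))
    have h3 := pow_le_pow_left₀ (Real.rpow_nonneg (norm_nonneg _) _) h2.le q
    rw [one_div, Real.rpow_inv_natCast_pow (norm_nonneg _) (by omega)] at h3
    exact h3
  refine ⟨1 + ∑ q ∈ Finset.range (Q + 1), ‖M ^ q‖ / ρ' ^ q, ?_, fun q => ?_⟩
  · have : 0 ≤ ∑ q ∈ Finset.range (Q + 1), ‖M ^ q‖ / ρ' ^ q := Finset.sum_nonneg fun q _ => by positivity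
    linarith
  · have hpq : 0 < ρ' ^ q := pow_pos hp q
    rcases Nat.lt_or_ge q (Q + 1) with hq | hq
    · have h2 : ‖M ^ q‖ / ρ' ^ q ≤ ∑ q ∈ Finset.range (Q + 1), ‖M ^ q‖ / ρ' ^ q :=
        Finset.single_le_sum (f := fun q => ‖M ^ q‖ / ρ' ^ q) (fun q _ => by positivity)
          (Finset.mem_range.mpr hq)
      rw [div_le_iff₀ hpq] at h2
      linarith
    · have h2 : 0 ≤ ∑ q ∈ Finset.range (Q + 1), ‖M ^ q‖ / ρ' ^ q :=
        Finset.sum_nonneg fun q _ => by positivity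
      have h3 := mul_nonneg h2 hpq.le
      have h4 := big q hq
      linarith

attribute [local instance] Matrix.linftyOpNormedRing Matrix.linftyOpNormedAlgebra

theorem gelM {n : ℕ} (M : Matrix (Fin n) (Fin n) ℂ) (ρ ρ' : ℝ)
    (h0 : 0 ≤ ρ) (h : ∀ z ∈ spectrum ℂ M, ‖z‖ ≤ ρ) (h1 : ρ < ρ') :
    ∃ C : ℝ, 0 ≤ C ∧ ∀ (q : ℕ) (x : Fin n → ℂ), ‖(M ^ q).mulVec x‖ ≤ C * ρ' ^ q * ‖x‖ := by
  obtain ⟨C, hC, H⟩ := gel M ρ ρ' h0 h h1
  refine ⟨C, hC, fun q x => ?_⟩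
  exact (Matrix.linfty_opNorm_mulVec (M ^ q) x).trans (mul_le_mul_of_nonneg_right (H q) (norm_nonneg _))

/-- coordinates as complex numbers -/
noncomputable def psi {V : Type v} [NormedAddCommGroup V] [NormedSpace ℝ V] {n : ℕ}
    (b : Module.Basis (Fin n) ℝ V) : V →ₗ[ℝ] (Fin n → ℂ) where
  toFun x := fun i => ((b.repr x i : ℝ) : ℂ)
  map_add' x y := by
    funext i
    simp
  map_smul' r x := by
    funext i
    simp

theorem psi_ker {V : Type v} [NormedAddCommGroup V] [NormedSpace ℝ V] {n : ℕ}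
    (b : Module.Basis (Fin n) ℝ V) : (psi b).ker = ⊥ := by
  rw [LinearMap.ker_eq_bot']
  intro x hx
  have : ∀ i, b.repr x i = 0 := by
    intro i
    have := congrFun hx i
    change ((b.repr x i : ℝ) : ℂ) = 0 at this
    exact_mod_cast this
  apply b.repr.injective
  ext i
  simp [this i]

theorem psi_pow {V : Type v} [NormedAddCommGroup V] [NormedSpace ℝ V] {n : ℕ}
    (b : Module.Basis (Fin n) ℝ V) (T : V →ₗ[ℝ] V) (q : ℕ) (x : V) :
    psi b ((T ^ q) x) = (((LinearMap.toMatrix b b T).map (algebraMap ℝ ℂ)) ^ q).mulVec (psi b x) := by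
  have one : ∀ y : V, psi b (T y) = ((LinearMap.toMatrix b b T).map (algebraMap ℝ ℂ)).mulVec (psi b y) := by
    intro y
    funext i
    have h1 := congrFun (LinearMap.toMatrix_mulVec_repr b b T y) i
    change ((b.repr (T y) i : ℝ) : ℂ) = _
    rw [← h1]
    simp [Matrix.mulVec, dotProduct, psi]
  induction q with
  | zero => simp
  | succ q ih => rw [pow_succ', Module.End.mul_apply, one, ih, pow_succ', Matrix.mulVec_mulVec]

theorem roots {V : Type v} [NormedAddCommGroup V] [NormedSpace ℝ V] [FiniteDimensional ℝ V] {n : ℕ}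
    (b : Module.Basis (Fin n) ℝ V) (T : V →ₗ[ℝ] V) (z : ℂ) :
    z ∈ spectrum ℂ ((LinearMap.toMatrix b b T).map (algebraMap ℝ ℂ)) ↔
      (T.charpoly.map (algebraMap ℝ ℂ)).IsRoot z := by
  rw [Matrix.mem_spectrum_iff_isRoot_charpoly, Matrix.charpoly_map, LinearMap.charpoly_toMatrix]

end K15

open K15

theorem sK15 : SK15.{v} := by
  intro V _ _ _ T
  let b := Module.finBasis ℝ V
  set M : Matrix (Fin (Module.finrank ℝ V)) (Fin (Module.finrank ℝ V)) ℂ :=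
    (LinearMap.toMatrix b b T).map (algebraMap ℝ ℂ) with hM
  obtain ⟨K, K0, hK⟩ := LinearMap.exists_antilipschitzWith (psi b) (psi_ker b)
  have lo : ∀ x : V, ‖x‖ ≤ K * ‖psi b x‖ := fun x => by
    have := hK.le_mul_dist x 0
    simpa using this
  set P := LinearMap.toContinuousLinearMap (psi b) with hP
  have up : ∀ x : V, ‖psi b x‖ ≤ ‖P‖ * ‖x‖ := fun x => P.le_opNorm x
  constructor
  · intro ρ h0 h ρ' h1
    obtain ⟨C, hC, H⟩ := gelM M ρ ρ' h0 (fun z hz => h z ((roots b T z).mp hz)) h1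
    have hp : 0 < ρ' := lt_of_le_of_lt h0 h1
    refine ⟨K * C * ‖P‖, fun q x => ?_⟩
    have h2 := lo ((T ^ q) x)
    rw [psi_pow] at h2
    have h3 := H q (psi b x)
    have h4 := mul_le_mul_of_nonneg_left (up x) (by positivity : 0 ≤ C * ρ' ^ q)
    have h5 := mul_le_mul_of_nonneg_left (h3.trans h4) K.coe_nonneg
    calc ‖(T ^ q) x‖ ≤ K * ‖(M ^ q).mulVec (psi b x)‖ := h2
      _ ≤ K * (C * ρ' ^ q * (‖P‖ * ‖x‖)) := h5
      _ = K * C * ‖P‖ * ρ' ^ q * ‖x‖ := by ring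
  · intro ρ h0 h ρ' h1 h2
    have hz0 : (0 : ℂ) ∉ spectrum ℂ M := by
      intro hz
      have := h 0 ((roots b T 0).mp hz)
      rw [norm_zero] at this
      linarith
    have hu : IsUnit M := by
      by_contra hn
      exact hz0 ((spectrum.zero_mem_iff ℂ).mpr hn)
    obtain ⟨U, hU⟩ := hu
    have hs : ∀ z ∈ spectrum ℂ (↑U⁻¹ : Matrix (Fin (Module.finrank ℝ V)) (Fin (Module.finrank ℝ V)) ℂ),
        ‖z‖ ≤ ρ⁻¹ := by
      intro z hz
      have h3 := spectrum.inv₀_mem_iff.mpr hz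
      rw [hU] at h3
      have h4 := h z⁻¹ ((roots b T z⁻¹).mp h3)
      rw [norm_inv] at h4
      have h5 : 0 < ‖z‖ := by
        by_contra hn
        have : ‖z‖ = 0 := le_antisymm (not_lt.mp hn) (norm_nonneg _)
        rw [this, inv_zero] at h4
        linarith
      rw [le_inv_comm₀ h5 h0]
      exact h4
    have hi : ρ⁻¹ < ρ'⁻¹ := by
      rw [inv_lt_inv₀ h0 h1]
      exact h2
    obtain ⟨C, hC, H⟩ := gelM (↑U⁻¹ : Matrix (Fin (Module.finrank ℝ V)) (Fin (Module.finrank ℝ V)) ℂ)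
      ρ⁻¹ ρ'⁻¹ (by positivity) hs hi
    refine ⟨K * C * ‖P‖, fun q x => ?_⟩
    have hinv : (((↑U⁻¹ : Matrix (Fin (Module.finrank ℝ V)) (Fin (Module.finrank ℝ V)) ℂ) ^ q).mulVec
        ((M ^ q).mulVec (psi b x))) = psi b x := by
      rw [Matrix.mulVec_mulVec, ← hU, ← Units.val_pow_eq_pow_val, ← Units.val_pow_eq_pow_val,
        ← Units.val_mul, inv_pow, inv_mul_cancel, Units.val_one, Matrix.one_mulVec]
    have h3 := H q ((M ^ q).mulVec (psi b x))
    rw [hinv, ← psi_pow] at h3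
    have h4 := up ((T ^ q) x)
    have h5 := lo x
    have h6 := mul_le_mul_of_nonneg_left h4 (by positivity : 0 ≤ C * ρ'⁻¹ ^ q)
    have h7 := mul_le_mul_of_nonneg_left (h3.trans h6) K.coe_nonneg
    have h8 := mul_le_mul_of_nonneg_left (h5.trans h7) (by positivity : 0 ≤ ρ' ^ q)
    calc ρ' ^ q * ‖x‖ ≤ ρ' ^ q * (K * (C * ρ'⁻¹ ^ q * (‖P‖ * ‖(T ^ q) x‖))) := h8
      _ = K * C * ‖P‖ * ‖(T ^ q) x‖ * (ρ' ^ q * ρ'⁻¹ ^ q) := by ring
      _ = K * C * ‖P‖ * ‖(T ^ q) x‖ := by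
        rw [← mul_pow, mul_inv_cancel₀ h1.ne', one_pow, mul_one]

end Pool.Agent.Q192.PK
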