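import Pool.Agent.Q192.PK.K9a

/-!
# Project PK: following the expanded subspaces along a periodic orbit
-/

set_option autoImplicit false
set_option linter.unusedSectionVars false

open Filter Topology Set Metric
open scoped Pointwise

namespace Pool.Agent.Q192.PK

universe u v

variable {X : Type u} {E : Type v} [NormedAddCommGroup E] [InnerProductSpace ℝ E]
  [FiniteDimensional ℝ E]

/-- One block. -/
theorem block_facts (h1 : SK1.{v}) (h2 : SK2.{v}) (C : Coc X E) (N d : ℕ)
    (hd : 1 ≤ d) (lam η ε : ℝ) (hε : 0 < ε)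
    (ha : ∀ x, ∀ v ∈ C.V x, ‖C.it N x v‖ ≤ Real.exp ((lam + ε) * N + C.bs N x) * ‖v‖)
    (hb : ∀ (x : X) (U : Submodule ℝ E), U ≤ C.V x → Module.finrank ℝ U = d → ∀ v ∈ C.V x,
        jac (C.it N x) U * infDist (C.it N x v) (U.map (C.it N x) : Set E) ≤
          Real.exp (((d + 1) * lam - η) * N + (d + 1) * C.bs N x) * infDist v (U : Set E))
    (x : X) (U : Submodule ℝ E) (hU : U ≤ C.V x) (hUd : Module.finrank ℝ U = d) :
    0 ≤ d * ((lam + ε) * N + C.bs N x) - Real.log (jac (C.it N x) U) ∧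
    d * ((lam + ε) * N + C.bs N x) - Real.log (jac (C.it N x) U) ≤
      d * (|lam + ε| * N + N * C.B + N * Real.log C.L) ∧
    (∀ v ∈ U, Real.exp (-(d * ((lam + ε) * N + C.bs N x) - Real.log (jac (C.it N x) U))) * ‖v‖ ≤
      Real.exp (-((lam + ε) * N + C.bs N x)) * ‖C.it N x v‖) ∧
    ∀ v ∈ C.V x, Real.exp (-((lam + ε) * N + C.bs N x)) *
        infDist (C.it N x v) (U.map (C.it N x) : Set E) ≤
      Real.exp (-(η * N) + (d * ((lam + ε) * N + C.bs N x) - Real.log (jac (C.it N x) U))) *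
        infDist v (U : Set E) := by
  set w := (lam + ε) * N + C.bs N x with hw
  set J := jac (C.it N x) U with hJ
  have hL := C.one_le_L
  have hJ0 : 0 < J := jac_it_pos C h1 N x hU
  have hJexp : Real.exp (Real.log J) = J := Real.exp_log hJ0
  have hup : J ≤ Real.exp w ^ d := by
    have := (h1 E).2.1 (C.it N x) U (Real.exp w) (Real.exp_pos _).le (fun v hv => ha x v (hU hv))
    rwa [hUd] at this
  have hlo : (C.L ^ N)⁻¹ ^ d ≤ J := by
    have := jac_it_ge C h1 N x hU
    rwa [hUd] at this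
  have hlogJ : Real.log J ≤ d * w := by
    have := Real.log_le_log hJ0 hup
    rwa [Real.log_pow, Real.log_exp] at this
  have hlogJ' : -(d * (N * Real.log C.L)) ≤ Real.log J := by
    have := Real.log_le_log (by positivity) hlo
    rw [Real.log_pow, Real.log_inv, Real.log_pow] at this
    linarith
  refine ⟨by linarith, ?_, ?_, ?_⟩
  · have h3 : (lam + ε) * N ≤ |lam + ε| * N :=
      mul_le_mul_of_nonneg_right (le_abs_self _) (Nat.cast_nonneg _)
    have h4 : C.bs N x ≤ N * C.B := (le_abs_self _).trans (bs_abs C N x)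
    have h5 : (d : ℝ) * w ≤ d * (|lam + ε| * N + N * C.B) :=
      mul_le_mul_of_nonneg_left (by linarith) (Nat.cast_nonneg _)
    have h6 : (d : ℝ) * (|lam + ε| * N + N * C.B + N * Real.log C.L) =
      d * (|lam + ε| * N + N * C.B) + d * (N * Real.log C.L) := by ring
    rw [h6]
    linarith
  · intro v hv
    have h3 := (h2 E).2 (C.it N x) U (Real.exp w) (Real.exp_pos _).le
      (fun v hv => ha x v (hU hv)) v hv
    rw [hUd, ← hJ] at h3
    obtain ⟨e, rfl⟩ : ∃ e, d = e + 1 := ⟨d - 1, by omega⟩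
    rw [Nat.add_sub_cancel] at h3
    have e1 : Real.exp (-(((e + 1 : ℕ) : ℝ) * w - Real.log J)) =
        J * Real.exp (-(((e + 1 : ℕ) : ℝ) * w)) := by
      rw [neg_sub, sub_eq_add_neg, Real.exp_add, hJexp]
    have e2 : Real.exp (-w) = Real.exp w ^ e * Real.exp (-(((e + 1 : ℕ) : ℝ) * w)) := by
      rw [← Real.exp_nat_mul, ← Real.exp_add]
      congr 1
      push_cast
      ring
    have e3 : 0 < Real.exp (-(((e + 1 : ℕ) : ℝ) * w)) := Real.exp_pos _
    rw [e1, e2]
    have h4 := mul_le_mul_of_nonneg_right h3 e3.le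
    calc _ = J * ‖v‖ * Real.exp (-(((e + 1 : ℕ) : ℝ) * w)) := by ring
      _ ≤ _ := h4
      _ = _ := by ring
  · intro v hv
    have h3 := hb x U hU hUd v hv
    rw [← hJ] at h3
    set I := infDist v (U : Set E) with hI
    have hI0 : 0 ≤ I := infDist_nonneg
    set I' := infDist (C.it N x v) (U.map (C.it N x) : Set E) with hI'
    have e1 : Real.exp (-(η * N) + (d * w - Real.log J)) * J =
        Real.exp (-(η * N) + d * w) := by
      have : -(η * N) + (d * w - Real.log J) = (-(η * N) + d * w) + -Real.log J := by ring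
      rw [this, Real.exp_add, Real.exp_neg, hJexp, mul_assoc, inv_mul_cancel₀ hJ0.ne', mul_one]
    have e2 : Real.exp (-w) * Real.exp (((d + 1) * lam - η) * N + (d + 1) * C.bs N x) ≤
        Real.exp (-(η * N) + d * w) := by
      rw [← Real.exp_add]
      apply Real.exp_le_exp.2
      have : (-(η * N) + d * w) - (-w + (((d + 1) * lam - η) * N + (d + 1) * C.bs N x)) =
          (d + 1) * (ε * N) := by rw [hw]; ring
      have h0 : (0 : ℝ) ≤ (d + 1) * (ε * N) := by positivity
      linarith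
    have h4 : J * (Real.exp (-w) * I') ≤
        J * (Real.exp (-(η * N) + (d * w - Real.log J)) * I) := by
      calc J * (Real.exp (-w) * I') = Real.exp (-w) * (J * I') := by ring
        _ ≤ Real.exp (-w) *
            (Real.exp (((d + 1) * lam - η) * N + (d + 1) * C.bs N x) * I) :=
          mul_le_mul_of_nonneg_left h3 (Real.exp_pos _).le
        _ = (Real.exp (-w) * Real.exp (((d + 1) * lam - η) * N + (d + 1) * C.bs N x)) * I := by
          ring
        _ ≤ Real.exp (-(η * N) + d * w) * I := mul_le_mul_of_nonneg_right e2 hI0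
        _ = J * (Real.exp (-(η * N) + (d * w - Real.log J)) * I) := by
          rw [← e1]; ring
    exact le_of_mul_le_mul_left h4 hJ0

/-- Following the expanded subspaces along a periodic orbit. -/
theorem block_cone (h1 : SK1.{v}) (h2 : SK2.{v}) (h6 : SK6.{v}) (h8 : SK8.{u, v}) (C : Coc X E)
    (N d : ℕ) (hN : 1 ≤ N) (hd : 1 ≤ d) (lam η ε C₀ : ℝ) (hC₀ : 0 ≤ C₀) (hε : 0 < ε)
    (hη : 0 < η) (hε1 : 32 * d * ε ≤ min η (Real.log 2))
    (ha : ∀ x, ∀ v ∈ C.V x, ‖C.it N x v‖ ≤ Real.exp ((lam + ε) * N + C.bs N x) * ‖v‖)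
    (hb : ∀ (x : X) (U : Submodule ℝ E), U ≤ C.V x → Module.finrank ℝ U = d → ∀ v ∈ C.V x,
        jac (C.it N x) U * infDist (C.it N x v) (U.map (C.it N x) : Set E) ≤
          Real.exp (((d + 1) * lam - η) * N + (d + 1) * C.bs N x) * infDist v (U : Set E)) :
    ∃ θ₀ : ℝ, 0 < θ₀ ∧ ∀ θ : ℝ, 0 < θ → θ ≤ θ₀ → ∃ c₀ : ℝ, 0 < c₀ ∧ ∃ m₀ : ℕ,
      ∀ c : ℝ, 0 < c → c ≤ c₀ → c ≤ 1 / 2 → ∀ m : ℕ, m₀ ≤ m → ∀ (x p : X) (U : Submodule ℝ E)
        (J : ℕ → E →ₗ[ℝ] E), U ≤ C.V x → Module.finrank ℝ U = d → CJ C C₀ c (N * m) x p J →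
        (∀ k ≤ m, ∑ l ∈ Finset.range k, bet C N d (lam + ε) x U l ≤ (8 * d * ε * N) * k) →
        (∀ k ≤ m, ∑ l ∈ Finset.Ico k m, bet C N d (lam + ε) x U l ≤
          (8 * d * ε * N) * (m - k : ℕ)) →
        ∀ w ∈ C.V p, infDist (J 0 w) (U : Set E) ≤ θ * ‖J 0 w‖ →
          infDist (J (N * m) (C.it (N * m) p w)) (U.map (C.it (N * m) x) : Set E) ≤
            θ / 4 * ‖J (N * m) (C.it (N * m) p w)‖ ∧
          1 / 2 * Real.exp (-(8 * d * ε * N) * m + ((lam + ε) * (N * m) + C.bs (N * m) x)) *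
            ‖J 0 w‖ ≤ ‖J (N * m) (C.it (N * m) p w)‖ := by
  obtain ⟨C₃, hC₃, h8'⟩ := h8 X E C N C₀ hN hC₀
  set s := lam + ε with hs
  set K := Real.exp (N * (|s| + C.B)) with hK
  set β₁ : ℝ := d * (|s| * N + N * C.B + N * Real.log C.L) with hβ₁
  have hL := C.one_le_L
  have hN0 : (1 : ℝ) ≤ N := by exact_mod_cast hN
  have hd0 : (1 : ℝ) ≤ d := by exact_mod_cast hd
  have hlog2 : 0 < Real.log 2 := Real.log_pos (by norm_num)
  have hmin0 : 0 < min η (Real.log 2) := lt_min hη hlog2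
  have hmin1 : min η (Real.log 2) ≤ η := min_le_left _ _
  have hmin2 : min η (Real.log 2) ≤ Real.log 2 := min_le_right _ _
  have hdε : 0 < d * ε := by positivity
  have e1 : 2 * (8 * d * ε * N) + min η (Real.log 2) / 2 * N ≤ η * N := by
    have : 2 * (8 * d * ε * N) + min η (Real.log 2) / 2 * N =
        (16 * d * ε + min η (Real.log 2) / 2) * N := by ring
    rw [this]
    exact mul_le_mul_of_nonneg_right (by linarith) (by linarith)
  have hρ : ((1 : ℝ) / 2) ^ N = Real.exp (-(N * Real.log 2)) := by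
    rw [Real.exp_neg, Real.exp_nat_mul, Real.exp_log (by norm_num), one_div, inv_pow]
  have e2 : ((1 : ℝ) / 2) ^ N * Real.exp (2 * (8 * d * ε * N)) ≤
      Real.exp (-(min η (Real.log 2) / 2 * N)) := by
    rw [hρ, ← Real.exp_add]
    apply Real.exp_le_exp.2
    have : (16 * d * ε + min η (Real.log 2) / 2) * N ≤ Real.log 2 * N :=
      mul_le_mul_of_nonneg_right (by linarith) (by linarith)
    nlinarith
  obtain ⟨θ₀, hθ₀, H⟩ := h6 E (max 1 (K * C₃)) (max 0 β₁) (η * N) (min η (Real.log 2) / 2 * N)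
    ((1 / 2) ^ N) (8 * d * ε * N) (le_max_left _ _) (le_max_left _ _) (by positivity)
    (by positivity) (pow_lt_one₀ (by norm_num) (by norm_num) (by omega)) (by positivity) e1 e2
  refine ⟨θ₀, hθ₀, fun θ hθ hθ' => ?_⟩
  obtain ⟨c₀, hc₀, m₀, H'⟩ := H θ hθ hθ'
  refine ⟨c₀, hc₀, m₀, fun c hc hcc hc2 m hm x p U J hU hUd hJ hg1 hg2 w hw hcone => ?_⟩
  -- the block data
  let x' : ℕ → X := fun k => C.g^[N * k] x
  let U' : ℕ → Submodule ℝ E := fun k => U.map (C.it (N * k) x)
  let b : ℕ → ℝ := fun k => s * N + C.bs N (x' k)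
  let P : ℕ → ℝ := fun k => Real.exp (-(s * (N * k) + C.bs (N * k) x))
  have hU' : ∀ k, U' k ≤ C.V (x' k) := fun k => map_le C _ _ hU
  have hUd' : ∀ k, Module.finrank ℝ (U' k) = d := fun k => by
    rw [← hUd]; exact map_finrank C _ _ hU
  have hmul : ∀ k : ℕ, N * (k + 1) = N + N * k := fun k => by ring
  have hPs : ∀ k, P (k + 1) = Real.exp (-b k) * P k := by
    intro k
    show Real.exp (-(s * (N * ((k + 1 : ℕ) : ℝ)) + C.bs (N * (k + 1)) x)) = _
    rw [← Real.exp_add, hmul, bs_add]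
    congr 1
    push_cast
    ring
  have hP0 : ∀ k, 0 < P k := fun k => Real.exp_pos _
  have hpos : ∀ k, 0 < Real.exp (-b k) := fun k => Real.exp_pos _
  have hiters : ∀ (k : ℕ) (z : X), C.g^[N * (k + 1)] z = C.g^[N] (C.g^[N * k] z) := fun k z => by
    rw [hmul, Function.iterate_add_apply]
  have facts := fun k => block_facts h1 h2 C N d hd lam η ε hε ha hb (x' k) (U' k) (hU' k)
    (hUd' k)
  have hbk : ∀ k, Real.exp (-b k) ≤ K := by
    intro k
    apply Real.exp_le_exp.2
    have h3 : -(s * N) ≤ |s| * N := by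
      have := mul_le_mul_of_nonneg_right (neg_abs_le s) (by linarith : (0 : ℝ) ≤ N)
      linarith
    have h4 : -(N * C.B) ≤ C.bs N (x' k) := (abs_le.1 (bs_abs C N (x' k))).1
    show -(s * N + C.bs N (x' k)) ≤ N * (|s| + C.B)
    linarith
  have hmain := H' c hc hcc m hm (fun k => C.V (x' k)) U'
    (fun k => Real.exp (-b k) • C.it N (x' k))
    (fun k => P k • J (N * k) (C.it (N * k) p w)) (fun k => bet C N d s x U k)
    (fun k => (facts k).1) (fun k _ => (facts k).2.1.trans (le_max_right _ _)) hg1 hg2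
    (fun k _ => hU' k) ?_ ?_ ?_ ?_ ?_ ?_ ?_ ?_
  · -- conclusion
    obtain ⟨r1, r2⟩ := hmain
    have hPm := hP0 m
    rw [infDist_smul_sub _ _ hPm, norm_smul, Real.norm_of_nonneg hPm.le] at r1
    rw [norm_smul, norm_smul, Real.norm_of_nonneg hPm.le, Real.norm_of_nonneg (hP0 0).le] at r2
    constructor
    · have : P m * infDist (J (N * m) (C.it (N * m) p w)) (U' m : Set E) ≤
          P m * (θ / 4 * ‖J (N * m) (C.it (N * m) p w)‖) := by linarith
      exact le_of_mul_le_mul_left this hPm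
    · have hP00 : P 0 = 1 := by
        show Real.exp (-(s * (N * ((0 : ℕ) : ℝ)) + C.bs (N * 0) x)) = 1
        rw [Nat.mul_zero, bs_zero]
        simp
      rw [hP00, one_mul] at r2
      have e3 : J (N * 0) (C.it (N * 0) p w) = J 0 w := by
        rw [Nat.mul_zero, it_zero]; rfl
      rw [e3] at r2
      have e4 : Real.exp (-(8 * d * ε * N) * m + (s * (N * m) + C.bs (N * m) x)) * P m =
          Real.exp (-(8 * d * ε * N) * m) := by
        rw [← Real.exp_add]
        congr 1
        ring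
      have : P m * (1 / 2 * Real.exp (-(8 * d * ε * N) * m + (s * (N * m) + C.bs (N * m) x)) *
          ‖J 0 w‖) ≤ P m * ‖J (N * m) (C.it (N * m) p w)‖ := by
        calc _ = 1 / 2 * (Real.exp (-(8 * d * ε * N) * m + (s * (N * m) + C.bs (N * m) x)) *
              P m) * ‖J 0 w‖ := by ring
          _ ≤ _ := by rw [e4]; exact r2
      exact le_of_mul_le_mul_left this hPm
  · -- images
    intro k _
    show (U.map (C.it (N * k) x)).map (Real.exp (-b k) • C.it N (x' k)) =
      U.map (C.it (N * (k + 1)) x)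
    rw [hmul, map_add, Submodule.map_smul _ _ _ (hpos k).ne']
  · intro k _ v hv
    show Real.exp (-b k) • C.it N (x' k) v ∈ C.V (C.g^[N * (k + 1)] x)
    rw [hiters]
    exact (C.V _).smul_mem _ (it_mem C N (x' k) hv)
  · intro k _ v hv
    show ‖Real.exp (-b k) • C.it N (x' k) v‖ ≤ ‖v‖
    rw [norm_smul, Real.norm_of_nonneg (hpos k).le]
    have := mul_le_mul_of_nonneg_left (ha (x' k) v hv) (hpos k).le
    rw [← mul_assoc, ← Real.exp_add] at this
    have e : -b k + ((lam + ε) * N + C.bs N (x' k)) = 0 := by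
      show -(s * N + C.bs N (x' k)) + _ = _
      rw [hs]; ring
    rwa [e, Real.exp_zero, one_mul] at this
  · intro k _ v hv
    show _ ≤ ‖Real.exp (-b k) • C.it N (x' k) v‖
    rw [norm_smul, Real.norm_of_nonneg (hpos k).le]
    exact (facts k).2.2.1 v hv
  · intro k _ v hv
    have e : U' (k + 1) = (U' k).map (C.it N (x' k)) := by
      show U.map (C.it (N * (k + 1)) x) = _
      rw [hmul, map_add]
    show infDist (Real.exp (-b k) • C.it N (x' k) v) (U' (k + 1) : Set E) ≤ _
    rw [infDist_smul_sub _ _ (hpos k), e]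
    exact (facts k).2.2.2 v hv
  · intro k hk
    exact (C.V _).smul_mem _ ((hJ.1 (N * k) (Nat.mul_le_mul_left _ hk) _
      (it_mem C (N * k) p hw)).1)
  · intro k hk
    show ‖P (k + 1) • J (N * (k + 1)) (C.it (N * (k + 1)) p w) -
      (Real.exp (-b k) • C.it N (x' k)) (P k • J (N * k) (C.it (N * k) p w))‖ ≤ _
    have e : C.it (N * (k + 1)) p w = C.it N (C.g^[N * k] p) (C.it (N * k) p w) := by
      rw [hmul, it_add]; rfl
    have e' : P (k + 1) • J (N * (k + 1)) (C.it (N * (k + 1)) p w) -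
        (Real.exp (-b k) • C.it N (x' k)) (P k • J (N * k) (C.it (N * k) p w)) =
        P (k + 1) • (J (N * (k + 1)) (C.it N (C.g^[N * k] p) (C.it (N * k) p w)) -
          C.it N (x' k) (J (N * k) (C.it (N * k) p w))) := by
      rw [e, hPs, smul_sub, LinearMap.smul_apply, map_smul, smul_smul]
    rw [e', norm_smul, Real.norm_of_nonneg (hP0 (k + 1)).le]
    have h9 := h8' c m x p J hc.le hc2 hJ k hk (C.it (N * k) p w) (it_mem C (N * k) p hw)
    rw [norm_smul, Real.norm_of_nonneg (hP0 k).le]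
    set Y := ‖J (N * k) (C.it (N * k) p w)‖ with hY
    have hY0 : 0 ≤ Y := norm_nonneg _
    set δ : ℝ := ((1 / 2) ^ N) ^ k + ((1 / 2) ^ N) ^ (m - k) with hδ
    have hδ0 : 0 ≤ δ := by positivity
    calc P (k + 1) * _ ≤ P (k + 1) * (C₃ * c * δ * Y) :=
          mul_le_mul_of_nonneg_left h9 (hP0 _).le
      _ = (Real.exp (-b k) * C₃) * (c * δ * (P k * Y)) := by rw [hPs]; ring
      _ ≤ (K * C₃) * (c * δ * (P k * Y)) := by
          apply mul_le_mul_of_nonneg_right
          · exact mul_le_mul_of_nonneg_right (hbk k) hC₃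
          · have := (hP0 k).le
            positivity
      _ ≤ max 1 (K * C₃) * (c * δ * (P k * Y)) := by
          apply mul_le_mul_of_nonneg_right (le_max_right _ _)
          have := (hP0 k).le
          positivity
      _ = _ := by ring
  · show infDist (P 0 • J (N * 0) (C.it (N * 0) p w)) (U.map (C.it (N * 0) x) : Set E) ≤
      θ * ‖P 0 • J (N * 0) (C.it (N * 0) p w)‖
    rw [infDist_smul_sub _ _ (hP0 0), norm_smul, Real.norm_of_nonneg (hP0 0).le, Nat.mul_zero,
      it_zero, it_zero, Submodule.map_id]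
    have := mul_le_mul_of_nonneg_left hcone (hP0 0).le
    simp only [LinearMap.id_apply]
    linarith

end Pool.Agent.Q192.PK
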