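import Pool.Agent.Q192.PK.ManDefs
import Pool.Agent.Q192.PK.K15

/-!
# Project PK: from eigenvalues to growth at the periodic points
-/

set_option autoImplicit false
set_option linter.unusedSectionVars false

open scoped Manifold ContDiff Topology Bundle
open Set Filter Bundle

namespace Pool.Agent.Q192.PK

open Pool.Agent.H721R2

variable {E : Type*} [NormedAddCommGroup E] [NormedSpace ℝ E] [FiniteDimensional ℝ E]
  {M : Type*} [TopologicalSpace M] [ChartedSpace E M] [IsManifold 𝓘(ℝ, E) 1 M]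

/-- The return map. -/
noncomputable def ret (f : M → M) (V : M → Submodule ℝ E) (k : ℕ) (p : M)
    (h : ∀ v ∈ V p, dg E (f^[k]) p v ∈ V p) : V p →ₗ[ℝ] V p :=
  (dg E (f^[k]) p : E →ₗ[ℝ] E).restrict h

theorem iter_per {f : M → M} {k : ℕ} {p : M} (hp : f^[k] p = p) (q : ℕ) : f^[k * q] p = p := by
  rw [Function.iterate_mul]
  exact Function.iterate_fixed hp q

theorem ret_pow {f : M → M} (hf : ContMDiff 𝓘(ℝ, E) 𝓘(ℝ, E) 1 f) (V : M → Submodule ℝ E) (k : ℕ)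
    (p : M) (hp : f^[k] p = p) (h : ∀ v ∈ V p, dg E (f^[k]) p v ∈ V p) (q : ℕ) (v : V p) :
    (((ret f V k p h) ^ q) v : E) = dg E (f^[k * q]) p (v : E) := by
  induction q with
  | zero =>
    rw [pow_zero, Nat.mul_zero]
    show (v : E) = mfderiv 𝓘(ℝ, E) 𝓘(ℝ, E) id p (v : E)
    rw [mfderiv_id]
    rfl
  | succ q ih =>
    rw [pow_succ']
    show dg E (f^[k]) p (((ret f V k p h) ^ q) v : E) = _
    rw [ih]
    have e : f^[k * (q + 1)] = f^[k] ∘ f^[k * q] := by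
      rw [← Function.iterate_add]
      congr 1
      ring
    rw [e, dg_comp _ _ (iter_smooth f hf (k * q)) (iter_smooth f hf k), iter_per hp]

theorem ret_eig {f : M → M} (V : M → Submodule ℝ E) (k : ℕ)
    (p : M) (h : ∀ v ∈ V p, dg E (f^[k]) p v ∈ V p) (z : ℂ)
    (hz : ((ret f V k p h).charpoly.map
      (algebraMap ℝ ℂ)).IsRoot z) : ReturnEigenvalue (E := E) f V k p z :=
  ⟨ret f V k p h, fun _ => rfl, hz⟩

theorem perUp_of_rates {f : M → M} (hf : ContMDiff 𝓘(ℝ, E) 𝓘(ℝ, E) 1 f)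
    (V : M → Submodule ℝ E)
    (hV : ∀ (n : ℕ) (x : M), ∀ v ∈ V x,
      dg E (f^[n]) x v ∈ V (f^[n] x)) {a b : ℝ} (hb : 0 ≤ b)
    (h : PeriodicRates (E := E) f V a b) : PerUp f V b := by
  intro k p hk hp l hl
  have hV' : ∀ v ∈ V p, dg E (f^[k]) p v ∈ V p := by
    intro v hv
    have := hV k p v hv
    rwa [hp] at this
  obtain ⟨A, hA⟩ := (sK15 (V p)
    (ret f V k p hV')).1 (b ^ k) (by positivity)
    (fun z hz => (h k p hk hp z (ret_eig V k p hV' z hz)).2) (l ^ k)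
    (pow_lt_pow_left₀ hl hb (by omega))
  refine ⟨A, fun q v hv => ?_⟩
  have := hA q ⟨v, hv⟩
  rw [← pow_mul] at this
  have e := ret_pow hf V k p hp hV' q ⟨v, hv⟩
  rw [← e]
  exact this

theorem perLo_of_rates {f : M → M} (hf : ContMDiff 𝓘(ℝ, E) 𝓘(ℝ, E) 1 f)
    (V : M → Submodule ℝ E)
    (hV : ∀ (n : ℕ) (x : M), ∀ v ∈ V x,
      dg E (f^[n]) x v ∈ V (f^[n] x)) {a b : ℝ} (ha : 0 < a)
    (h : PeriodicRates (E := E) f V a b) : PerLo f V a := by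
  intro k p hk hp l hl0 hl
  have hV' : ∀ v ∈ V p, dg E (f^[k]) p v ∈ V p := by
    intro v hv
    have := hV k p v hv
    rwa [hp] at this
  obtain ⟨A, hA⟩ := (sK15 (V p)
    (ret f V k p hV')).2 (a ^ k) (by positivity)
    (fun z hz => (h k p hk hp z (ret_eig V k p hV' z hz)).1) (l ^ k) (by positivity)
    (pow_lt_pow_left₀ hl hl0.le (by omega))
  refine ⟨A, fun q v hv => ?_⟩
  have := hA q ⟨v, hv⟩
  rw [← pow_mul] at this
  have e := ret_pow hf V k p hp hV' q ⟨v, hv⟩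
  rw [← e]
  exact this

theorem perDis_of_one {f : M → M} (hf : ContMDiff 𝓘(ℝ, E) 𝓘(ℝ, E) 1 f)
    (V : M → Submodule ℝ E)
    (hV : ∀ (n : ℕ) (x : M), ∀ v ∈ V x,
      dg E (f^[n]) x v ∈ V (f^[n] x))
    (hinj : ∀ (n : ℕ) (x : M), ∀ v ∈ V x, dg E (f^[n]) x v = 0 → v = 0)
    (h : OneModulus (E := E) f V) : PerDis f V := by
  intro k p hk hp κ hκ
  have hV' : ∀ v ∈ V p, dg E (f^[k]) p v ∈ V p := by
    intro v hv
    have := hV k p v hv
    rwa [hp] at this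
  set W : Submodule ℝ E := V p with hW
  set T : W →ₗ[ℝ] W := ret f V k p hV' with hT
  rcases subsingleton_or_nontrivial W with hs | hn
  · refine ⟨0, fun q v hv w hw => ?_⟩
    have : v = 0 := congrArg Subtype.val (Subsingleton.elim (⟨v, hv⟩ : W) 0)
    rw [this, map_zero, norm_zero]
    simp
  -- a root
  have hdeg : (T.charpoly.map (algebraMap ℝ ℂ)).degree ≠ 0 := by
    rw [Polynomial.degree_map, Polynomial.degree_eq_natDegree T.charpoly_monic.ne_zero,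
      LinearMap.charpoly_natDegree]
    have : 0 < Module.finrank ℝ W := Module.finrank_pos
    exact_mod_cast this.ne'
  obtain ⟨z₀, hz₀⟩ := IsAlgClosed.exists_root (T.charpoly.map (algebraMap ℝ ℂ)) hdeg
  have hroot : ∀ z : ℂ, (T.charpoly.map (algebraMap ℝ ℂ)).IsRoot z → ‖z‖ = ‖z₀‖ := fun z hz =>
    h k p hk hp z z₀ (ret_eig V k p hV' z hz) (ret_eig V k p hV' z₀ hz₀)
  have hz0 : z₀ ≠ 0 := by
    rintro rfl
    have h1 : T.charpoly.coeff 0 = 0 := by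
      have h2 : (T.charpoly.map (algebraMap ℝ ℂ)).coeff 0 = 0 := by
        rw [Polynomial.coeff_zero_eq_eval_zero]
        exact hz₀
      rw [Polynomial.coeff_map] at h2
      exact (map_eq_zero (algebraMap ℝ ℂ)).1 h2
    have h2 : LinearMap.det T = 0 := by
      rw [LinearMap.det_eq_sign_charpoly_coeff, h1, mul_zero]
    have h3 := LinearMap.bot_lt_ker_of_det_eq_zero h2
    apply h3.ne'
    rw [LinearMap.ker_eq_bot']
    rintro ⟨v, hv⟩ h4
    have h5 : dg E (f^[k]) p v = 0 := congrArg Subtype.val h4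
    exact Subtype.ext (hinj k p v hv h5)
  set ρ := ‖z₀‖ with hρ
  have hρ0 : 0 < ρ := norm_pos_iff.2 hz0
  set s := Real.sqrt κ with hs
  have hs1 : 1 < s := by
    rw [hs, Real.lt_sqrt zero_le_one]
    simpa using hκ
  have hs0 : 0 < s := by linarith
  have hss : s * s = κ := Real.mul_self_sqrt (by linarith)
  obtain ⟨A, hA⟩ := (sK15 W T).1 ρ hρ0.le (fun z hz => (hroot z hz).le) (ρ * s) (by nlinarith)
  obtain ⟨B, hB⟩ := (sK15 W T).2 ρ hρ0 (fun z hz => (hroot z hz).ge) (ρ / s) (by positivity)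
    (div_lt_self hρ0 hs1)
  refine ⟨|A| * |B|, fun q v hv w hw => ?_⟩
  have hv1 := hA q ⟨v, hv⟩
  have hw1 := hB q ⟨w, hw⟩
  have ev := ret_pow hf V k p hp hV' q ⟨v, hv⟩
  have ew := ret_pow hf V k p hp hV' q ⟨w, hw⟩
  rw [← ev, ← ew]
  change ‖(T ^ q) ⟨v, hv⟩‖ * ‖w‖ ≤ _ * (‖(T ^ q) ⟨w, hw⟩‖ * ‖v‖)
  have e1 : ‖(⟨v, hv⟩ : W)‖ = ‖v‖ := rfl
  have e2 : ‖(⟨w, hw⟩ : W)‖ = ‖w‖ := rfl
  rw [e1] at hv1
  rw [e2] at hw1
  set x := ‖(T ^ q) ⟨v, hv⟩‖
  set y := ‖(T ^ q) ⟨w, hw⟩‖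
  have hx0 : 0 ≤ x := norm_nonneg _
  have hy0 : 0 ≤ y := norm_nonneg _
  have hρq : 0 < ρ ^ q := by positivity
  have hsq : 0 < s ^ q := by positivity
  have h1 : x ≤ |A| * (ρ ^ q * s ^ q) * ‖v‖ := by
    refine hv1.trans ?_
    rw [mul_pow]
    exact mul_le_mul_of_nonneg_right (mul_le_mul_of_nonneg_right (le_abs_self _) (by positivity))
      (norm_nonneg _)
  have h2 : ρ ^ q * ‖w‖ ≤ |B| * s ^ q * y := by
    have h3 : (ρ / s) ^ q * ‖w‖ ≤ |B| * y :=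
      hw1.trans (mul_le_mul_of_nonneg_right (le_abs_self _) hy0)
    rw [div_pow, div_mul_eq_mul_div, div_le_iff₀ hsq] at h3
    linarith
  have h3 : κ ^ q ≤ κ ^ (k * q) := pow_le_pow_right₀ hκ.le (Nat.le_mul_of_pos_left _ hk)
  have h4 : s ^ q * s ^ q = κ ^ q := by rw [← mul_pow, hss]
  calc x * ‖w‖ ≤ (|A| * (ρ ^ q * s ^ q) * ‖v‖) * ‖w‖ :=
        mul_le_mul_of_nonneg_right h1 (norm_nonneg _)
    _ = |A| * s ^ q * ‖v‖ * (ρ ^ q * ‖w‖) := by ring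
    _ ≤ |A| * s ^ q * ‖v‖ * (|B| * s ^ q * y) := mul_le_mul_of_nonneg_left h2 (by positivity)
    _ = |A| * |B| * (s ^ q * s ^ q) * (y * ‖v‖) := by ring
    _ = |A| * |B| * κ ^ q * (y * ‖v‖) := by rw [h4]
    _ ≤ |A| * |B| * κ ^ (k * q) * (y * ‖v‖) := by
        apply mul_le_mul_of_nonneg_right _ (by positivity)
        exact mul_le_mul_of_nonneg_left h3 (by positivity)

section inverse

variable {f : M ≃ₜ M} (hf : ContMDiff 𝓘(ℝ, E) 𝓘(ℝ, E) 1 f)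
  (hf' : ContMDiff 𝓘(ℝ, E) 𝓘(ℝ, E) 1 f.symm) {V : M → Submodule ℝ E}
  (hV : ∀ (n : ℕ) (x : M), ∀ v ∈ V x, dg E (f.symm^[n]) x v ∈ V (f.symm^[n] x))

theorem per_symm {k : ℕ} {p : M} (hp : f.symm^[k] p = p) : f^[k] p = p := by
  have h2 : f^[k] (f.symm^[k] p) = p := iter_right f k p
  rwa [hp] at h2

include hf hf' hV

theorem symm_vec {k : ℕ} {p : M} (hp : f.symm^[k] p = p) (q : ℕ) {v : E} (hv : v ∈ V p) :
    dg E (f.symm^[k * q]) p v ∈ V p ∧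
      dg E (f^[k * q]) p (dg E (f.symm^[k * q]) p v) = v := by
  have h1 : f.symm^[k * q] p = p := iter_per hp q
  have h2 := hV (k * q) p v hv
  rw [h1] at h2
  refine ⟨h2, ?_⟩
  have h3 := dg_inv (f.symm^[k * q]) (f^[k * q]) (iter_smooth f.symm hf' _)
    (iter_smooth f hf _) (iter_right f _) p v
  rwa [h1] at h3

theorem perUp_symm {a : ℝ} (ha : 0 < a) (h : PerLo f V a) : PerUp f.symm V a⁻¹ := by
  intro k p hk hp l hl
  have hl0 : 0 < l := lt_trans (inv_pos.2 ha) hl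
  obtain ⟨A, hA⟩ := h k p hk (per_symm hp) l⁻¹ (inv_pos.2 hl0) (by
    rw [inv_lt_comm₀ hl0 ha]; exact hl)
  refine ⟨A, fun q v hv => ?_⟩
  obtain ⟨m1, m2⟩ := symm_vec hf hf' hV hp q hv
  have h1 := hA q _ m1
  rw [m2, inv_pow, inv_mul_le_iff₀ (by positivity)] at h1
  linarith

theorem perLo_symm {b : ℝ} (hb : 0 < b) (h : PerUp f V b) : PerLo f.symm V b⁻¹ := by
  intro k p hk hp l hl0 hl
  obtain ⟨A, hA⟩ := h k p hk (per_symm hp) l⁻¹ (by
    rw [lt_inv_comm₀ hb hl0]; exact hl)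
  refine ⟨A, fun q v hv => ?_⟩
  obtain ⟨m1, m2⟩ := symm_vec hf hf' hV hp q hv
  have h1 := hA q _ m1
  rw [m2, inv_pow] at h1
  have hlp : 0 < l ^ (k * q) := by positivity
  calc l ^ (k * q) * ‖v‖ ≤ l ^ (k * q) * (A * (l ^ (k * q))⁻¹ * ‖dg E (f.symm^[k * q]) p v‖) :=
        mul_le_mul_of_nonneg_left h1 hlp.le
    _ = (l ^ (k * q) * (l ^ (k * q))⁻¹) * (A * ‖dg E (f.symm^[k * q]) p v‖) := by ring
    _ = _ := by rw [mul_inv_cancel₀ hlp.ne', one_mul]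

theorem perDis_symm (h : PerDis f V) : PerDis f.symm V := by
  intro k p hk hp κ hκ
  obtain ⟨A, hA⟩ := h k p hk (per_symm hp) κ hκ
  refine ⟨A, fun q v hv w hw => ?_⟩
  obtain ⟨m1, m2⟩ := symm_vec hf hf' hV hp q hv
  obtain ⟨m3, m4⟩ := symm_vec hf hf' hV hp q hw
  have h1 := hA q _ m3 _ m1
  rw [m2, m4] at h1
  linarith

end inverse

end Pool.Agent.Q192.PK
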