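import Pool.Agent.Q192.PK.Fin0
import Pool.Agent.Q192.PK.ManA
import Pool.Agent.Y321.PD.Real
import Pool.Agent.H779R2.An.RealizeE
import Pool.Agent.H779R2.An.QuadM

/-!
# Project PK: uniform bounds for `C²` Anosov diffeomorphisms from the periodic points
-/

set_option autoImplicit false
set_option linter.unusedSectionVars false

open scoped Manifold ContDiff Topology Bundle
open Set Filter Bundle

namespace Pool.Agent.Q192.PK

open Pool.Agent.H721R2 Pool.Agent.H779R2.An Pool.Agent.Y321.PD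

universe u v w

variable {E₀ : Type w} [NormedAddCommGroup E₀] [NormedSpace ℝ E₀] [FiniteDimensional ℝ E₀]
  {M : Type u} [MetricSpace M] [CompactSpace M] [ChartedSpace E₀ M] [IsManifold 𝓘(ℝ, E₀) ∞ M]
  {F : Type v} [NormedAddCommGroup F] [InnerProductSpace ℝ F] [FiniteDimensional ℝ F]
  {e : M → F} {f : M ≃ₜ M} {Es Eu : M → Submodule ℝ E₀} {C a b Ls Lu : ℝ}

/-- Comparison of norms at a point. -/
theorem dm_cmp (hinj : ∀ x, Function.Injective (dm E₀ e x)) (p : M) :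
    ∃ R : ℝ, 0 < R ∧ (∀ v, ‖dm E₀ e p v‖ ≤ R * ‖v‖) ∧ ∀ v, ‖v‖ ≤ R * ‖dm E₀ e p v‖ := by
  obtain ⟨K, hK, hK'⟩ := LinearMap.exists_antilipschitzWith (dm E₀ e p : E₀ →ₗ[ℝ] F)
    (LinearMap.ker_eq_bot.2 (hinj p))
  refine ⟨max ‖dm E₀ e p‖ K, lt_max_of_lt_right (by exact_mod_cast hK), fun v => ?_, fun v => ?_⟩
  · exact ((dm E₀ e p).le_opNorm v).trans
      (mul_le_mul_of_nonneg_right (le_max_left _ _) (norm_nonneg _))
  · have h1 : ‖v‖ ≤ K * ‖(dm E₀ e p : E₀ →ₗ[ℝ] F) v‖ := by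
      have := hK'.le_mul_dist v 0
      simpa [dist_eq_norm] using this
    exact h1.trans (mul_le_mul_of_nonneg_right (le_max_right _ _) (norm_nonneg _))

theorem real_iter {S : HypSys M F} {N : ℕ} (hS : Realizes S e f Es Eu N) (k : ℕ) (x : M) :
    S.g^[k] x = f^[N * k] x := by
  rw [hS.g_eq, Function.iterate_mul]
  rfl

theorem root_pow {N : ℕ} (hN : 1 ≤ N) {y : ℝ} (hy : 0 < y) :
    0 < y ^ ((N : ℝ)⁻¹) ∧ (y ^ ((N : ℝ)⁻¹)) ^ N = y :=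
  ⟨Real.rpow_pos_of_pos hy _, Real.rpow_inv_natCast_pow hy.le (by omega)⟩

theorem lt_root {N : ℕ} (hN : 1 ≤ N) {y b : ℝ} (hy : 0 < y) (h : b ^ N < y) :
    b < y ^ ((N : ℝ)⁻¹) := by
  obtain ⟨h1, h2⟩ := root_pow hN hy
  rw [← h2] at h
  exact lt_of_pow_lt_pow_left₀ N h1.le h

/-- Distortion at the periodic points of the realizing system. -/
theorem per_qa (hinj : ∀ x, Function.Injective (dm E₀ e x)) (h : EAnosov e f Es Eu C a b Ls Lu)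
    {S : HypSys M F} {N : ℕ} (hN : 1 ≤ N) (hS : Realizes S e f Es Eu N) (hP : PerDis f Eu)
    (p : M) (k : ℕ) (hk : 1 ≤ k) (hp : S.g^[k] p = p) (κ : ℝ) (hκ : 1 < κ) :
    ∃ A : ℝ, ∀ q : ℕ, QA S (k * q) p (A * κ ^ (k * q)) := by
  rw [real_iter hS] at hp
  obtain ⟨r0, r1⟩ := root_pow hN (by linarith : 0 < κ)
  set κ' := κ ^ ((N : ℝ)⁻¹) with hκ'
  have hκ'1 : 1 < κ' := by
    rw [hκ']
    apply lt_root hN (by linarith)
    rwa [one_pow]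
  obtain ⟨A, hA⟩ := hP (N * k) p (Nat.mul_pos hN hk) hp κ' hκ'1
  obtain ⟨R, hR, hR1, hR2⟩ := dm_cmp (e := e) hinj p
  refine ⟨|A| * R ^ 4, fun q v hv w hw => ?_⟩
  rw [hS.Vu_eq] at hv hw
  obtain ⟨v₀, hv₀, rfl⟩ := hv
  obtain ⟨w₀, hw₀, rfl⟩ := hw
  change ‖Dn S (k * q) p (dm E₀ e p v₀)‖ * ‖dm E₀ e p w₀‖ ≤
    |A| * R ^ 4 * κ ^ (k * q) * (‖Dn S (k * q) p (dm E₀ e p w₀)‖ * ‖dm E₀ e p v₀‖)
  rw [Dn_dm' h hS, Dn_dm' h hS]
  have e1 : N * (k * q) = N * k * q := by ring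
  have e2 : f^[N * (k * q)] p = p := by rw [e1]; exact iter_per hp q
  rw [e2]
  have h1 := hA q v₀ hv₀ w₀ hw₀
  rw [← e1] at h1
  have e3 : κ' ^ (N * (k * q)) = κ ^ (k * q) := by rw [pow_mul, r1]
  rw [e3] at h1
  set V := dg E₀ (f^[N * (k * q)]) p v₀
  set W := dg E₀ (f^[N * (k * q)]) p w₀
  have hκq : 0 < κ ^ (k * q) := by positivity
  calc ‖dm E₀ e p V‖ * ‖dm E₀ e p w₀‖ ≤ (R * ‖V‖) * (R * ‖w₀‖) :=
        mul_le_mul (hR1 V) (hR1 w₀) (norm_nonneg _) (by positivity)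
    _ = R ^ 2 * (‖V‖ * ‖w₀‖) := by ring
    _ ≤ R ^ 2 * (|A| * κ ^ (k * q) * (‖W‖ * ‖v₀‖)) := by
        apply mul_le_mul_of_nonneg_left _ (by positivity)
        refine h1.trans (mul_le_mul_of_nonneg_right ?_ (by positivity))
        exact mul_le_mul_of_nonneg_right (le_abs_self _) hκq.le
    _ ≤ R ^ 2 * (|A| * κ ^ (k * q) * ((R * ‖dm E₀ e p W‖) * (R * ‖dm E₀ e p v₀‖))) := by
        apply mul_le_mul_of_nonneg_left _ (by positivity)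
        apply mul_le_mul_of_nonneg_left _ (by positivity)
        exact mul_le_mul (hR2 W) (hR2 v₀) (norm_nonneg _) (by positivity)
    _ = _ := by ring

/-- Upper rates at the periodic points of the realizing system. -/
theorem per_sup (hinj : ∀ x, Function.Injective (dm E₀ e x)) (h : EAnosov e f Es Eu C a b Ls Lu)
    {S : HypSys M F} {N : ℕ} (hN : 1 ≤ N) (hS : Realizes S e f Es Eu N) (V : M → Submodule ℝ E₀)
    {β : ℝ} (hP : PerUp f V β) (p : M) (k : ℕ) (hk : 1 ≤ k) (hp : S.g^[k] p = p)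
    (v₀ : E₀) (hv₀ : v₀ ∈ V p) (l : ℝ) (hl0 : 0 < l) (hl : β ^ N < l) :
    ∃ A : ℝ, ∀ q : ℕ, ‖Dn S (k * q) p (dm E₀ e p v₀)‖ ≤ A * l ^ (k * q) := by
  rw [real_iter hS] at hp
  obtain ⟨r0, r1⟩ := root_pow hN hl0
  obtain ⟨A, hA⟩ := hP (N * k) p (Nat.mul_pos hN hk) hp _ (lt_root hN hl0 hl)
  obtain ⟨R, hR, hR1, hR2⟩ := dm_cmp (e := e) hinj p
  refine ⟨R * (A * ‖v₀‖), fun q => ?_⟩
  rw [Dn_dm' h hS]
  have e1 : N * (k * q) = N * k * q := by ring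
  have e2 : f^[N * (k * q)] p = p := by rw [e1]; exact iter_per hp q
  rw [e2]
  have h1 := hA q v₀ hv₀
  rw [← e1, pow_mul, r1] at h1
  calc _ ≤ R * ‖dg E₀ (f^[N * (k * q)]) p v₀‖ := hR1 _
    _ ≤ R * (A * l ^ (k * q) * ‖v₀‖) := mul_le_mul_of_nonneg_left h1 hR.le
    _ = _ := by ring

section uniform

variable (hiso : ∀ x y, dist x y = ‖e x - e y‖) (he : ContMDiff 𝓘(ℝ, E₀) 𝓘(ℝ, F) 2 e)
  (hinj : ∀ x, Function.Injective (dm E₀ e x)) (h : EAnosov e f Es Eu C a b Ls Lu)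
  (hf2 : ContMDiff 𝓘(ℝ, E₀) 𝓘(ℝ, E₀) 2 f) (hf2' : ContMDiff 𝓘(ℝ, E₀) 𝓘(ℝ, E₀) 2 f.symm)
  (D : ℕ) (hD : ∀ x, Module.finrank ℝ (Eu x) = D)

include hiso he hinj h hf2 hf2' hD

/-- A realizing system with its properties. -/
theorem exists_quad : ∃ (N : ℕ) (S : HypSys M F) (Q r : ℝ), 1 ≤ N ∧ Realizes S e f Es Eu N ∧
    Quad S Q r ∧ ∀ x, Module.finrank ℝ (S.Vu x) = D := by
  have he1 : ContMDiff 𝓘(ℝ, E₀) 𝓘(ℝ, F) 1 e := he.of_le (by norm_num)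
  obtain ⟨K, hK, hang⟩ := h.angle he1 hinj
  have t1 : Tendsto (fun n : ℕ => K * (C * a ^ n)) atTop (𝓝 0) := by
    have := ((tendsto_pow_atTop_nhds_zero_of_lt_one h.a_pos.le h.a_lt).const_mul C).const_mul K
    simpa using this
  have t2 : Tendsto (fun n : ℕ => K * (C * b ^ n)) atTop (𝓝 0) := by
    have := ((tendsto_pow_atTop_nhds_zero_of_lt_one h.b_pos.le h.b_lt).const_mul C).const_mul K
    simpa using this
  obtain ⟨n, ⟨hn1, hn2⟩, hn3⟩ := ((((tendsto_order.mp t1).2 (1 / 16) (by norm_num)).and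
    ((tendsto_order.mp t2).2 (1 / 16) (by norm_num))).and (eventually_ge_atTop 1)).exists
  obtain ⟨S, hS⟩ := exists_realizes hiso he1 hinj h K hK hang n hn1.le hn2.le
  obtain ⟨Q, r, hQ⟩ := quad_of_realizes hiso he hinj h hf2 hf2' hS
  refine ⟨n, S, Q, r, hn3, hS, hQ, fun x => ?_⟩
  rw [hS.Vu_eq, ← hD x]
  exact (LinearEquiv.finrank_eq (Submodule.equivMapOfInjective (dm E₀ e x).toLinearMap
    (hinj x) (Eu x))).symm

/-- Subexponential distortion from the periodic points. -/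
theorem uni_dis (hP : PerDis f Eu) (κ : ℝ) (hκ : 1 < κ) : ∃ A : ℝ, ∀ (m : ℕ) (x : M),
    ∀ v ∈ Eu x, ∀ w ∈ Eu x,
    ‖dm E₀ e (f^[m] x) (dg E₀ (f^[m]) x v)‖ * ‖dm E₀ e x w‖ ≤
      A * κ ^ m * (‖dm E₀ e (f^[m] x) (dg E₀ (f^[m]) x w)‖ * ‖dm E₀ e x v‖) := by
  obtain ⟨n, S, Q, r, hn, hS, hQ, hfin⟩ := exists_quad hiso he hinj h hf2 hf2' D hD
  obtain ⟨A, hA⟩ := fK12 M F S Q r D hQ hfin (per_qa hinj h hn hS hP) κ hκ
  have hC1 := h.C_pos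
  have hLu1 := h.Lu_le
  have hC0 : 0 < C := by linarith
  refine ⟨C * Lu ^ n * |A| * C, ?_⟩
  intro m x v hv w hw
  obtain ⟨k, j, hj, hm⟩ : ∃ k j : ℕ, j < n ∧ m = j + n * k :=
    ⟨m / n, m % n, Nat.mod_lt _ (by omega), (Nat.mod_add_div m n).symm⟩
  have hcomp : ∀ u : E₀, dg E₀ (f^[m]) x u =
      dg E₀ (f^[j]) (f^[n * k] x) (dg E₀ (f^[n * k]) x u) := by
    intro u
    have h1 : f^[m] = f^[j] ∘ f^[n * k] := by rw [hm, Function.iterate_add]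
    rw [h1, dg_comp _ _ (iter_smooth f h.smooth (n * k)) (iter_smooth f h.smooth j)]
  have hpt : f^[m] x = f^[j] (f^[n * k] x) := by rw [hm, Function.iterate_add_apply]
  set y := f^[n * k] x with hy
  set V := dg E₀ (f^[n * k]) x v with hV
  set W := dg E₀ (f^[n * k]) x w with hW
  have hVm : V ∈ Eu y := h.mapU (n * k) x v hv
  have hWm : W ∈ Eu y := h.mapU (n * k) x w hw
  have e1 : ‖dm E₀ e (f^[m] x) (dg E₀ (f^[m]) x v)‖ ≤ C * Lu ^ n * ‖dm E₀ e y V‖ := by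
    rw [hcomp, hpt]
    refine (h.hU j y V hVm).trans ?_
    have : Lu ^ j ≤ Lu ^ n := pow_le_pow_right₀ hLu1 hj.le
    gcongr
  have e2 : ‖dm E₀ e y W‖ ≤ C * ‖dm E₀ e (f^[m] x) (dg E₀ (f^[m]) x w)‖ := by
    rw [hcomp, hpt]
    have h1 := h.hU' j (f^[j] y) (dg E₀ (f^[j]) y W) (h.mapU j y W hWm)
    have h2 : f.symm^[j] (f^[j] y) = y := (Function.LeftInverse.iterate f.symm_apply_apply j) y
    have h3 : dg E₀ (f.symm^[j]) (f^[j] y) (dg E₀ (f^[j]) y W) = W :=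
      dg_inv (f^[j]) (f.symm^[j]) (iter_smooth f h.smooth j) (iter_smooth f.symm h.smooth' j)
        (fun z => (Function.LeftInverse.iterate f.symm_apply_apply j) z) y W
    rw [h2, h3] at h1
    refine h1.trans ?_
    have h4 : b ^ j ≤ 1 := pow_le_one₀ h.b_pos.le h.b_lt.le
    have h5 : C * b ^ j ≤ C * 1 := mul_le_mul_of_nonneg_left h4 hC0.le
    rw [mul_one] at h5
    exact mul_le_mul_of_nonneg_right h5 (norm_nonneg _)
  have hkm : κ ^ k ≤ κ ^ m := pow_le_pow_right₀ hκ.le (by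
    rw [hm]
    have : k ≤ n * k := Nat.le_mul_of_pos_left _ hn
    omega)
  have hkm0 : 0 < κ ^ m := by positivity
  have e3 : ‖dm E₀ e y V‖ * ‖dm E₀ e x w‖ ≤
      |A| * κ ^ m * (‖dm E₀ e y W‖ * ‖dm E₀ e x v‖) := by
    have h1 := hA k x (dm E₀ e x v) (by rw [hS.Vu_eq]; exact ⟨v, hv, rfl⟩)
      (dm E₀ e x w) (by rw [hS.Vu_eq]; exact ⟨w, hw, rfl⟩)
    rw [Dn_dm' h hS, Dn_dm' h hS] at h1
    refine h1.trans (mul_le_mul_of_nonneg_right ?_ (by positivity))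
    exact mul_le_mul (le_abs_self _) hkm (by positivity) (abs_nonneg _)
  have hLn : 0 ≤ Lu ^ n := by positivity
  calc _ ≤ (C * Lu ^ n * ‖dm E₀ e y V‖) * ‖dm E₀ e x w‖ :=
        mul_le_mul_of_nonneg_right e1 (norm_nonneg _)
    _ = C * Lu ^ n * (‖dm E₀ e y V‖ * ‖dm E₀ e x w‖) := by ring
    _ ≤ C * Lu ^ n * (|A| * κ ^ m * (‖dm E₀ e y W‖ * ‖dm E₀ e x v‖)) :=
        mul_le_mul_of_nonneg_left e3 (by positivity)
    _ ≤ C * Lu ^ n * (|A| * κ ^ m * ((C * ‖dm E₀ e (f^[m] x) (dg E₀ (f^[m]) x w)‖) *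
        ‖dm E₀ e x v‖)) := by gcongr
    _ = _ := by ring

/-- Upper rates from the periodic points. -/
theorem uni_up {β : ℝ} (hβ : 0 ≤ β) (hP : PerUp f Eu β) (l : ℝ) (hl : β < l) :
    ∃ A : ℝ, 0 < A ∧ ∀ (m : ℕ) (x : M), ∀ v ∈ Eu x,
      ‖dm E₀ e (f^[m] x) (dg E₀ (f^[m]) x v)‖ ≤ A * l ^ m * ‖dm E₀ e x v‖ := by
  obtain ⟨n, S, Q, r, hn, hS, hQ, hfin⟩ := exists_quad hiso he hinj h hf2 hf2' D hD
  obtain ⟨l₁, hl₁, hl₁'⟩ := exists_between (pow_lt_pow_left₀ hl hβ (by omega : n ≠ 0))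
  have hl₁0 : 0 < l₁ := lt_of_le_of_lt (by positivity) hl₁
  have hl0 : 0 < l := lt_of_le_of_lt hβ hl
  obtain ⟨A, hA⟩ := fK13 M F S Q r D hQ hfin l₁ hl₁0 (by
    intro p k hk hp w hw
    rw [hS.Vu_eq] at hw
    obtain ⟨w₀, hw₀, rfl⟩ := hw
    exact per_sup hinj h hn hS Eu hP p k hk hp w₀ hw₀ l₁ hl₁0 hl₁) (l ^ n) hl₁'
  have hC1 := h.C_pos
  have hLu1 := h.Lu_le
  have hC0 : 0 < C := by linarith
  obtain ⟨B, hBd⟩ : ∃ B : ℝ, B = max 1 l⁻¹ := ⟨_, rfl⟩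
  have hB1 : 1 ≤ B := by rw [hBd]; exact le_max_left _ _
  refine ⟨C * Lu ^ n * (max 1 A * B ^ n), by positivity, ?_⟩
  intro m x v hv
  obtain ⟨k, j, hj, hm⟩ : ∃ k j : ℕ, j < n ∧ m = j + n * k :=
    ⟨m / n, m % n, Nat.mod_lt _ (by omega), (Nat.mod_add_div m n).symm⟩
  have hcomp : dg E₀ (f^[m]) x v =
      dg E₀ (f^[j]) (f^[n * k] x) (dg E₀ (f^[n * k]) x v) := by
    have h1 : f^[m] = f^[j] ∘ f^[n * k] := by rw [hm, Function.iterate_add]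
    rw [h1, dg_comp _ _ (iter_smooth f h.smooth (n * k)) (iter_smooth f h.smooth j)]
  have hpt : f^[m] x = f^[j] (f^[n * k] x) := by rw [hm, Function.iterate_add_apply]
  set y := f^[n * k] x with hy
  set V := dg E₀ (f^[n * k]) x v with hV
  have hVm : V ∈ Eu y := h.mapU (n * k) x v hv
  have e1 : ‖dm E₀ e (f^[m] x) (dg E₀ (f^[m]) x v)‖ ≤ C * Lu ^ n * ‖dm E₀ e y V‖ := by
    rw [hcomp, hpt]
    refine (h.hU j y V hVm).trans ?_
    have : Lu ^ j ≤ Lu ^ n := pow_le_pow_right₀ hLu1 hj.le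
    gcongr
  have e3 : ‖dm E₀ e y V‖ ≤ max 1 A * (l ^ n) ^ k * ‖dm E₀ e x v‖ := by
    have h1 := hA k x (dm E₀ e x v) (by rw [hS.Vu_eq]; exact ⟨v, hv, rfl⟩)
    rw [Dn_dm' h hS] at h1
    refine h1.trans (mul_le_mul_of_nonneg_right ?_ (norm_nonneg _))
    exact mul_le_mul_of_nonneg_right (le_max_right _ _) (by positivity)
  have e4 : (l ^ n) ^ k ≤ B ^ n * l ^ m := by
    rw [← pow_mul, hm, pow_add, ← mul_assoc]
    have h1 : 1 ≤ B ^ n * l ^ j := by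
      have h2 : 1 ≤ B * l := by
        have : l⁻¹ * l = 1 := inv_mul_cancel₀ hl0.ne'
        have h3 : l⁻¹ ≤ B := by rw [hBd]; exact le_max_right _ _
        nlinarith
      have h3 : B ^ j ≤ B ^ n := pow_le_pow_right₀ hB1 hj.le
      calc 1 ≤ (B * l) ^ j := one_le_pow₀ h2
        _ = B ^ j * l ^ j := mul_pow _ _ _
        _ ≤ _ := mul_le_mul_of_nonneg_right h3 (by positivity)
    exact le_mul_of_one_le_left (by positivity) h1
  calc _ ≤ C * Lu ^ n * ‖dm E₀ e y V‖ := e1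
    _ ≤ C * Lu ^ n * (max 1 A * (l ^ n) ^ k * ‖dm E₀ e x v‖) :=
        mul_le_mul_of_nonneg_left e3 (by positivity)
    _ ≤ C * Lu ^ n * (max 1 A * (B ^ n * l ^ m) * ‖dm E₀ e x v‖) := by gcongr
    _ = _ := by ring

/-- Lower rates from the periodic points: upper rates of the inverse on `Eu`. -/
theorem uni_lo {α : ℝ} (hα : 0 < α) (hP : PerLo f Eu α) (l : ℝ) (hl : α⁻¹ < l) :
    ∃ A : ℝ, 0 < A ∧ ∀ (m : ℕ) (x : M), ∀ v ∈ Eu x,
      ‖dm E₀ e (f.symm^[m] x) (dg E₀ (f.symm^[m]) x v)‖ ≤ A * l ^ m * ‖dm E₀ e x v‖ := by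
  have hα' : 0 < α⁻¹ := inv_pos.2 hα
  obtain ⟨n, S, Q, r, hn, hS, hQ, hfin⟩ := exists_quad hiso he hinj h hf2 hf2' D hD
  obtain ⟨l₁, hl₁, hl₁'⟩ := exists_between (pow_lt_pow_left₀ hl hα'.le (by omega : n ≠ 0))
  have hl₁0 : 0 < l₁ := lt_of_le_of_lt (by positivity) hl₁
  have hl0 : 0 < l := hα'.trans hl
  have hP' : PerUp f.symm Eu α⁻¹ := perUp_symm h.smooth h.smooth' h.mapU' hα hP
  obtain ⟨A, hA⟩ := fK14 M F S Q r D hQ hfin l₁ hl₁0 (by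
    intro p k hk hp w hw
    rw [hS.Vu_eq] at hw
    obtain ⟨w₀, hw₀, rfl⟩ := hw
    have hp' : S.symm.g^[k] p = p := by
      have h2 : S.symm.g^[k] (S.g^[k] p) = p :=
        (Function.LeftInverse.iterate S.g.symm_apply_apply k) p
      rwa [hp] at h2
    exact per_sup hinj h.symm hn hS.symm Eu hP' p k hk hp' w₀ hw₀ l₁ hl₁0 hl₁) (l ^ n) hl₁'
  have hC1 := h.C_pos
  have hC0 : 0 < C := by linarith
  obtain ⟨B, hBd⟩ : ∃ B : ℝ, B = max 1 l⁻¹ := ⟨_, rfl⟩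
  have hB1 : 1 ≤ B := by rw [hBd]; exact le_max_left _ _
  refine ⟨C * (max 1 A * B ^ n), by positivity, ?_⟩
  intro m x v hv
  obtain ⟨k, j, hj, hm⟩ : ∃ k j : ℕ, j < n ∧ m = j + n * k :=
    ⟨m / n, m % n, Nat.mod_lt _ (by omega), (Nat.mod_add_div m n).symm⟩
  have hcomp : dg E₀ (f.symm^[m]) x v =
      dg E₀ (f.symm^[j]) (f.symm^[n * k] x) (dg E₀ (f.symm^[n * k]) x v) := by
    have h1 : f.symm^[m] = f.symm^[j] ∘ f.symm^[n * k] := by rw [hm, Function.iterate_add]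
    rw [h1, dg_comp _ _ (iter_smooth f.symm h.smooth' (n * k)) (iter_smooth f.symm h.smooth' j)]
  have hpt : f.symm^[m] x = f.symm^[j] (f.symm^[n * k] x) := by
    rw [hm, Function.iterate_add_apply]
  set y := f.symm^[n * k] x with hy
  set V := dg E₀ (f.symm^[n * k]) x v with hV
  have hVm : V ∈ Eu y := h.mapU' (n * k) x v hv
  have e1 : ‖dm E₀ e (f.symm^[m] x) (dg E₀ (f.symm^[m]) x v)‖ ≤ C * ‖dm E₀ e y V‖ := by
    rw [hcomp, hpt]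
    refine (h.hU' j y V hVm).trans ?_
    have : b ^ j ≤ 1 := pow_le_one₀ h.b_pos.le h.b_lt.le
    have h5 : C * b ^ j ≤ C * 1 := mul_le_mul_of_nonneg_left this hC0.le
    rw [mul_one] at h5
    exact mul_le_mul_of_nonneg_right h5 (norm_nonneg _)
  have e3 : ‖dm E₀ e y V‖ ≤ max 1 A * (l ^ n) ^ k * ‖dm E₀ e x v‖ := by
    have h1 := hA k x (dm E₀ e x v) (by rw [hS.Vu_eq]; exact ⟨v, hv, rfl⟩)
    rw [Dn_dm' h.symm hS.symm] at h1
    refine h1.trans (mul_le_mul_of_nonneg_right ?_ (norm_nonneg _))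
    exact mul_le_mul_of_nonneg_right (le_max_right _ _) (by positivity)
  have e4 : (l ^ n) ^ k ≤ B ^ n * l ^ m := by
    rw [← pow_mul, hm, pow_add, ← mul_assoc]
    have h1 : 1 ≤ B ^ n * l ^ j := by
      have h2 : 1 ≤ B * l := by
        have : l⁻¹ * l = 1 := inv_mul_cancel₀ hl0.ne'
        have h3 : l⁻¹ ≤ B := by rw [hBd]; exact le_max_right _ _
        nlinarith
      have h3 : B ^ j ≤ B ^ n := pow_le_pow_right₀ hB1 hj.le
      calc 1 ≤ (B * l) ^ j := one_le_pow₀ h2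
        _ = B ^ j * l ^ j := mul_pow _ _ _
        _ ≤ _ := mul_le_mul_of_nonneg_right h3 (by positivity)
    exact le_mul_of_one_le_left (by positivity) h1
  calc _ ≤ C * ‖dm E₀ e y V‖ := e1
    _ ≤ C * (max 1 A * (l ^ n) ^ k * ‖dm E₀ e x v‖) :=
        mul_le_mul_of_nonneg_left e3 (by positivity)
    _ ≤ C * (max 1 A * (B ^ n * l ^ m) * ‖dm E₀ e x v‖) := by gcongr
    _ = _ := by ring

end uniform

end Pool.Agent.Q192.PK
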