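import Pool.Agent.Q192.PK.ManB
import Pool.Agent.Q192.PG.Fin

/-!
# Project PK: Anosov diffeomorphisms with conditions at the periodic points
-/

set_option autoImplicit false
set_option linter.unusedSectionVars false

open scoped Manifold ContDiff Topology Bundle
open Set Filter Bundle

namespace Pool.Agent.Q192.PK

open Pool.Agent.H721R2 Pool.Agent.H779R2.An Pool.Agent.Y321.PD Pool.Agent.H789R2.AN
  Pool.Agent.Q192.PI.B Pool.Agent.Q192.PI Pool.Agent.Q192.PG Pool.Agent.TH289.K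
  Pool.Agent.Y330.J
open Pool.Agent.W740.TU (anosov_symm)

universe u v w

section numbers

/-- The pinching condition is open. -/
theorem pinch_open {μ₁ μ₂ l₁ l₂ : ℝ} (hμ₁ : 0 < μ₁) (hμ : μ₁ ≤ μ₂) (hμ₂ : μ₂ < 1) (hl₁ : 1 < l₁)
    (hl : l₁ ≤ l₂) (hp : 1 < Real.log l₁ / Real.log l₂ + Real.log μ₂ / Real.log μ₁) :
    ∃ s : ℝ, 0 < s ∧ 0 < μ₁ - s ∧ μ₂ + s < 1 ∧ 1 < l₁ - s ∧
      1 < Real.log (l₁ - s) / Real.log (l₂ + s) + Real.log (μ₂ + s) / Real.log (μ₁ - s) := by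
  have h1 : Tendsto (fun s : ℝ => Real.log (l₁ - s) / Real.log (l₂ + s) +
      Real.log (μ₂ + s) / Real.log (μ₁ - s)) (𝓝 0)
      (𝓝 (Real.log (l₁ - 0) / Real.log (l₂ + 0) + Real.log (μ₂ + 0) / Real.log (μ₁ - 0))) := by
    apply Tendsto.add
    · apply Tendsto.div
      · exact ((Real.continuousAt_log (by linarith)).tendsto.comp
          ((continuous_const.sub continuous_id).tendsto (0 : ℝ)))
      · exact ((Real.continuousAt_log (by linarith)).tendsto.comp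
          ((continuous_const.add continuous_id).tendsto (0 : ℝ)))
      · rw [add_zero]
        exact (Real.log_pos (by linarith)).ne'
    · apply Tendsto.div
      · exact ((Real.continuousAt_log (by linarith)).tendsto.comp
          ((continuous_const.add continuous_id).tendsto (0 : ℝ)))
      · exact ((Real.continuousAt_log (by linarith)).tendsto.comp
          ((continuous_const.sub continuous_id).tendsto (0 : ℝ)))
      · rw [sub_zero]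
        exact (Real.log_neg hμ₁ (by linarith)).ne
  simp only [sub_zero, add_zero] at h1
  have h2 := (tendsto_order.1 h1).1 1 hp
  have h3 : ∀ᶠ s : ℝ in 𝓝 0, s < min μ₁ (min (1 - μ₂) (l₁ - 1)) :=
    eventually_lt_nhds (lt_min hμ₁ (lt_min (by linarith) (by linarith)))
  obtain ⟨s, hs, hs'⟩ := (((h2.and h3).filter_mono nhdsWithin_le_nhds).and
    (self_mem_nhdsWithin : Ioi (0 : ℝ) ∈ 𝓝[>] 0)).exists
  have h4 : s < μ₁ := hs.2.trans_le (min_le_left _ _)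
  have h5 : s < 1 - μ₂ := hs.2.trans_le ((min_le_right _ _).trans (min_le_left _ _))
  have h6 : s < l₁ - 1 := hs.2.trans_le ((min_le_right _ _).trans (min_le_right _ _))
  exact ⟨s, hs', by linarith, by linarith, by linarith, hs.1⟩

end numbers

section metric

variable {E : Type w} [NormedAddCommGroup E] [NormedSpace ℝ E] [FiniteDimensional ℝ E]
  {M : Type u} [MetricSpace M] [ChartedSpace E M] [IsManifold 𝓘(ℝ, E) ∞ M]

/-- Rates from the two upper bounds. -/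
theorem rates_of {F : Type v} [NormedAddCommGroup F] [NormedSpace ℝ F]
    (N : TangentBundle 𝓘(ℝ, E) M → ℝ) (f : M ≃ₜ M) (ee : M → F)
    (hsm : ContMDiff 𝓘(ℝ, E) 𝓘(ℝ, E) 1 f) (hsm' : ContMDiff 𝓘(ℝ, E) 𝓘(ℝ, E) 1 f.symm)
    (V : M → Submodule ℝ E) (hV : ∀ (n : ℕ) (x : M), ∀ v ∈ V x, dg E (f^[n]) x v ∈ V (f^[n] x))
    {R : ℝ} (hR : 0 < R) (hcmp : ∀ (x : M) (v : E), ‖dm E ee x v‖ ≤ R * tnm N x v ∧
      tnm N x v ≤ R * ‖dm E ee x v‖) {a b A B : ℝ} (ha : 0 < a) (hb : 0 < b) (hA : 0 < A)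
    (hB : 0 < B)
    (h1 : ∀ (m : ℕ) (x : M), ∀ v ∈ V x,
      ‖dm E ee (f^[m] x) (dg E (f^[m]) x v)‖ ≤ A * b ^ m * ‖dm E ee x v‖)
    (h2 : ∀ (m : ℕ) (x : M), ∀ v ∈ V x,
      ‖dm E ee (f.symm^[m] x) (dg E (f.symm^[m]) x v)‖ ≤ B * (a⁻¹) ^ m * ‖dm E ee x v‖)
    (C : ℝ) (hC : R ^ 2 * A ≤ C) (hC' : R ^ 2 * B ≤ C) (n : ℕ) (x : M) (v : E) (hv : v ∈ V x) :
    C⁻¹ * a ^ n * tnm N x v ≤ tnm N (f^[n] x) (dg E (f^[n]) x v) ∧
      tnm N (f^[n] x) (dg E (f^[n]) x v) ≤ C * b ^ n * tnm N x v := by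
  have hC0 : 0 < C := lt_of_lt_of_le (by positivity) hC
  have n0 : 0 ≤ tnm N x v := by
    have := (hcmp x v).1
    have h0 := norm_nonneg (dm E ee x v)
    by_contra hneg
    push Not at hneg
    nlinarith
  have n1 : 0 ≤ tnm N (f^[n] x) (dg E (f^[n]) x v) := by
    have := (hcmp (f^[n] x) (dg E (f^[n]) x v)).1
    have h0 := norm_nonneg (dm E ee (f^[n] x) (dg E (f^[n]) x v))
    by_contra hneg
    push Not at hneg
    nlinarith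
  constructor
  · have h3 := h2 n (f^[n] x) _ (hV n x v hv)
    have h4 : f.symm^[n] (f^[n] x) = x := (Function.LeftInverse.iterate f.symm_apply_apply n) x
    have h5 := dg_inv (f^[n]) (f.symm^[n]) (iter_smooth f hsm n) (iter_smooth f.symm hsm' n)
      (fun z => (Function.LeftInverse.iterate f.symm_apply_apply n) z) x v
    rw [h4, h5] at h3
    have h6 : tnm N x v ≤ C * (a⁻¹) ^ n * tnm N (f^[n] x) (dg E (f^[n]) x v) := by
      calc tnm N x v ≤ R * ‖dm E ee x v‖ := (hcmp x v).2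
        _ ≤ R * (B * (a⁻¹) ^ n * (R * tnm N (f^[n] x) (dg E (f^[n]) x v))) := by
            apply mul_le_mul_of_nonneg_left _ hR.le
            refine h3.trans (mul_le_mul_of_nonneg_left (hcmp _ _).1 (by positivity))
        _ = (R ^ 2 * B) * (a⁻¹) ^ n * tnm N (f^[n] x) (dg E (f^[n]) x v) := by ring
        _ ≤ _ := by
            apply mul_le_mul_of_nonneg_right _ n1
            exact mul_le_mul_of_nonneg_right hC' (by positivity)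
    rw [mul_assoc, inv_mul_le_iff₀ hC0]
    have h7 : a ^ n * (a⁻¹) ^ n = 1 := by rw [← mul_pow, mul_inv_cancel₀ ha.ne', one_pow]
    calc a ^ n * tnm N x v ≤ a ^ n * (C * (a⁻¹) ^ n * tnm N (f^[n] x) (dg E (f^[n]) x v)) :=
          mul_le_mul_of_nonneg_left h6 (by positivity)
      _ = (a ^ n * (a⁻¹) ^ n) * (C * tnm N (f^[n] x) (dg E (f^[n]) x v)) := by ring
      _ = _ := by rw [h7, one_mul]
  · calc tnm N (f^[n] x) (dg E (f^[n]) x v) ≤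
        R * ‖dm E ee (f^[n] x) (dg E (f^[n]) x v)‖ := (hcmp _ _).2
      _ ≤ R * (A * b ^ n * (R * tnm N x v)) := by
          apply mul_le_mul_of_nonneg_left _ hR.le
          refine (h1 n x v hv).trans (mul_le_mul_of_nonneg_left (hcmp _ _).1 (by positivity))
      _ = (R ^ 2 * A) * b ^ n * tnm N x v := by ring
      _ ≤ _ := by
          apply mul_le_mul_of_nonneg_right _ n0
          exact mul_le_mul_of_nonneg_right hC (by positivity)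

end metric

section manifold

variable {E : Type w} [NormedAddCommGroup E] [NormedSpace ℝ E] [FiniteDimensional ℝ E]
  {M : Type u} [TopologicalSpace M] [T2Space M] [CompactSpace M] [ConnectedSpace M]
  [ChartedSpace E M] [IsManifold 𝓘(ℝ, E) ∞ M]

/-- Subexponential distortion on the unstable bundle from the periodic points. -/
theorem sub_of_per_u (f : Diffeomorph 𝓘(ℝ, E) 𝓘(ℝ, E) M M 1)
    (hf2 : ContMDiff 𝓘(ℝ, E) 𝓘(ℝ, E) 2 f) (hf2' : ContMDiff 𝓘(ℝ, E) 𝓘(ℝ, E) 2 f.symm)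
    (Es Eu : ∀ x : M, Submodule ℝ (TangentSpace 𝓘(ℝ, E) x)) (hA : IsAnosov f Es Eu)
    (N : TangentBundle 𝓘(ℝ, E) M → ℝ) (hN : IsTangentNorm N) (hPD : PerDis (E := E) f Eu) :
    SubexpDistortion f N Eu := by
  obtain ⟨D, hD⟩ := man_rank f Es Eu hA
  obtain ⟨m, ee, hee, hemb, hinje⟩ :=
    exists_embedding_euclidean_of_compact (I := 𝓘(ℝ, E)) (M := M)
  let _ : MetricSpace M := hemb.isEmbedding.comapMetricSpace ee
  have hiso : ∀ x y : M, dist x y = ‖ee x - ee y‖ := fun x y => dist_eq_norm (ee x) (ee y)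
  have he1 : ContMDiff 𝓘(ℝ, E) (𝓡 m) 1 ee := hee.of_le (by simp)
  have he2 : ContMDiff 𝓘(ℝ, E) (𝓡 m) 2 ee := hee.of_le (by
    exact_mod_cast (ENat.LEInfty.out : (2 : WithTop ℕ∞) ≤ ∞))
  obtain ⟨C, a, b, Ls, Lu, hE⟩ := eanosov_of_isAnosov ee he1 hinje f Es Eu hA
  intro κ hκ
  obtain ⟨A, hA'⟩ := uni_dis hiso he2 hinje hE hf2 hf2' D hD hPD κ hκ
  obtain ⟨R, hR, hcmp⟩ := tnm_compare hN ee he1 hinje
  refine ⟨R ^ 4 * |A|, fun n x v hv w hw => ?_⟩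
  change tnm N (f^[n] x) (dg E (f^[n]) x v) * tnm N x w ≤
    R ^ 4 * |A| * κ ^ n * (tnm N (f^[n] x) (dg E (f^[n]) x w) * tnm N x v)
  have h1 := hA' n x v hv w hw
  have a1 := (hcmp (f^[n] x) (dg E (f^[n]) x v)).2
  have a2 := (hcmp x w).2
  have a3 := (hcmp (f^[n] x) (dg E (f^[n]) x w)).1
  have a4 := (hcmp x v).1
  have n1 : 0 ≤ tnm N (f^[n] x) (dg E (f^[n]) x v) := tnm_nonneg hN _ _
  have n2 : 0 ≤ tnm N x w := tnm_nonneg hN _ _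
  have n3 : 0 ≤ tnm N (f^[n] x) (dg E (f^[n]) x w) := tnm_nonneg hN _ _
  have n4 : 0 ≤ tnm N x v := tnm_nonneg hN _ _
  have hκn : 0 ≤ κ ^ n := by positivity
  calc tnm N (f^[n] x) (dg E (f^[n]) x v) * tnm N x w
      ≤ (R * ‖dm E ee (f^[n] x) (dg E (f^[n]) x v)‖) * (R * ‖dm E ee x w‖) :=
        mul_le_mul a1 a2 n2 (by positivity)
    _ = R ^ 2 * (‖dm E ee (f^[n] x) (dg E (f^[n]) x v)‖ * ‖dm E ee x w‖) := by ring
    _ ≤ R ^ 2 * (|A| * κ ^ n * (‖dm E ee (f^[n] x) (dg E (f^[n]) x w)‖ * ‖dm E ee x v‖)) := by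
        apply mul_le_mul_of_nonneg_left _ (by positivity)
        refine h1.trans (mul_le_mul_of_nonneg_right ?_ (by positivity))
        exact mul_le_mul_of_nonneg_right (le_abs_self _) hκn
    _ ≤ R ^ 2 * (|A| * κ ^ n * ((R * tnm N (f^[n] x) (dg E (f^[n]) x w)) *
          (R * tnm N x v))) := by
        apply mul_le_mul_of_nonneg_left _ (by positivity)
        apply mul_le_mul_of_nonneg_left _ (by positivity)
        exact mul_le_mul a3 a4 (norm_nonneg _) (by positivity)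
    _ = _ := by ring

/-- Distortion at the periodic points from the eigenvalues. -/
theorem perDis_of (f : Diffeomorph 𝓘(ℝ, E) 𝓘(ℝ, E) M M 1)
    (Es Eu : ∀ x : M, Submodule ℝ (TangentSpace 𝓘(ℝ, E) x)) (hA : IsAnosov f Es Eu) :
    (OneModulus f Eu → PerDis (E := E) f Eu) ∧
      (OneModulus f Es → PerDis (E := E) f.symm Es) := by
  obtain ⟨m, ee, hee, hemb, hinje⟩ :=
    exists_embedding_euclidean_of_compact (I := 𝓘(ℝ, E)) (M := M)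
  let _ : MetricSpace M := hemb.isEmbedding.comapMetricSpace ee
  have he1 : ContMDiff 𝓘(ℝ, E) (𝓡 m) 1 ee := hee.of_le (by simp)
  obtain ⟨C, a, b, Ls, Lu, hE⟩ := eanosov_of_isAnosov ee he1 hinje f Es Eu hA
  have hsm : ContMDiff 𝓘(ℝ, E) 𝓘(ℝ, E) 1 f.toHomeomorph := f.contMDiff
  have hsm' : ContMDiff 𝓘(ℝ, E) 𝓘(ℝ, E) 1 f.toHomeomorph.symm := f.symm.contMDiff
  let Eu' : M → Submodule ℝ E := Eu
  let Es' : M → Submodule ℝ E := Es
  have hinj' : ∀ (n : ℕ) (x : M) (v : E), dg E (f^[n]) x v = 0 → v = 0 := by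
    intro n x v h0
    have h1 := dg_inv (f^[n]) (f.symm^[n]) (iter_smooth f f.contMDiff n)
      (iter_smooth f.symm f.symm.contMDiff n)
      (fun z => (Function.LeftInverse.iterate f.symm_apply_apply n) z) x v
    rw [h0, map_zero] at h1
    exact h1.symm
  refine ⟨fun hP => perDis_of_one f.contMDiff Eu' hE.mapU (fun n x v _ => hinj' n x v) hP,
    fun hP => ?_⟩
  have h1 : PerDis f.toHomeomorph Es' :=
    perDis_of_one hsm Es' hE.mapS (fun n x v _ => hinj' n x v) hP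
  exact perDis_symm hsm hsm' hE.mapS' h1

theorem sub_of_one_u (f : Diffeomorph 𝓘(ℝ, E) 𝓘(ℝ, E) M M 1)
    (hf2 : ContMDiff 𝓘(ℝ, E) 𝓘(ℝ, E) 2 f) (hf2' : ContMDiff 𝓘(ℝ, E) 𝓘(ℝ, E) 2 f.symm)
    (Es Eu : ∀ x : M, Submodule ℝ (TangentSpace 𝓘(ℝ, E) x)) (hA : IsAnosov f Es Eu)
    (N : TangentBundle 𝓘(ℝ, E) M → ℝ) (hN : IsTangentNorm N) (hP : OneModulus f Eu) :
    SubexpDistortion f N Eu :=
  sub_of_per_u f hf2 hf2' Es Eu hA N hN ((perDis_of f Es Eu hA).1 hP)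

theorem sub_of_one_s (f : Diffeomorph 𝓘(ℝ, E) 𝓘(ℝ, E) M M 1)
    (hf2 : ContMDiff 𝓘(ℝ, E) 𝓘(ℝ, E) 2 f) (hf2' : ContMDiff 𝓘(ℝ, E) 𝓘(ℝ, E) 2 f.symm)
    (Es Eu : ∀ x : M, Submodule ℝ (TangentSpace 𝓘(ℝ, E) x)) (hA : IsAnosov f Es Eu)
    (N : TangentBundle 𝓘(ℝ, E) M → ℝ) (hN : IsTangentNorm N) (hP : OneModulus f Es) :
    SubexpDistortion f.symm N Es :=
  sub_of_per_u f.symm hf2' hf2 Eu Es (anosov_symm f Es Eu hA) N hN
    ((perDis_of f Es Eu hA).2 hP)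

/-- Uniform rates from the periodic points. -/
theorem rates_of_per (f : Diffeomorph 𝓘(ℝ, E) 𝓘(ℝ, E) M M 1)
    (hf2 : ContMDiff 𝓘(ℝ, E) 𝓘(ℝ, E) 2 f) (hf2' : ContMDiff 𝓘(ℝ, E) 𝓘(ℝ, E) 2 f.symm)
    (Es Eu : ∀ x : M, Submodule ℝ (TangentSpace 𝓘(ℝ, E) x)) (hA : IsAnosov f Es Eu)
    (N : TangentBundle 𝓘(ℝ, E) M → ℝ) (hN : IsTangentNorm N) {μ₁ μ₂ l₁ l₂ s : ℝ}
    (hμ₁ : 0 < μ₁) (hμ₂ : 0 < μ₂) (hl₁ : 0 < l₁) (hl₂ : 0 < l₂)
    (hs : PeriodicRates f Es μ₁ μ₂) (hu : PeriodicRates f Eu l₁ l₂) (hs0 : 0 < s)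
    (hsμ : 0 < μ₁ - s) (hsl : 0 < l₁ - s) :
    ∃ C : ℝ, 0 < C ∧ RatesOn f N Es C (μ₁ - s) (μ₂ + s) ∧ RatesOn f N Eu C (l₁ - s) (l₂ + s) := by
  obtain ⟨D, hD⟩ := man_rank f Es Eu hA
  obtain ⟨D', hD'⟩ := man_rank f.symm Eu Es (anosov_symm f Es Eu hA)
  obtain ⟨m, ee, hee, hemb, hinje⟩ :=
    exists_embedding_euclidean_of_compact (I := 𝓘(ℝ, E)) (M := M)
  let _ : MetricSpace M := hemb.isEmbedding.comapMetricSpace ee
  have hiso : ∀ x y : M, dist x y = ‖ee x - ee y‖ := fun x y => dist_eq_norm (ee x) (ee y)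
  have he1 : ContMDiff 𝓘(ℝ, E) (𝓡 m) 1 ee := hee.of_le (by simp)
  have he2 : ContMDiff 𝓘(ℝ, E) (𝓡 m) 2 ee := hee.of_le (by
    exact_mod_cast (ENat.LEInfty.out : (2 : WithTop ℕ∞) ≤ ∞))
  obtain ⟨C, a, b, Ls, Lu, hE⟩ := eanosov_of_isAnosov ee he1 hinje f Es Eu hA
  let Eu' : M → Submodule ℝ E := Eu
  let Es' : M → Submodule ℝ E := Es
  have hsm : ContMDiff 𝓘(ℝ, E) 𝓘(ℝ, E) 1 f.toHomeomorph := f.contMDiff
  have hsm' : ContMDiff 𝓘(ℝ, E) 𝓘(ℝ, E) 1 f.toHomeomorph.symm := f.symm.contMDiff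
  have u1 : PerUp f.toHomeomorph Eu' l₂ := perUp_of_rates hsm Eu' hE.mapU hl₂.le hu
  have u2 : PerLo f.toHomeomorph Eu' l₁ := perLo_of_rates hsm Eu' hE.mapU hl₁ hu
  have s1 : PerUp f.toHomeomorph Es' μ₂ := perUp_of_rates hsm Es' hE.mapS hμ₂.le hs
  have s2 : PerLo f.toHomeomorph Es' μ₁ := perLo_of_rates hsm Es' hE.mapS hμ₁ hs
  have s3 : PerUp f.toHomeomorph.symm Es' μ₁⁻¹ := perUp_symm hsm hsm' hE.mapS' hμ₁ s2
  have s4 : PerLo f.toHomeomorph.symm Es' μ₂⁻¹ := perLo_symm hsm hsm' hE.mapS' hμ₂ s1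
  obtain ⟨A₁, hA₁, H₁⟩ := uni_up hiso he2 hinje hE hf2 hf2' D hD hl₂.le u1 (l₂ + s) (by linarith)
  obtain ⟨A₂, hA₂, H₂⟩ := uni_lo hiso he2 hinje hE hf2 hf2' D hD hl₁ u2 (l₁ - s)⁻¹ (by
    apply inv_strictAnti₀ hsl; linarith)
  obtain ⟨A₃, hA₃, H₃⟩ := uni_up hiso he2 hinje hE.symm hf2' hf2 D' hD' (by positivity) s3
    (μ₁ - s)⁻¹ (by apply inv_strictAnti₀ hsμ; linarith)
  obtain ⟨A₄, hA₄, H₄⟩ := uni_lo hiso he2 hinje hE.symm hf2' hf2 D' hD' (by positivity) s4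
    (μ₂ + s) (by rw [inv_inv]; linarith)
  obtain ⟨R, hR, hcmp⟩ := tnm_compare hN ee he1 hinje
  have hR0 : 0 < R := by linarith
  set K := max (max (R ^ 2 * A₁) (R ^ 2 * A₂)) (max (R ^ 2 * A₃) (R ^ 2 * A₄)) with hK
  have k1 : R ^ 2 * A₁ ≤ K := (le_max_left _ _).trans (le_max_left _ _)
  have k2 : R ^ 2 * A₂ ≤ K := (le_max_right _ _).trans (le_max_left _ _)
  have k3 : R ^ 2 * A₃ ≤ K := (le_max_left _ _).trans (le_max_right _ _)
  have k4 : R ^ 2 * A₄ ≤ K := (le_max_right _ _).trans (le_max_right _ _)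
  refine ⟨K, lt_of_lt_of_le (by positivity) k1, fun n x v hv => ?_, fun n x v hv => ?_⟩
  · exact rates_of N f.toHomeomorph ee hsm hsm' Es' hE.mapS hR0 hcmp hsμ (by linarith) hA₄ hA₃
      H₄ H₃ K k4 k3 n x v hv
  · exact rates_of N f.toHomeomorph ee hsm hsm' Eu' hE.mapU hR0 hcmp hsl (by linarith) hA₁ hA₂
      H₁ H₂ K k1 k2 n x v hv

/-- **Theorem PK**: conditions at the periodic points of `C²` Anosov diffeomorphisms. -/
theorem man_per (f : Diffeomorph 𝓘(ℝ, E) 𝓘(ℝ, E) M M 1)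
    (hf2 : ContMDiff 𝓘(ℝ, E) 𝓘(ℝ, E) 2 f) (hf2' : ContMDiff 𝓘(ℝ, E) 𝓘(ℝ, E) 2 f.symm)
    (Es Eu : ∀ x : M, Submodule ℝ (TangentSpace 𝓘(ℝ, E) x)) (hA : IsAnosov f Es Eu)
    (N : TangentBundle 𝓘(ℝ, E) M → ℝ) (hN : IsTangentNorm N)
    (h : ((∀ x, 2 ≤ Module.finrank ℝ (Eu x)) ∧ OneModulus f Eu) ∨
      ((∀ x, 2 ≤ Module.finrank ℝ (Es x)) ∧ OneModulus f Es) ∨
      ∃ μ₁ μ₂ l₁ l₂ : ℝ, 0 < μ₁ ∧ μ₁ ≤ μ₂ ∧ μ₂ < 1 ∧ 1 < l₁ ∧ l₁ ≤ l₂ ∧
        PeriodicRates f Es μ₁ μ₂ ∧ PeriodicRates f Eu l₁ l₂ ∧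
        1 < Real.log l₁ / Real.log l₂ + Real.log μ₂ / Real.log μ₁) :
    TopTransitive f ∧ GPS f.toHomeomorph ∧
      (∃ P : E → M, IsCoveringMap P ∧ Function.Surjective P) ∧ PG M := by
  rcases h with ⟨h1, h2⟩ | ⟨h1, h2⟩ | ⟨μ₁, μ₂, l₁, l₂, hμ₁, hμ, hμ₂, hl₁, hl, hs, hu, hp⟩
  · have h3 := sub_of_one_u f hf2 hf2' Es Eu hA N hN h2
    obtain ⟨k1, k2, k3⟩ := man_sub2 f Es Eu hA N hN (Or.inl ⟨h1, h3⟩)
    exact ⟨k1, k2, k3, fin_sub f Es Eu hA N hN (Or.inl ⟨h1, h3⟩)⟩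
  · have h3 := sub_of_one_s f hf2 hf2' Es Eu hA N hN h2
    obtain ⟨k1, k2, k3⟩ := man_sub2 f Es Eu hA N hN (Or.inr ⟨h1, h3⟩)
    exact ⟨k1, k2, k3, fin_sub f Es Eu hA N hN (Or.inr ⟨h1, h3⟩)⟩
  · obtain ⟨s, hs0, hsμ, hs2, hs3, hp'⟩ := pinch_open hμ₁ hμ hμ₂ hl₁ hl hp
    obtain ⟨C, hC, r1, r2⟩ := rates_of_per f hf2 hf2' Es Eu hA N hN hμ₁ (hμ₁.trans_le hμ)
      (by linarith) (by linarith) hs hu hs0 hsμ (by linarith)
    have hR : AnosovRates f N Es Eu C (μ₁ - s) (μ₂ + s) (l₁ - s) (l₂ + s) :=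
      ⟨hC, hsμ, by linarith, hs2, hs3, by linarith, hA.isCompl, hA.map_s, hA.map_u, r1, r2⟩
    obtain ⟨k1, k2, k3⟩ := man_pinch f Es Eu hA N hN C _ _ _ _ hR hp'
    exact ⟨k1, k2, k3, fin_pinch f Es Eu N hN C _ _ _ _ hR hp'⟩

end manifold

end Pool.Agent.Q192.PK
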