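import Pool.Agent.Q192.PK.ManC

/-!
# Project PK: subexponential distortion at a periodic point means one modulus
-/

set_option autoImplicit false
set_option linter.unusedSectionVars false

open scoped Manifold ContDiff Topology Bundle
open Set Filter Bundle

namespace Pool.Agent.Q192.PK

open Pool.Agent.H721R2 Pool.Agent.H779R2.An Pool.Agent.Y321.PD Pool.Agent.H789R2.AN
  Pool.Agent.Q192.PI.B Pool.Agent.Q192.PI Pool.Agent.Q192.PG Pool.Agent.TH289.K
  Pool.Agent.Y330.J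

universe u v w

section lin

open Matrix

/-- A root of the characteristic polynomial gives an invariant plane or line. -/
theorem root_vec {n : ℕ} (A : Matrix (Fin n) (Fin n) ℝ) (z : ℂ)
    (hz : (A.charpoly.map (algebraMap ℝ ℂ)).IsRoot z) :
    ∃ a b : Fin n → ℝ, (a ≠ 0 ∨ b ≠ 0) ∧ A.mulVec a = z.re • a - z.im • b ∧
      A.mulVec b = z.im • a + z.re • b := by
  rw [← Matrix.charpoly_map] at hz
  have h0 : (Matrix.scalar (Fin n) z - A.map (algebraMap ℝ ℂ)).det = 0 := by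
    rw [← Matrix.eval_charpoly]
    exact hz
  obtain ⟨v, hv, hv'⟩ := Matrix.exists_mulVec_eq_zero_iff.2 h0
  have h1 : ∀ i, z * v i = ∑ j, (A i j : ℂ) * v j := by
    intro i
    have h2 := congrFun hv' i
    rw [Matrix.sub_mulVec, Pi.sub_apply, Pi.zero_apply, sub_eq_zero] at h2
    have h3 : (Matrix.scalar (Fin n) z).mulVec v i = z * v i := by
      simp [Matrix.scalar_apply, Matrix.mulVec_diagonal]
    rw [h3] at h2
    rw [h2]
    simp [Matrix.mulVec, dotProduct]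
  refine ⟨fun i => (v i).re, fun i => (v i).im, ?_, ?_, ?_⟩
  · by_contra hne
    push Not at hne
    apply hv
    funext i
    exact Complex.ext (congrFun hne.1 i) (congrFun hne.2 i)
  · funext i
    have h2 := congrArg Complex.re (h1 i)
    simp only [Complex.mul_re, Complex.re_sum, Complex.ofReal_re, Complex.ofReal_im, zero_mul,
      sub_zero] at h2
    simp only [Matrix.mulVec, dotProduct, Pi.sub_apply, Pi.smul_apply, smul_eq_mul]
    exact h2.symm
  · funext i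
    have h2 := congrArg Complex.im (h1 i)
    simp only [Complex.mul_im, Complex.im_sum, Complex.ofReal_re, Complex.ofReal_im, zero_mul,
      add_zero] at h2
    simp only [Matrix.mulVec, dotProduct, Pi.add_apply, Pi.smul_apply, smul_eq_mul]
    rw [← h2]
    ring

theorem root_lin {W : Type*} [NormedAddCommGroup W] [NormedSpace ℝ W] [FiniteDimensional ℝ W]
    (T : W →ₗ[ℝ] W) (z : ℂ) (hz : (T.charpoly.map (algebraMap ℝ ℂ)).IsRoot z) :
    ∃ a b : W, (a ≠ 0 ∨ b ≠ 0) ∧ T a = z.re • a - z.im • b ∧ T b = z.im • a + z.re • b := by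
  set B := Module.finBasis ℝ W with hB
  rw [← LinearMap.charpoly_toMatrix T B] at hz
  obtain ⟨a, b, h1, h2, h3⟩ := root_vec _ z hz
  have key : ∀ c : Fin (Module.finrank ℝ W) → ℝ, T (B.equivFun.symm c) =
      B.equivFun.symm ((LinearMap.toMatrix B B T).mulVec c) := by
    intro c
    apply B.equivFun.injective
    rw [LinearEquiv.apply_symm_apply]
    have := LinearMap.toMatrix_mulVec_repr B B T (B.equivFun.symm c)
    rw [← B.equivFun_apply, ← B.equivFun_apply, LinearEquiv.apply_symm_apply] at this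
    exact this.symm
  refine ⟨B.equivFun.symm a, B.equivFun.symm b, ?_, ?_, ?_⟩
  · rcases h1 with h1 | h1
    · left
      intro h
      exact h1 ((LinearEquiv.map_eq_zero_iff _).1 h)
    · right
      intro h
      exact h1 ((LinearEquiv.map_eq_zero_iff _).1 h)
  · rw [key, h2, map_sub, map_smul, map_smul]
  · rw [key, h3, _root_.map_add, map_smul, map_smul]

theorem lin_pow {W : Type*} [NormedAddCommGroup W] [NormedSpace ℝ W]
    (T : W →ₗ[ℝ] W) (z : ℂ) (a b : W) (h1 : T a = z.re • a - z.im • b)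
    (h2 : T b = z.im • a + z.re • b) (q : ℕ) :
    (T ^ q) a = (z ^ q).re • a - (z ^ q).im • b ∧ (T ^ q) b = (z ^ q).im • a + (z ^ q).re • b := by
  induction q with
  | zero => simp
  | succ q ih =>
    obtain ⟨i1, i2⟩ := ih
    have e1 : (T ^ (q + 1)) a = T ((T ^ q) a) := by rw [pow_succ']; rfl
    have e2 : (T ^ (q + 1)) b = T ((T ^ q) b) := by rw [pow_succ']; rfl
    rw [e1, e2, i1, i2, pow_succ, Complex.mul_re, Complex.mul_im]
    simp only [_root_.map_add, map_sub, map_smul, h1, h2]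
    constructor
    · module
    · module

theorem lin_up {W : Type*} [NormedAddCommGroup W] [NormedSpace ℝ W]
    (T : W →ₗ[ℝ] W) (z : ℂ) (a b : W) (h1 : T a = z.re • a - z.im • b)
    (h2 : T b = z.im • a + z.re • b) (q : ℕ) :
    ‖(T ^ q) a‖ ≤ ‖z‖ ^ q * (‖a‖ + ‖b‖) ∧ ‖(T ^ q) b‖ ≤ ‖z‖ ^ q * (‖a‖ + ‖b‖) := by
  obtain ⟨i1, i2⟩ := lin_pow T z a b h1 h2 q
  have n1 : |(z ^ q).re| ≤ ‖z‖ ^ q := by rw [← norm_pow]; exact Complex.abs_re_le_norm _
  have n2 : |(z ^ q).im| ≤ ‖z‖ ^ q := by rw [← norm_pow]; exact Complex.abs_im_le_norm _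
  rw [i1, i2]
  constructor
  · refine (norm_sub_le _ _).trans ?_
    rw [norm_smul, norm_smul, Real.norm_eq_abs, Real.norm_eq_abs, mul_add]
    exact add_le_add (mul_le_mul_of_nonneg_right n1 (norm_nonneg _))
      (mul_le_mul_of_nonneg_right n2 (norm_nonneg _))
  · refine (norm_add_le _ _).trans ?_
    rw [norm_smul, norm_smul, Real.norm_eq_abs, Real.norm_eq_abs, mul_add]
    exact add_le_add (mul_le_mul_of_nonneg_right n2 (norm_nonneg _))
      (mul_le_mul_of_nonneg_right n1 (norm_nonneg _))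

theorem lin_lo {W : Type*} [NormedAddCommGroup W] [NormedSpace ℝ W]
    (T : W →ₗ[ℝ] W) (z : ℂ) (a b : W) (h1 : T a = z.re • a - z.im • b)
    (h2 : T b = z.im • a + z.re • b) (q : ℕ) :
    ‖z‖ ^ q * ‖a‖ ≤ ‖(T ^ q) a‖ + ‖(T ^ q) b‖ ∧ ‖z‖ ^ q * ‖b‖ ≤ ‖(T ^ q) a‖ + ‖(T ^ q) b‖ := by
  obtain ⟨i1, i2⟩ := lin_pow T z a b h1 h2 q
  have n1 : |(z ^ q).re| ≤ ‖z‖ ^ q := by rw [← norm_pow]; exact Complex.abs_re_le_norm _
  have n2 : |(z ^ q).im| ≤ ‖z‖ ^ q := by rw [← norm_pow]; exact Complex.abs_im_le_norm _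
  have n3 : (z ^ q).re * (z ^ q).re + (z ^ q).im * (z ^ q).im = ‖z‖ ^ q * ‖z‖ ^ q := by
    rw [← norm_pow]
    exact (Complex.normSq_apply _).symm.trans (Complex.normSq_eq_norm_sq _ |>.trans (sq _))
  have e1 : (‖z‖ ^ q * ‖z‖ ^ q) • a = (z ^ q).re • (T ^ q) a + (z ^ q).im • (T ^ q) b := by
    rw [i1, i2, ← n3]
    module
  have e2 : (‖z‖ ^ q * ‖z‖ ^ q) • b = (z ^ q).re • (T ^ q) b - (z ^ q).im • (T ^ q) a := by
    rw [i1, i2, ← n3]
    module
  rcases eq_or_lt_of_le (norm_nonneg (z ^ q)) with h0 | h0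
  · rw [← norm_pow, ← h0, zero_mul, zero_mul]
    exact ⟨by positivity, by positivity⟩
  rw [norm_pow] at h0
  constructor
  · have h3 := congrArg norm e1
    rw [norm_smul, Real.norm_of_nonneg (by positivity)] at h3
    have h4 : ‖(z ^ q).re • (T ^ q) a + (z ^ q).im • (T ^ q) b‖ ≤
        ‖z‖ ^ q * (‖(T ^ q) a‖ + ‖(T ^ q) b‖) := by
      refine (norm_add_le _ _).trans ?_
      rw [norm_smul, norm_smul, Real.norm_eq_abs, Real.norm_eq_abs, mul_add]
      exact add_le_add (mul_le_mul_of_nonneg_right n1 (norm_nonneg _))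
        (mul_le_mul_of_nonneg_right n2 (norm_nonneg _))
    rw [← h3, mul_assoc] at h4
    exact le_of_mul_le_mul_left h4 h0
  · have h3 := congrArg norm e2
    rw [norm_smul, Real.norm_of_nonneg (by positivity)] at h3
    have h4 : ‖(z ^ q).re • (T ^ q) b - (z ^ q).im • (T ^ q) a‖ ≤
        ‖z‖ ^ q * (‖(T ^ q) a‖ + ‖(T ^ q) b‖) := by
      refine (norm_sub_le _ _).trans ?_
      rw [norm_smul, norm_smul, Real.norm_eq_abs, Real.norm_eq_abs, mul_add]
      have := add_le_add (mul_le_mul_of_nonneg_right n1 (norm_nonneg ((T ^ q) b)))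
        (mul_le_mul_of_nonneg_right n2 (norm_nonneg ((T ^ q) a)))
      linarith
    rw [← h3, mul_assoc] at h4
    exact le_of_mul_le_mul_left h4 h0

/-- Distortion of the powers and the moduli of the eigenvalues. -/
theorem lin_dist {W : Type*} [NormedAddCommGroup W] [NormedSpace ℝ W] [FiniteDimensional ℝ W]
    (T : W →ₗ[ℝ] W) (z w : ℂ) (hz : (T.charpoly.map (algebraMap ℝ ℂ)).IsRoot z)
    (hw : (T.charpoly.map (algebraMap ℝ ℂ)).IsRoot w) (A κ : ℝ) (hκ : 0 < κ)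
    (h : ∀ (q : ℕ) (v u : W), ‖(T ^ q) v‖ * ‖u‖ ≤ A * κ ^ q * (‖(T ^ q) u‖ * ‖v‖)) :
    ‖w‖ ≤ κ * ‖z‖ := by
  obtain ⟨a, b, hab, a1, a2⟩ := root_lin T z hz
  obtain ⟨a', b', hab', b1, b2⟩ := root_lin T w hw
  by_contra hlt
  push Not at hlt
  -- a nonzero vector growing slowly
  obtain ⟨u, hu, hu'⟩ : ∃ u : W, 0 < ‖u‖ ∧ ∀ q, ‖(T ^ q) u‖ ≤ ‖z‖ ^ q * (‖a‖ + ‖b‖) := by
    rcases hab with h1 | h1
    · exact ⟨a, norm_pos_iff.2 h1, fun q => (lin_up T z a b a1 a2 q).1⟩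
    · exact ⟨b, norm_pos_iff.2 h1, fun q => (lin_up T z a b a1 a2 q).2⟩
  obtain ⟨c, hc, hc'⟩ : ∃ c : ℝ, 0 < c ∧ ∀ q, ‖w‖ ^ q * c ≤ ‖(T ^ q) a'‖ + ‖(T ^ q) b'‖ := by
    rcases hab' with h1 | h1
    · exact ⟨‖a'‖, norm_pos_iff.2 h1, fun q => (lin_lo T w a' b' b1 b2 q).1⟩
    · exact ⟨‖b'‖, norm_pos_iff.2 h1, fun q => (lin_lo T w a' b' b1 b2 q).2⟩
  have hw0 : 0 < ‖w‖ := lt_of_le_of_lt (by positivity) hlt
  set R := κ * ‖z‖ / ‖w‖ with hR
  have hR0 : 0 ≤ R := by positivity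
  have hR1 : R < 1 := by rw [hR, div_lt_one hw0]; exact hlt
  have hbd : ∀ q : ℕ, c * ‖u‖ ≤ (|A| * (‖a‖ + ‖b‖) * (‖a'‖ + ‖b'‖)) * R ^ q := by
    intro q
    have h1 := h q a' u
    have h2 := h q b' u
    have h3 : 0 ≤ κ ^ q := by positivity
    have h4 : ‖(T ^ q) a'‖ * ‖u‖ ≤ |A| * κ ^ q * (‖z‖ ^ q * (‖a‖ + ‖b‖) * ‖a'‖) := by
      refine h1.trans ?_
      refine mul_le_mul (mul_le_mul_of_nonneg_right (le_abs_self _) h3)
        (mul_le_mul_of_nonneg_right (hu' q) (norm_nonneg _)) (by positivity) (by positivity)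
    have h5 : ‖(T ^ q) b'‖ * ‖u‖ ≤ |A| * κ ^ q * (‖z‖ ^ q * (‖a‖ + ‖b‖) * ‖b'‖) := by
      refine h2.trans ?_
      refine mul_le_mul (mul_le_mul_of_nonneg_right (le_abs_self _) h3)
        (mul_le_mul_of_nonneg_right (hu' q) (norm_nonneg _)) (by positivity) (by positivity)
    have h6 := mul_le_mul_of_nonneg_right (hc' q) hu.le
    have hwq : 0 < ‖w‖ ^ q := by positivity
    have h7 : ‖w‖ ^ q * (c * ‖u‖) ≤ (κ * ‖z‖) ^ q * (|A| * (‖a‖ + ‖b‖) * (‖a'‖ + ‖b'‖)) := by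
      rw [mul_pow]
      nlinarith
    rw [hR, div_pow, mul_div_assoc', le_div_iff₀ hwq]
    linarith
  have ht : Tendsto (fun q : ℕ => (|A| * (‖a‖ + ‖b‖) * (‖a'‖ + ‖b'‖)) * R ^ q) atTop (𝓝 0) := by
    have := (tendsto_pow_atTop_nhds_zero_of_lt_one hR0 hR1).const_mul
      (|A| * (‖a‖ + ‖b‖) * (‖a'‖ + ‖b'‖))
    simpa using this
  have h8 : 0 < c * ‖u‖ := by positivity
  exact absurd (ge_of_tendsto' ht hbd) (not_le.2 h8)

end lin

section manifold

variable {E : Type*} [NormedAddCommGroup E] [NormedSpace ℝ E] [FiniteDimensional ℝ E]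
  {M : Type*} [TopologicalSpace M] [ChartedSpace E M] [IsManifold 𝓘(ℝ, E) 1 M]

/-- One modulus from the distortion at the periodic points. -/
theorem one_of_perDis {f : M → M} (hf : ContMDiff 𝓘(ℝ, E) 𝓘(ℝ, E) 1 f)
    (V : M → Submodule ℝ E)
    (hV : ∀ (n : ℕ) (x : M), ∀ v ∈ V x, dg E (f^[n]) x v ∈ V (f^[n] x))
    (h : PerDis f V) : OneModulus (E := E) f V := by
  intro k p hk hp z w hz hw
  have hV' : ∀ v ∈ V p, dg E (f^[k]) p v ∈ V p := by
    intro v hv
    have := hV k p v hv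
    rwa [hp] at this
  set W : Submodule ℝ E := V p with hW
  set T : W →ₗ[ℝ] W := ret f V k p hV' with hT
  have hroot : ∀ z : ℂ, ReturnEigenvalue (E := E) f V k p z →
      (T.charpoly.map (algebraMap ℝ ℂ)).IsRoot z := by
    rintro z ⟨T', hT', hz⟩
    have : T' = T := by
      apply LinearMap.ext
      intro v
      apply Subtype.ext
      exact hT' v
    rw [← this]
    exact hz
  have key : ∀ z w : ℂ, (T.charpoly.map (algebraMap ℝ ℂ)).IsRoot z →
      (T.charpoly.map (algebraMap ℝ ℂ)).IsRoot w → ‖w‖ ≤ ‖z‖ := by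
    intro z w hz hw
    have h1 : ∀ κ : ℝ, 1 < κ → ‖w‖ ≤ κ ^ k * ‖z‖ := by
      intro κ hκ
      obtain ⟨A, hA⟩ := h k p hk hp κ hκ
      refine lin_dist T z w hz hw A (κ ^ k) (by positivity) fun q v u => ?_
      have ev := ret_pow hf V k p hp hV' q v
      have eu := ret_pow hf V k p hp hV' q u
      have h2 := hA q v v.2 u u.2
      rw [← ev, ← eu, pow_mul] at h2
      exact h2
    have h2 : Tendsto (fun κ : ℝ => κ ^ k * ‖z‖) (𝓝[>] 1) (𝓝 (1 ^ k * ‖z‖)) :=
      ((continuous_pow k).mul continuous_const).continuousWithinAt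
    rw [one_pow, one_mul] at h2
    refine ge_of_tendsto h2 ?_
    filter_upwards [self_mem_nhdsWithin] with κ hκ
    exact h1 κ hκ
  exact le_antisymm (key w z (hroot w hw) (hroot z hz)) (key z w (hroot z hz) (hroot w hw))

end manifold

end Pool.Agent.Q192.PK
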