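import Mathlib

/-!
# Project PK: growth of powers and eigenvalues
-/

set_option autoImplicit false

namespace Pool.Agent.Q192.PK

universe v

/-- K15. Growth of the powers of a linear map from the complex roots of its characteristic
polynomial.

Proof.  The matrix `A` of `T` in a basis, over `ℂ`: its spectrum is the set of roots
(`Matrix.mem_spectrum_iff_isRoot_charpoly` or `LinearMap`/`Module.End.hasEigenvalue_iff_isRoot_charpoly`),
Gelfand's formula (`spectrum.pow_nnnorm_pow_one_div_tendsto_nhds_spectralRadius`, with the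
local instances `Matrix.linftyOpNormedRing`, `Matrix.linftyOpNormedAlgebra`) gives
`‖A ^ q‖ ≤ ρ' ^ q` for large `q`; all norms on `V` are equivalent (the linear map `V → (ι → ℝ)` of
the basis and its inverse are continuous), `T ^ q` has the matrix `A ^ q`.  Second part: 0 is not a
root, so `T` is invertible, and the inverse `T'` has the inverse roots (`z` a root for `T'`, i.e. in
the spectrum of `A⁻¹`, iff `z⁻¹` in the spectrum of `A`), so the first part gives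
`‖T' ^ q u‖ ≤ A (ρ'⁻¹) ^ q ‖u‖`; take `u = T ^ q v`. -/
def SK15 : Prop := ∀ (V : Type v) [NormedAddCommGroup V] [NormedSpace ℝ V]
  [FiniteDimensional ℝ V] (T : V →ₗ[ℝ] V),
  (∀ ρ : ℝ, 0 ≤ ρ → (∀ z : ℂ, (T.charpoly.map (algebraMap ℝ ℂ)).IsRoot z → ‖z‖ ≤ ρ) →
    ∀ ρ' : ℝ, ρ < ρ' → ∃ A : ℝ, ∀ (q : ℕ) (v : V), ‖(T ^ q) v‖ ≤ A * ρ' ^ q * ‖v‖) ∧
  (∀ ρ : ℝ, 0 < ρ → (∀ z : ℂ, (T.charpoly.map (algebraMap ℝ ℂ)).IsRoot z → ρ ≤ ‖z‖) →
    ∀ ρ' : ℝ, 0 < ρ' → ρ' < ρ → ∃ A : ℝ, ∀ (q : ℕ) (v : V), ρ' ^ q * ‖v‖ ≤ A * ‖(T ^ q) v‖)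

end Pool.Agent.Q192.PK
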