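import Pool.Agent.H721R2.Embed
import Pool.Agent.Q192.PK.Stm3

/-!
# Project PK: eigenvalues at the periodic points
-/

set_option autoImplicit false
set_option linter.unusedSectionVars false

open scoped Manifold ContDiff Topology Bundle
open Set Filter Bundle

namespace Pool.Agent.Q192.PK

open Pool.Agent.H721R2

section defs

variable {E : Type*} [NormedAddCommGroup E] [NormedSpace ℝ E] [FiniteDimensional ℝ E]
  {M : Type*} [TopologicalSpace M] [ChartedSpace E M]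

/-- For a point `p` with `fᵏ p = p`: the complex number `z` is an eigenvalue (a root of the
characteristic polynomial) of the linear map `D(fᵏ) : V p → V p`. -/
def ReturnEigenvalue (f : M → M) (V : ∀ x : M, Submodule ℝ (TangentSpace 𝓘(ℝ, E) x)) (k : ℕ)
    (p : M) (z : ℂ) : Prop :=
  let W : Submodule ℝ E := V p
  ∃ T : W →ₗ[ℝ] W, (∀ v : W, (T v : E) = mfderiv 𝓘(ℝ, E) 𝓘(ℝ, E) (f^[k]) p (v : E)) ∧
    (T.charpoly.map (algebraMap ℝ ℂ)).IsRoot z

/-- One exponent at each periodic point: all eigenvalues of `D(fᵏ)` on `V p` have the same modulus,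
for all `p` with `fᵏ p = p`, `k ≥ 1` (the modulus may depend on `p`). -/
def OneModulus (f : M → M) (V : ∀ x : M, Submodule ℝ (TangentSpace 𝓘(ℝ, E) x)) : Prop :=
  ∀ (k : ℕ) (p : M), 1 ≤ k → f^[k] p = p → ∀ z w : ℂ, ReturnEigenvalue f V k p z →
    ReturnEigenvalue f V k p w → ‖z‖ = ‖w‖

/-- The eigenvalues of `D(fᵏ)` on `V p` have modulus in `[aᵏ, bᵏ]`, for all `p` with `fᵏ p = p`,
`k ≥ 1`. -/
def PeriodicRates (f : M → M) (V : ∀ x : M, Submodule ℝ (TangentSpace 𝓘(ℝ, E) x)) (a b : ℝ) :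
    Prop :=
  ∀ (k : ℕ) (p : M), 1 ≤ k → f^[k] p = p → ∀ z : ℂ, ReturnEigenvalue f V k p z →
    a ^ k ≤ ‖z‖ ∧ ‖z‖ ≤ b ^ k

end defs

section growth

variable {E : Type*} [NormedAddCommGroup E] [NormedSpace ℝ E]
  {M : Type*} [TopologicalSpace M] [ChartedSpace E M]

/-- Growth at the periodic points: rates at most `b`. -/
def PerUp (f : M → M) (V : M → Submodule ℝ E) (b : ℝ) : Prop :=
  ∀ (k : ℕ) (p : M), 1 ≤ k → f^[k] p = p → ∀ l : ℝ, b < l → ∃ A : ℝ, ∀ q : ℕ, ∀ v ∈ V p,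
    ‖dg E (f^[k * q]) p v‖ ≤ A * l ^ (k * q) * ‖v‖

/-- Growth at the periodic points: rates at least `a`. -/
def PerLo (f : M → M) (V : M → Submodule ℝ E) (a : ℝ) : Prop :=
  ∀ (k : ℕ) (p : M), 1 ≤ k → f^[k] p = p → ∀ l : ℝ, 0 < l → l < a → ∃ A : ℝ, ∀ q : ℕ, ∀ v ∈ V p,
    l ^ (k * q) * ‖v‖ ≤ A * ‖dg E (f^[k * q]) p v‖

/-- Subexponential distortion at each periodic point. -/
def PerDis (f : M → M) (V : M → Submodule ℝ E) : Prop :=
  ∀ (k : ℕ) (p : M), 1 ≤ k → f^[k] p = p → ∀ κ : ℝ, 1 < κ → ∃ A : ℝ, ∀ q : ℕ,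
    ∀ v ∈ V p, ∀ w ∈ V p,
    ‖dg E (f^[k * q]) p v‖ * ‖w‖ ≤ A * κ ^ (k * q) * (‖dg E (f^[k * q]) p w‖ * ‖v‖)

end growth

end Pool.Agent.Q192.PK
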