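import Mathlib

/-!
# Project PK: growth rates of linear cocycles and periodic points

An elementary (Oseledets-free) proof that the growth rate of a linear cocycle over a hyperbolic
system is approximated at periodic points.  Statements of the lemmas; the proofs are in the files
`K1`, `K2`, ... of this folder.
-/

set_option autoImplicit false
set_option linter.unusedSectionVars false

open Filter Topology Set Metric

namespace Pool.Agent.Q192.PK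

universe u v

/-- The volume factor of `T` on the subspace `U`. -/
noncomputable def jac {E : Type v} [NormedAddCommGroup E] [InnerProductSpace ℝ E]
    [FiniteDimensional ℝ E] (T : E →ₗ[ℝ] E) (U : Submodule ℝ E) : ℝ :=
  (T.domRestrict U).normDet

/-- A linear cocycle `D` on the family `V` of subspaces of `E` over the map `g`, with a
potential `φ`. -/
structure Coc (X : Type u) (E : Type v) [NormedAddCommGroup E] [InnerProductSpace ℝ E] where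
  g : X → X
  V : X → Submodule ℝ E
  D : X → E →ₗ[ℝ] E
  φ : X → ℝ
  L : ℝ
  B : ℝ
  one_le_L : 1 ≤ L
  map : ∀ x, ∀ v ∈ V x, D x v ∈ V (g x)
  up : ∀ x, ∀ v ∈ V x, ‖D x v‖ ≤ L * ‖v‖
  lo : ∀ x, ∀ v ∈ V x, ‖v‖ ≤ L * ‖D x v‖
  hφ : ∀ x, |φ x| ≤ B

section

variable {X : Type u} {E : Type v} [NormedAddCommGroup E] [InnerProductSpace ℝ E]

/-- The iterates of the cocycle. -/
def Coc.it (C : Coc X E) : ℕ → X → E →ₗ[ℝ] E
  | 0, _ => LinearMap.id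
  | n + 1, x => C.D (C.g^[n] x) ∘ₗ C.it n x

/-- The Birkhoff sums of the potential. -/
noncomputable def Coc.bs (C : Coc X E) (n : ℕ) (x : X) : ℝ :=
  ∑ i ∈ Finset.range n, C.φ (C.g^[i] x)

/-- Comparison maps `J k : V(gᵏ p) → V(gᵏ x)`, `k ≤ n`, along two orbit segments. -/
def CJ (C : Coc X E) (C₀ c : ℝ) (n : ℕ) (x p : X) (J : ℕ → E →ₗ[ℝ] E) : Prop :=
  (∀ k ≤ n, ∀ w ∈ C.V (C.g^[k] p), J k w ∈ C.V (C.g^[k] x) ∧ ‖J k w - w‖ ≤ c * ‖w‖) ∧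
  ∀ k < n, ∀ w ∈ C.V (C.g^[k] p),
    ‖J (k + 1) (C.D (C.g^[k] p) w) - C.D (C.g^[k] x) (J k w)‖ ≤
      C₀ * c * ((1 / 2) ^ k + (1 / 2) ^ (n - k)) * ‖w‖

/-- Almost closed orbit segments are followed by periodic orbits. -/
def Clos [MetricSpace X] (C : Coc X E) (C₀ C₂ c₁ : ℝ) : Prop :=
  ∀ c, 0 < c → c ≤ c₁ → ∃ ε > 0, ∀ (x : X) (n : ℕ), 1 ≤ n → dist (C.g^[n] x) x ≤ ε →
    ∃ p, C.g^[n] p = p ∧ C.bs n p ≤ C.bs n x + C₂ ∧ ∃ J : ℕ → E →ₗ[ℝ] E, CJ C C₀ c n x p J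

end

/-- K1. Volume factors: chain rule, bounds, perturbation.

Proof.  (1) `LinearMap.normDet_comp` (range of `T.domRestrict U` is `U.map T`; both factors 0 if `T`
is not injective on `U`; transport the `domRestrict` along the isometry between the equal subspaces,
or use `normDet_codRestrict`).  (2), (3) `normDet_eq_prod_singularValues`: every singular value `σ`
with index `< finrank U` is `‖T v‖` for a unit `v ∈ U`
(`hasEigenvalue_adjoint_comp_self_sq_singularValues`), so `a ≤ σ ≤ b` (apply it to the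
corestriction of `T.domRestrict U`, or directly, `E` is finite dimensional).
(4) `T` is injective on `U`.  Let `R : E →ₗ E` be `1 + F ∘ (T|U)⁻¹ ∘ P` with `P` the orthogonal
projection to `T U`.  Then `R ∘ T = T + F` on `U`, and `‖R y‖ ≤ (1 + 2δ)‖y‖` on `T U`.  Use (1), (2)
(and that `jac` only depends on the restriction to `U`). -/
def SK1 : Prop := ∀ (E : Type v) [NormedAddCommGroup E] [InnerProductSpace ℝ E]
  [FiniteDimensional ℝ E],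
  (∀ (S T : E →ₗ[ℝ] E) (U : Submodule ℝ E), jac (S ∘ₗ T) U = jac S (U.map T) * jac T U) ∧
  (∀ (T : E →ₗ[ℝ] E) (U : Submodule ℝ E) (b : ℝ), 0 ≤ b → (∀ v ∈ U, ‖T v‖ ≤ b * ‖v‖) →
    jac T U ≤ b ^ Module.finrank ℝ U) ∧
  (∀ (T : E →ₗ[ℝ] E) (U : Submodule ℝ E) (a : ℝ), 0 ≤ a → (∀ v ∈ U, a * ‖v‖ ≤ ‖T v‖) →
    a ^ Module.finrank ℝ U ≤ jac T U) ∧
  (∀ (T F : E →ₗ[ℝ] E) (U : Submodule ℝ E) (δ : ℝ), 0 ≤ δ → (∀ v ∈ U, 1 / 2 * ‖v‖ ≤ ‖T v‖) →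
    (∀ v ∈ U, ‖F v‖ ≤ δ * ‖v‖) →
    jac (T + F) U ≤ (1 + 2 * δ) ^ Module.finrank ℝ U * jac T U)

/-- K2. Volume factors: adding one vector, and the conorm.

Proof.  (1) Gram determinants (`LinearMap.normDet_sq_eq_det_gram`), or block triangular matrices in
orthonormal bases adapted to `U` and `T U`: if `e` is the unit vector orthogonal to `U` in
`U ⊕ ℝw`, then `jac T (U ⊕ ℝ w) = jac T U * infDist (T e) (T U)`, and `w = u + s e` with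
`|s| = infDist w U`, `infDist (T w) (T U) = |s| infDist (T e) (T U)`.
(2) For `v ≠ 0` take an orthonormal basis `e₁ = v/‖v‖, e₂, …, e_d` of `U` and use (1) for the chain
of spans; each factor after the first is at most `‖T e_i‖ ≤ b`.  Alternatively: induction on
`finrank U` using (1) with `U = U' ⊕ ℝ w`, `v ∈ U'`. -/
def SK2 : Prop := ∀ (E : Type v) [NormedAddCommGroup E] [InnerProductSpace ℝ E]
  [FiniteDimensional ℝ E],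
  (∀ (T : E →ₗ[ℝ] E) (U : Submodule ℝ E) (w : E), w ∉ U →
    jac T (U ⊔ Submodule.span ℝ {w}) * infDist w (U : Set E) =
      jac T U * infDist (T w) (U.map T : Set E)) ∧
  (∀ (T : E →ₗ[ℝ] E) (U : Submodule ℝ E) (b : ℝ), 0 ≤ b → (∀ v ∈ U, ‖T v‖ ≤ b * ‖v‖) →
    ∀ v ∈ U, jac T U * ‖v‖ ≤ b ^ (Module.finrank ℝ U - 1) * ‖T v‖)

/-- K3. The growth rate, its multiplicity, and the gap.  (Uses K1 and K2:
`theorem sK3 (h1 : SK1.{v}) (h2 : SK2.{v}) : SK3.{u, v}`.)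

Proof.  For `j ≤ r` let `a_j(n)` be the supremum of `log (jac (it n x) U) - j * bs n x` over all `x`
and all `U ≤ V x` of dimension `j`; it is bounded by `C n` by K1 and the bounds `L`, `B`, and
subadditive by the chain rule (`it (m+n) x = it m (gⁿ x) ∘ it n x`; images have the same dimension).
Let `Λ_j = lim a_j(n)/n = inf_n a_j(n)/n` (`Subadditive.lim`), `lam = Λ_1`.  For `j = 1`:
`exp (a_1(n))` is the supremum of `‖it n x v‖/(‖v‖ exp (bs n x))` (`jac T (ℝ v) = ‖T v‖/‖v‖`).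
By K1 (2), `a_j(n) ≤ j a_1(n)`, so `Λ_j ≤ j lam`.  Let `d` be the largest `j` in `[1, r]` with
`Λ_j = j lam`.  If `d < r` then `Λ_{d+1} < (d+1) lam`; let `η` be half of the difference; if `d = r`
let `η = 1` (then `U = V x` and the second inequality is `0 ≤ 0`).  `N` large: `a_1(N) ≤ (lam+ε)N`,
`a_{d+1}(N) ≤ ((d+1) lam - η) N`; the second inequality is then K2 (1) for `v ∉ U` and trivial for
`v ∈ U`.  The third: `a_d(n) ≥ d lam n` for all `n`, so some `x, U` come within 1. -/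
def SK3 : Prop := ∀ (X : Type u) [Nonempty X] (E : Type v) [NormedAddCommGroup E]
  [InnerProductSpace ℝ E] [FiniteDimensional ℝ E] (C : Coc X E) (r : ℕ), 1 ≤ r →
  (∀ x, Module.finrank ℝ (C.V x) = r) →
  ∃ lam : ℝ, (∀ ε : ℝ, 0 < ε → ∃ A : ℝ, ∀ (n : ℕ) (x : X), ∀ v ∈ C.V x,
      ‖C.it n x v‖ ≤ A * Real.exp ((lam + ε) * n + C.bs n x) * ‖v‖) ∧
    ∃ d : ℕ, 1 ≤ d ∧ d ≤ r ∧ ∃ η : ℝ, 0 < η ∧ ∀ ε : ℝ, 0 < ε → ∃ N : ℕ, 1 ≤ N ∧
      (∀ (x : X), ∀ v ∈ C.V x,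
        ‖C.it N x v‖ ≤ Real.exp ((lam + ε) * N + C.bs N x) * ‖v‖) ∧
      (∀ (x : X) (U : Submodule ℝ E), U ≤ C.V x → Module.finrank ℝ U = d → ∀ v ∈ C.V x,
        jac (C.it N x) U * infDist (C.it N x v) (U.map (C.it N x) : Set E) ≤
          Real.exp (((d + 1) * lam - η) * N + (d + 1) * C.bs N x) * infDist v (U : Set E)) ∧
      (∀ q : ℕ, ∃ (x : X) (U : Submodule ℝ E), U ≤ C.V x ∧ Module.finrank ℝ U = d ∧
        Real.exp (d * (lam * (N * q) + C.bs (N * q) x) - 1) ≤ jac (C.it (N * q) x) U)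

/-- K4. A recursion for real numbers.

Proof.  Write `δ_k = c(ρ^k + ρ^(m-k))`, `B(i,k) = ∑_{i ≤ l < k} β_l`.  By induction on `k ≤ m`, as
long as `C ∑_{l<k} (t_l + δ_l) ≤ 1/4`: `n_k ≥ (3/4) exp(-B(0,k)) n_0 > 0` and
`t_k ≤ 2 [exp(-η k + 2B(0,k)) θ + ∑_{l<k} C δ_l exp(-η (k-1-l) + 2 B(l,k))]`
(dividing: `t_{k+1} ≤ (exp(-η+2β_k) t_k + C exp(2β_k) δ_k)/(1 - C(t_k+δ_k))`, and the product of the
denominators is at least 3/4).  As `B(l,k) ≤ min(τ k, τ (m-l))`: the first term is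
`≤ 2 θ exp(-α k)`; `ρ^l exp(-η(k-l) + 2τk) ≤ exp(-α l - α (k-l)) = exp(-α k)`,
`ρ^(m-l) exp(-η(k-l)+2τ(m-l)) ≤ exp(-α(m-l)-η(k-l)) ≤ exp(-α(m-k)) exp(-α(k-l))`.  Hence
`t_k ≤ 2θ exp(-αk) + C' c (k exp(-αk) + exp(-α(m-k)))` with `C' = C'(C, η, α)`, whose sum over
`k ≤ m` is `≤ C''(θ + c)`.  For `θ`, `c` small the assumption is kept; `t_m ≤ θ/4` for `m ≥ m₀(θ)`
and `c ≤ c₀(θ)`. -/
def SK4 : Prop := ∀ (C η α ρ τ : ℝ), 1 ≤ C → 0 < α → 0 < ρ → ρ < 1 → 0 ≤ τ →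
  2 * τ + α ≤ η → ρ * Real.exp (2 * τ) ≤ Real.exp (-α) →
  ∃ θ₀ : ℝ, 0 < θ₀ ∧ ∀ θ : ℝ, 0 < θ → θ ≤ θ₀ → ∃ c₀ : ℝ, 0 < c₀ ∧ ∃ m₀ : ℕ,
    ∀ c : ℝ, 0 < c → c ≤ c₀ → ∀ m : ℕ, m₀ ≤ m → ∀ β t n : ℕ → ℝ,
      (∀ k, 0 ≤ β k) →
      (∀ k ≤ m, ∑ i ∈ Finset.range k, β i ≤ τ * k) →
      (∀ k ≤ m, ∑ i ∈ Finset.Ico k m, β i ≤ τ * (m - k : ℕ)) →
      (∀ k ≤ m, 0 ≤ t k) → (∀ k ≤ m, 0 ≤ n k) → 0 < n 0 → t 0 ≤ θ →
      (∀ k < m, C * (t k + c * (ρ ^ k + ρ ^ (m - k))) ≤ 1 / 2 →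
        Real.exp (-β k) * (1 - C * (t k + c * (ρ ^ k + ρ ^ (m - k)))) * n k ≤ n (k + 1) ∧
        t (k + 1) * n (k + 1) ≤
          (Real.exp (-η + β k) * t k + C * (c * (ρ ^ k + ρ ^ (m - k)))) * n k) →
      t m ≤ θ / 4 ∧ 1 / 2 * Real.exp (-τ * m) * n 0 ≤ n m

/-- K5. Good times (Pliss' lemma on both sides) with the same label.

Proof.  Call `k` forward bad if `∑_{k ≤ l < k'} β_l > τ (k'-k)` for some `k' ∈ (k, q]`.  The bad times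
are covered by disjoint such intervals (greedy from the left), so there are at most
`(∑ β)/τ ≤ q/8 + 1/τ` of them; the same for backward bad times (greedy from the right).  For `q`
large more than `M (m₀ + 1)` times in `[0, q]` are good on both sides, so by the pigeonhole
principle two of them at distance `≥ m₀` have the same label. -/
def SK5 : Prop := ∀ (M m₀ : ℕ) (τ : ℝ), 0 < τ → ∃ q : ℕ, ∀ β : ℕ → ℝ, (∀ k, 0 ≤ β k) →
  ∑ k ∈ Finset.range q, β k ≤ τ / 8 * q + 1 → ∀ lab : ℕ → Fin M, ∃ i m : ℕ, m₀ ≤ m ∧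
    i + m ≤ q ∧ lab i = lab (i + m) ∧
    (∀ k ≤ m, ∑ l ∈ Finset.range k, β (i + l) ≤ τ * k) ∧
    (∀ k ≤ m, ∑ l ∈ Finset.Ico k m, β (i + l) ≤ τ * (m - k : ℕ))

/-- K6. Vectors close to the expanded subspaces stay close to them.  (Uses K4:
`theorem sK6 (h : SK4) : SK6.{v}`.)

Proof.  If `y 0 = 0` then all `y k = 0`.  Otherwise apply K4 with the constant
`C' = 2 C exp β₁`, `n_k = ‖y k‖`, `t_k = infDist (y k) (U k) / ‖y k‖` (0 if `y k = 0`).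
With `π` the orthogonal projection to `U k`, `y = y k`: `‖A y‖ ≥ ‖A π y‖ - ‖A (y - π y)‖ ≥
exp(-β_k) (1-t_k)‖y‖ - t_k ‖y‖ = exp(-β_k)‖y‖(1 - t_k - exp(β_k) t_k)`, and
`‖y (k+1)‖ ≥ ‖A y‖ - C δ_k ‖y‖`.  Second: `infDist (y (k+1)) (U (k+1)) ≤
infDist (A y) (U (k+1)) + ‖y (k+1) - A y‖`. -/
def SK6 : Prop := ∀ (E : Type v) [NormedAddCommGroup E] [InnerProductSpace ℝ E]
  [FiniteDimensional ℝ E] (C β₁ η α ρ τ : ℝ), 1 ≤ C → 0 ≤ β₁ → 0 < α → 0 < ρ → ρ < 1 →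
  0 ≤ τ → 2 * τ + α ≤ η → ρ * Real.exp (2 * τ) ≤ Real.exp (-α) →
  ∃ θ₀ : ℝ, 0 < θ₀ ∧ ∀ θ : ℝ, 0 < θ → θ ≤ θ₀ → ∃ c₀ : ℝ, 0 < c₀ ∧ ∃ m₀ : ℕ,
    ∀ c : ℝ, 0 < c → c ≤ c₀ → ∀ m : ℕ, m₀ ≤ m → ∀ (V U : ℕ → Submodule ℝ E)
      (A : ℕ → E →ₗ[ℝ] E) (y : ℕ → E) (β : ℕ → ℝ),
      (∀ k, 0 ≤ β k) → (∀ k < m, β k ≤ β₁) →
      (∀ k ≤ m, ∑ i ∈ Finset.range k, β i ≤ τ * k) →
      (∀ k ≤ m, ∑ i ∈ Finset.Ico k m, β i ≤ τ * (m - k : ℕ)) →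
      (∀ k ≤ m, U k ≤ V k) → (∀ k < m, (U k).map (A k) = U (k + 1)) →
      (∀ k < m, ∀ v ∈ V k, A k v ∈ V (k + 1)) →
      (∀ k < m, ∀ v ∈ V k, ‖A k v‖ ≤ ‖v‖) →
      (∀ k < m, ∀ v ∈ U k, Real.exp (-β k) * ‖v‖ ≤ ‖A k v‖) →
      (∀ k < m, ∀ v ∈ V k, infDist (A k v) (U (k + 1) : Set E) ≤
        Real.exp (-η + β k) * infDist v (U k : Set E)) →
      (∀ k ≤ m, y k ∈ V k) →
      (∀ k < m, ‖y (k + 1) - A k (y k)‖ ≤ C * c * (ρ ^ k + ρ ^ (m - k)) * ‖y k‖) →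
      infDist (y 0) (U 0 : Set E) ≤ θ * ‖y 0‖ →
      infDist (y m) (U m : Set E) ≤ θ / 4 * ‖y m‖ ∧
        1 / 2 * Real.exp (-τ * m) * ‖y 0‖ ≤ ‖y m‖

/-- K7. Finitely many labels of pairs (point, subspace).

Proof.  Label by a finite cover of `X` by small balls and a finite cover of the closed unit ball of
`E →L[ℝ] E` by small balls, applied to the orthogonal projection `P_U`; for `w ∈ U`,
`infDist w U' ≤ ‖w - P_{U'} w‖ = ‖(P_U - P_{U'}) w‖`. -/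
def SK7 : Prop := ∀ (X : Type u) [MetricSpace X] [CompactSpace X] (E : Type v)
  [NormedAddCommGroup E] [InnerProductSpace ℝ E] [FiniteDimensional ℝ E] (ω : ℝ), 0 < ω →
  ∃ (M : ℕ) (lab : X → Submodule ℝ E → Fin M), ∀ x U x' U', lab x U = lab x' U' →
    dist x x' ≤ ω ∧ ∀ w ∈ U, infDist w (U' : Set E) ≤ ω * ‖w‖

/-- K8. Comparison along blocks of length `N`.

Proof.  Telescoping: with `W_i = it i (g^(Nk) p) w`, `z_i = J (Nk+i) W_i`,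
`z_{i+1} - D z_i` has norm `≤ C₀ c (2^{-(Nk+i)} + 2^{-(Nm-Nk-i)}) L^i ‖w‖`, and the rest of the
block expands it by at most `L^{N-1-i}`.  `2^{-(Nm-Nk-i)} ≤ 2^N ρ^(m-k)` for `i < N`, `ρ = 2^{-N}`;
`‖w‖ ≤ 2 ‖J (N k) w‖` as `c ≤ 1/2`.  `C₃ = 2 N L^N 2^N C₀`. -/
def SK8 : Prop := ∀ (X : Type u) (E : Type v) [NormedAddCommGroup E] [InnerProductSpace ℝ E]
  (C : Coc X E) (N : ℕ) (C₀ : ℝ), 1 ≤ N → 0 ≤ C₀ → ∃ C₃ : ℝ, 0 ≤ C₃ ∧
    ∀ (c : ℝ) (m : ℕ) (x p : X) (J : ℕ → E →ₗ[ℝ] E), 0 ≤ c → c ≤ 1 / 2 →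
      CJ C C₀ c (N * m) x p J → ∀ k < m, ∀ w ∈ C.V (C.g^[N * k] p),
      ‖J (N * (k + 1)) (C.it N (C.g^[N * k] p) w) - C.it N (C.g^[N * k] x) (J (N * k) w)‖ ≤
        C₃ * c * (((1 / 2) ^ N) ^ k + ((1 / 2) ^ N) ^ (m - k)) * ‖J (N * k) w‖

/-- K9. The growth rate is approximated at periodic points (helper192 does this one, from K1, K2,
K3, K5, K6, K7, K8). -/
def SK9 : Prop := ∀ (X : Type u) [MetricSpace X] [CompactSpace X] [Nonempty X] (E : Type v)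
  [NormedAddCommGroup E] [InnerProductSpace ℝ E] [FiniteDimensional ℝ E] (C : Coc X E)
  (r : ℕ) (C₀ C₂ c₁ : ℝ), 1 ≤ r → (∀ x, Module.finrank ℝ (C.V x) = r) → 0 ≤ C₀ → 0 < c₁ →
  Clos C C₀ C₂ c₁ →
  ∃ lam : ℝ, (∀ ε : ℝ, 0 < ε → ∃ A : ℝ, ∀ (n : ℕ) (x : X), ∀ v ∈ C.V x,
      ‖C.it n x v‖ ≤ A * Real.exp ((lam + ε) * n + C.bs n x) * ‖v‖) ∧
    ∀ l < lam, ∃ (p : X) (n : ℕ), 1 ≤ n ∧ C.g^[n] p = p ∧ ∃ w ∈ C.V p, w ≠ 0 ∧
      ∃ a : ℝ, 0 < a ∧ ∀ q : ℕ,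
        a * Real.exp (l * (n * q) + C.bs (n * q) p) * ‖w‖ ≤ ‖C.it (n * q) p w‖

end Pool.Agent.Q192.PK
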