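import Pool.Agent.Q192.PK.Stm
import Pool.Agent.Q130.AN.PA3

/-!
# Project PK: statements for hyperbolic systems
-/

set_option autoImplicit false
set_option linter.unusedSectionVars false

open Filter Topology Set Metric

namespace Pool.Agent.Q192.PK

open Pool.Agent.H721R2 Pool.Agent.H779R2.An Pool.Agent.Y321.PD

universe u v

section

variable {X : Type u} {E : Type v} [MetricSpace X] [NormedAddCommGroup E] [InnerProductSpace ℝ E]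

/-- Comparison maps `J k : Eu(gᵏ p) → Eu(gᵏ x)`, `k ≤ n`, along two orbit segments. -/
def HJ (S : HypSys X E) (C₀ c : ℝ) (n : ℕ) (x p : X) (J : ℕ → E →ₗ[ℝ] E) : Prop :=
  (∀ k ≤ n, ∀ w ∈ S.Vu (S.g^[k] p), J k w ∈ S.Vu (S.g^[k] x) ∧ ‖J k w - w‖ ≤ c * ‖w‖) ∧
  ∀ k < n, ∀ w ∈ S.Vu (S.g^[k] p),
    ‖J (k + 1) (S.D (S.g^[k] p) w) - S.D (S.g^[k] x) (J k w)‖ ≤
      C₀ * c * ((1 / 2) ^ k + (1 / 2) ^ (n - k)) * ‖w‖

/-- The normalizing potential. -/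
noncomputable def phi [FiniteDimensional ℝ E] (S : HypSys X E) (D : ℕ) (x : X) : ℝ :=
  1 / D * Real.log (jac (S.D x) (S.Vu x))

end

/-- K10. Closing for hyperbolic systems with comparison maps.

Proof.  `Q130.AN.closing_core` (with `w = gⁿ⁻¹ x`, `n-1`, `m = 1`; see `hseg` in
`Q130.AN.qc_of_per_all` in PA3) and `Y321.PD.exists_LP_small` give
`dist (gⁱ x) (gⁱ p) ≤ c' 2⁻ⁱ + c' 2^{-(n-1-i)}` for `i ≤ n-1`, and
`dist (gⁿ x) (gⁿ p) ≤ ε + dist x p ≤ 3 c'` for `i = n`.  `J k = Pu (gᵏ x)` with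
`TauAux.exists_PD`, `PD.mem`, `PD.near` (with `η = c`) and `PD.step` (from `Quad`), with the shadowing
constant `c'` chosen as the minimum of `c/8`, the radius of `PD.near` over 4, `r/4`, ... -/
def SK10 : Prop := ∀ (X : Type u) [MetricSpace X] [CompactSpace X] (E : Type v)
  [NormedAddCommGroup E] [InnerProductSpace ℝ E] [FiniteDimensional ℝ E] (S : HypSys X E)
  (Q r : ℝ), Quad S Q r → ∃ C₀ c₁ : ℝ, 0 ≤ C₀ ∧ 0 < c₁ ∧ ∀ c, 0 < c → c ≤ c₁ → ∃ ε > 0,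
    ∀ (x : X) (n : ℕ), 1 ≤ n → dist (S.g^[n] x) x ≤ ε →
      ∃ p, S.g^[n] p = p ∧ ∃ J : ℕ → E →ₗ[ℝ] E, HJ S C₀ c n x p J

/-- K11. The Birkhoff sums of the normalizing potential along two shadowing orbits.
(`theorem sK11 (h : SK1.{v}) : SK11.{u, v}`.)

Proof.  Let `p_k = gᵏ p`, `x_k = gᵏ x`, `a_k = jac (J k) (Vu p_k)`, `(1-c)^D ≤ a_k ≤ (1+c)^D` (K1).  On
`Vu p_k`: `J (k+1) ∘ D_{p_k} = D_{x_k} ∘ J k + F` with `‖F w‖ ≤ 2 C₀ c' ‖w‖`, `‖D_{x_k} J k w‖ ≥ ‖w‖/2`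
(`le_Dn`, or `contrU`).  K1 (4) and the chain rule (`(Vu p_k).map D = Vu p_{k+1}` by dimension):
`a_{k+1} jac D_{p_k} ≤ (1 + 2 C₀ c (2^{-k} + 2^{-(n-k)}))^D jac D_{x_k} a_k`.  Take logarithms and
sum: `∑ log(1 + s) ≤ ∑ s`. -/
def SK11 : Prop := ∀ (X : Type u) [MetricSpace X] (E : Type v)
  [NormedAddCommGroup E] [InnerProductSpace ℝ E] [FiniteDimensional ℝ E] (S : HypSys X E)
  (C₀ : ℝ) (D : ℕ), 0 ≤ C₀ → 1 ≤ D → (∀ x, Module.finrank ℝ (S.Vu x) = D) →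
  ∃ C₂ : ℝ, ∀ (c : ℝ) (n : ℕ) (x p : X) (J : ℕ → E →ₗ[ℝ] E), 0 < c → c ≤ 1 / 4 →
    HJ S C₀ c n x p J →
    ∑ k ∈ Finset.range n, phi S D (S.g^[k] p) ≤ ∑ k ∈ Finset.range n, phi S D (S.g^[k] x) + C₂

/-- K12. One exponent at each periodic point implies subexponential distortion (helper192). -/
def SK12 : Prop := ∀ (X : Type u) [MetricSpace X] [CompactSpace X] (E : Type v)
  [NormedAddCommGroup E] [InnerProductSpace ℝ E] [FiniteDimensional ℝ E] (S : HypSys X E)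
  (Q r : ℝ) (D : ℕ), Quad S Q r → (∀ x, Module.finrank ℝ (S.Vu x) = D) →
  (∀ (p : X) (n : ℕ), 1 ≤ n → S.g^[n] p = p → ∀ κ : ℝ, 1 < κ → ∃ A : ℝ, ∀ q : ℕ,
    QA S (n * q) p (A * κ ^ (n * q))) →
  ∀ κ : ℝ, 1 < κ → ∃ A : ℝ, ∀ (n : ℕ) (x : X), QA S n x (A * κ ^ n)

/-- K13. The upper rate on the unstable bundle from the periodic points.
(`theorem sK13 (h9 : SK9.{u, v}) (h10 : SK10.{u, v}) : SK13.{u, v}`.)

Proof.  `D = 0` and `X` empty are trivial.  K9 for the cocycle `S.D` on `S.Vu` over `S.g` with `φ = 0`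
(`L = max S.Lu 1`, `lo` from `contrU`; `Coc.it` is `Dn`), with K10 for the closing.  If the rate
`lam` of K9 were `> log l` the periodic point of K9 (for some rate between) contradicts the
hypothesis; so the upper bound of K9 holds with `lam + ε = log l'`. -/
def SK13 : Prop := ∀ (X : Type u) [MetricSpace X] [CompactSpace X] (E : Type v)
  [NormedAddCommGroup E] [InnerProductSpace ℝ E] [FiniteDimensional ℝ E] (S : HypSys X E)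
  (Q r : ℝ) (D : ℕ), Quad S Q r → (∀ x, Module.finrank ℝ (S.Vu x) = D) → ∀ l : ℝ, 0 < l →
  (∀ (p : X) (n : ℕ), 1 ≤ n → S.g^[n] p = p → ∀ w ∈ S.Vu p, ∃ A : ℝ, ∀ q : ℕ,
    ‖Dn S (n * q) p w‖ ≤ A * l ^ (n * q)) →
  ∀ l' : ℝ, l < l' → ∃ A : ℝ, ∀ (n : ℕ) (x : X), ∀ v ∈ S.Vu x,
    ‖Dn S n x v‖ ≤ A * l' ^ n * ‖v‖

/-- K14. The lower rate on the unstable bundle from the periodic points.
(`theorem sK14 (h9 : SK9.{u, v}) (h10 : SK10.{u, v}) : SK14.{u, v}`.)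

Proof.  K9 for the cocycle `S.D'` on `S.Vu` over `S.g.symm` with `φ = 0`.  Closing: if
`dist (g⁻ⁿ x) x ≤ ε`, apply K10 to `x' = g⁻ⁿ x`: `p'` with `gⁿ p' = p'` and maps `J' k`; take `p = p'`
(`g⁻ᵏ p = g^(n-k) p'`), `J k = J' (n - k)`.  For `w ∈ Vu (g⁻ᵏ p)`, `w = D w'` with
`w' = D' w ∈ Vu (g^(n-k-1) p')`: the inequality of K10 for `w'` and one application of `D'`
(which contracts). -/
def SK14 : Prop := ∀ (X : Type u) [MetricSpace X] [CompactSpace X] (E : Type v)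
  [NormedAddCommGroup E] [InnerProductSpace ℝ E] [FiniteDimensional ℝ E] (S : HypSys X E)
  (Q r : ℝ) (D : ℕ), Quad S Q r → (∀ x, Module.finrank ℝ (S.Vu x) = D) → ∀ l : ℝ, 0 < l →
  (∀ (p : X) (n : ℕ), 1 ≤ n → S.g^[n] p = p → ∀ w ∈ S.Vu p, ∃ A : ℝ, ∀ q : ℕ,
    ‖Dn S.symm (n * q) p w‖ ≤ A * l ^ (n * q)) →
  ∀ l' : ℝ, l < l' → ∃ A : ℝ, ∀ (n : ℕ) (x : X), ∀ v ∈ S.Vu x,
    ‖Dn S.symm n x v‖ ≤ A * l' ^ n * ‖v‖

end Pool.Agent.Q192.PK
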